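import Pool.Agent.Helper60.ZC.Def
import Pool.Graph.R_pool_sql_team_seeded_1acbe0a2.Y645.UL.Der

/-!
# Part A: logarithmic derivations, systems of gates, the closure
-/

set_option autoImplicit false

namespace Pool.Agent.Helper60.ZC

open MvPolynomial

/-- homomorphisms from the units to the field which vanish on the constants -/
structure LD (L : Type) [Field L] [Algebra ℂ L] where
  f : Lˣ → L
  mul' : ∀ x y, f (x * y) = f x + f y
  cst' : ∀ c : ℂˣ, f (cst L c) = 0

section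

variable {L : Type} [Field L] [Algebra ℂ L]

theorem cst_val (c : ℂˣ) : ((cst L c : Lˣ) : L) = algebraMap ℂ L (c : ℂ) := rfl

theorem cst_mul (c d : ℂˣ) : cst L (c * d) = cst L c * cst L d := map_mul _ _ _

theorem cst_one : cst L 1 = 1 := map_one _

theorem cst_inv (c : ℂˣ) : cst L c⁻¹ = (cst L c)⁻¹ := map_inv _ _

theorem cst_inj {c d : ℂˣ} (h : cst L c = cst L d) : c = d := by
  ext
  exact (algebraMap ℂ L).injective (congrArg Units.val h)

namespace LD

variable (D : LD L)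

theorem one : D.f 1 = 0 := by rw [← cst_one, D.cst']

theorem inv (x : Lˣ) : D.f x⁻¹ = - D.f x := by
  have h := D.mul' x x⁻¹
  rw [mul_inv_cancel, D.one] at h
  linear_combination -h

theorem div (x y : Lˣ) : D.f (x / y) = D.f x - D.f y := by
  rw [div_eq_mul_inv, D.mul', D.inv, sub_eq_add_neg]

theorem prod {ι : Type} (s : Finset ι) (g : ι → Lˣ) : D.f (∏ i ∈ s, g i) = ∑ i ∈ s, D.f (g i) := by
  classical
  induction s using Finset.induction_on with
  | empty => simp [D.one]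
  | insert i s hi ih => rw [Finset.prod_insert hi, Finset.sum_insert hi, D.mul', ih]

theorem mprod (s : Multiset Lˣ) : D.f s.prod = (s.map D.f).sum := by
  induction s using Multiset.induction_on with
  | empty => simp [D.one]
  | cons a s ih => rw [Multiset.prod_cons, Multiset.map_cons, Multiset.sum_cons, D.mul', ih]

theorem pow (x : Lˣ) (n : ℕ) : D.f (x ^ n) = n * D.f x := by
  induction n with
  | zero => simp [D.one]
  | succ n ih => rw [pow_succ, D.mul', ih]; push_cast; ring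

theorem zpow (x : Lˣ) (n : ℤ) : D.f (x ^ n) = n * D.f x := by
  cases n with
  | ofNat n => simpa using D.pow x n
  | negSucc n => rw [zpow_negSucc, D.inv, D.pow]; push_cast; ring

/-- linear combinations -/
def comb (D₀ : LD L) (t : L) : LD L where
  f x := D.f x - t * D₀.f x
  mul' x y := by rw [D.mul', D₀.mul']; ring
  cst' c := by rw [D.cst', D₀.cst']; ring

/-- the logarithmic derivative -/
def ofDer (d : Derivation ℂ L L) : LD L where
  f x := d (x : L) / (x : L)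
  mul' x y := by
    rw [Units.val_mul, d.leibniz, smul_eq_mul, smul_eq_mul]
    have h1 := x.ne_zero
    have h2 := y.ne_zero
    field_simp
    ring
  cst' c := by rw [cst_val, d.map_algebraMap, zero_div]

end LD

/-- `u` is not a constant -/
def NC (u : Lˣ) : Prop := ∀ c : ℂˣ, u ≠ cst L c

theorem NC.transc {u : Lˣ} (h : NC u) : Transcendental ℂ (u : L) := by
  intro h1
  have h2 := minpoly.mem_range_of_degree_eq_one ℂ (u : L)
    (IsAlgClosed.degree_eq_one_of_irreducible ℂ (minpoly.irreducible h1.isIntegral))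
  obtain ⟨c, hc⟩ := RingHom.mem_range.1 h2
  have hc0 : c ≠ 0 := by
    rintro rfl
    rw [map_zero] at hc
    exact u.ne_zero hc.symm
  exact h (Units.mk0 c hc0) (Units.ext hc.symm)

theorem nc_of_transc {u : Lˣ} (h : Transcendental ℂ (u : L)) : NC u := by
  rintro c rfl
  exact h (isAlgebraic_algebraMap _)

theorem nc_iff {u : Lˣ} : NC u ↔ Transcendental ℂ (u : L) := ⟨NC.transc, nc_of_transc⟩

theorem NC.inv {u : Lˣ} (h : NC u) : NC u⁻¹ := by
  intro c hc
  apply h c⁻¹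
  rw [cst_inv, ← hc, inv_inv]

theorem NC.cst_mul {u : Lˣ} (h : NC u) (c : ℂˣ) : NC (cst L c * u) := by
  intro d hd
  apply h (c⁻¹ * d)
  rw [ZC.cst_mul, cst_inv, ← hd, inv_mul_cancel_left]

/-- there is a logarithmic derivation which does not vanish at `u` -/
theorem exists_ofDer {u : Lˣ} (h : NC u) : ∃ d : Derivation ℂ L L, (LD.ofDer d).f u = 1 := by
  have h1 : AlgebraicIndependent ℂ (fun _ : Unit => (u : L)) := by
    rw [algebraicIndependent_unique_type_iff]
    exact h.transc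
  obtain ⟨d, hd⟩ := Pool.Agent.Y645.UL.exists_der_ind (fun _ : Unit => (u : L)) h1
    (fun _ => (u : L))
  refine ⟨d, ?_⟩
  change d (u : L) / (u : L) = 1
  rw [hd ()]
  exact div_self u.ne_zero

variable (H : MvPolynomial (Fin 2) ℂ)

/-- the linearized gate -/
def Lin (D : LD L) (p : Lˣ × Lˣ) : Prop :=
  (p.1 : L) * hv (pderiv 0 H) (p.1 : L) p.2 * D.f p.1 +
    (p.2 : L) * hv (pderiv 1 H) (p.1 : L) p.2 * D.f p.2 = 0

theorem Lin.comb {H} {D D₀ : LD L} {p : Lˣ × Lˣ} (h : Lin H D p) (h₀ : Lin H D₀ p) (t : L) :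
    Lin H (D.comb D₀ t) p := by
  have h1 : (D.comb D₀ t).f p.1 = D.f p.1 - t * D₀.f p.1 := rfl
  have h2 : (D.comb D₀ t).f p.2 = D.f p.2 - t * D₀.f p.2 := rfl
  rw [Lin, h1, h2]
  rw [Lin] at h h₀
  linear_combination h - t * h₀

theorem lin_ofDer {H} (d : Derivation ℂ L L) {p : Lˣ × Lˣ} (h : hv H (p.1 : L) p.2 = 0) :
    Lin H (LD.ofDer d) p := by
  have h1 := Pool.Agent.W206.CT.E1.chain (k := ℂ) (R := ℂ) d ![(p.1 : L), (p.2 : L)] H
  have h2 : aeval ![(p.1 : L), (p.2 : L)] H = 0 := h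
  rw [h2, map_zero, Fin.sum_univ_two] at h1
  have h3 : (p.1 : L) * (d (p.1 : L) / (p.1 : L)) = d (p.1 : L) := by
    field_simp
  have h4 : (p.2 : L) * (d (p.2 : L) / (p.2 : L)) = d (p.2 : L) := by
    field_simp
  change (p.1 : L) * hv (pderiv 0 H) (p.1 : L) p.2 * (d (p.1 : L) / (p.1 : L)) +
    (p.2 : L) * hv (pderiv 1 H) (p.1 : L) p.2 * (d (p.2 : L) / (p.2 : L)) = 0
  have h5 : 0 = hv (pderiv 0 H) (p.1 : L) p.2 * d (p.1 : L) +
      hv (pderiv 1 H) (p.1 : L) p.2 * d (p.2 : L) := h1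
  linear_combination hv (pderiv 0 H) (p.1 : L) p.2 * h3 + hv (pderiv 1 H) (p.1 : L) p.2 * h4 - h5

/-- a finite system of gates with coordinates in `s` which determines `s` over `A` -/
def Det (A : Set Lˣ) (s : Finset Lˣ) : Prop :=
  ∃ 𝒢 : Finset (Lˣ × Lˣ), (∀ p ∈ 𝒢, hv H (p.1 : L) p.2 = 0 ∧ p.1 ∈ s ∧ p.2 ∈ s) ∧
    ∀ D : LD L, (∀ p ∈ 𝒢, Lin H D p) → (∀ a ∈ A, D.f a = 0) → ∀ x ∈ s, D.f x = 0

/-- the elements determined over `A` -/
def Cl (A : Set Lˣ) : Set Lˣ := {x | ∃ s, Det H A s ∧ x ∈ s}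

variable {H} {A : Set Lˣ}

theorem Det.union [DecidableEq Lˣ] {s t : Finset Lˣ} (hs : Det H A s) (ht : Det H A t) :
    Det H A (s ∪ t) := by
  classical
  obtain ⟨G, hG1, hG2⟩ := hs
  obtain ⟨G', hG1', hG2'⟩ := ht
  refine ⟨G ∪ G', fun p hp => ?_, fun D hD hA x hx => ?_⟩
  · rcases Finset.mem_union.1 hp with h | h
    · obtain ⟨h1, h2, h3⟩ := hG1 p h
      exact ⟨h1, Finset.mem_union_left _ h2, Finset.mem_union_left _ h3⟩
    · obtain ⟨h1, h2, h3⟩ := hG1' p h
      exact ⟨h1, Finset.mem_union_right _ h2, Finset.mem_union_right _ h3⟩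
  · rcases Finset.mem_union.1 hx with h | h
    · exact hG2 D (fun p hp => hD p (Finset.mem_union_left _ hp)) hA x h
    · exact hG2' D (fun p hp => hD p (Finset.mem_union_right _ hp)) hA x h

theorem Det.empty : Det H A ∅ := ⟨∅, by simp, by simp⟩

theorem exists_det (t : Finset Lˣ) (ht : ∀ x ∈ t, x ∈ Cl H A) : ∃ s, Det H A s ∧ t ⊆ s := by
  classical
  induction t using Finset.induction_on with
  | empty => exact ⟨∅, Det.empty, by simp⟩
  | insert a t ha ih =>
    obtain ⟨s, hs, hts⟩ := ih fun x hx => ht x (Finset.mem_insert_of_mem hx)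
    obtain ⟨s', hs', has'⟩ := ht a (Finset.mem_insert_self _ _)
    refine ⟨s' ∪ s, hs'.union hs, ?_⟩
    rw [Finset.insert_subset_iff]
    exact ⟨Finset.mem_union_left _ has', hts.trans Finset.subset_union_right⟩

/-- transitivity -/
theorem Det.trans (B : Finset Lˣ) (hB : ∀ x ∈ B, x ∈ Cl H A) {s : Finset Lˣ}
    (hs : Det H (B : Set Lˣ) s) : ∃ s', Det H A s' ∧ B ⊆ s' ∧ s ⊆ s' := by
  classical
  obtain ⟨t, ⟨G, hG1, hG2⟩, hBt⟩ := exists_det B hB
  obtain ⟨G', hG1', hG2'⟩ := hs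
  refine ⟨t ∪ s, ⟨G ∪ G', fun p hp => ?_, fun D hD hA x hx => ?_⟩,
    hBt.trans Finset.subset_union_left, Finset.subset_union_right⟩
  · rcases Finset.mem_union.1 hp with h | h
    · obtain ⟨h1, h2, h3⟩ := hG1 p h
      exact ⟨h1, Finset.mem_union_left _ h2, Finset.mem_union_left _ h3⟩
    · obtain ⟨h1, h2, h3⟩ := hG1' p h
      exact ⟨h1, Finset.mem_union_right _ h2, Finset.mem_union_right _ h3⟩
  · have h0 : ∀ x ∈ t, D.f x = 0 := hG2 D (fun p hp => hD p (Finset.mem_union_left _ hp)) hA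
    rcases Finset.mem_union.1 hx with h | h
    · exact h0 x h
    · exact hG2' D (fun p hp => hD p (Finset.mem_union_right _ hp)) (fun a ha => h0 a (hBt ha)) x h

theorem cl_of_det (B : Finset Lˣ) (hB : ∀ x ∈ B, x ∈ Cl H A) {s : Finset Lˣ}
    (hs : Det H (B : Set Lˣ) s) : ∀ x ∈ s, x ∈ Cl H A := by
  intro x hx
  obtain ⟨s', h1, -, h3⟩ := Det.trans B hB hs
  exact ⟨s', h1, h3 hx⟩

theorem cl_self {a : Lˣ} (ha : a ∈ A) : a ∈ Cl H A :=
  ⟨{a}, ⟨∅, by simp, fun D _ hA x hx => by rw [Finset.mem_singleton.1 hx]; exact hA a ha⟩, by simp⟩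

theorem cl_cst (c : ℂˣ) : cst L c ∈ Cl H A :=
  ⟨{cst L c}, ⟨∅, by simp, fun D _ _ x hx => by rw [Finset.mem_singleton.1 hx]; exact D.cst' c⟩,
    by simp⟩

theorem cl_mul {x y : Lˣ} (hx : x ∈ Cl H A) (hy : y ∈ Cl H A) : x * y ∈ Cl H A := by
  classical
  refine cl_of_det {x, y} (fun z hz => ?_) (s := {x * y}) ⟨∅, by simp, fun D _ hA z hz => ?_⟩ _
    (Finset.mem_singleton_self _)
  · rcases Finset.mem_insert.1 hz with rfl | h
    · exact hx
    · rw [Finset.mem_singleton.1 h]; exact hy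
  · rw [Finset.mem_singleton.1 hz, D.mul', hA x (by simp), hA y (by simp), add_zero]

theorem cl_inv {x : Lˣ} (hx : x ∈ Cl H A) : x⁻¹ ∈ Cl H A := by
  classical
  refine cl_of_det {x} (fun z hz => ?_) (s := {x⁻¹}) ⟨∅, by simp, fun D _ hA z hz => ?_⟩ _
    (Finset.mem_singleton_self _)
  · rw [Finset.mem_singleton.1 hz]; exact hx
  · rw [Finset.mem_singleton.1 hz, D.inv, hA x (by simp), neg_zero]

theorem cl_div {x y : Lˣ} (hx : x ∈ Cl H A) (hy : y ∈ Cl H A) : x / y ∈ Cl H A := by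
  rw [div_eq_mul_inv]
  exact cl_mul hx (cl_inv hy)

theorem cl_one : (1 : Lˣ) ∈ Cl H A := by
  rw [← cst_one]
  exact cl_cst 1

theorem cl_mprod (s : Multiset Lˣ) (h : ∀ x ∈ s, x ∈ Cl H A) : s.prod ∈ Cl H A := by
  induction s using Multiset.induction_on with
  | empty => rw [Multiset.prod_zero]; exact cl_one
  | cons a s ih =>
    rw [Multiset.prod_cons]
    exact cl_mul (h a (Multiset.mem_cons_self a s)) (ih fun x hx => h x (Multiset.mem_cons_of_mem hx))

/-- derivations determine the values of all admissible homomorphisms -/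
theorem det_formula {u : Lˣ} {s : Finset Lˣ} {G : Finset (Lˣ × Lˣ)}
    (hG : ∀ p ∈ G, hv H (p.1 : L) p.2 = 0)
    (hdet : ∀ D : LD L, (∀ p ∈ G, Lin H D p) → D.f u = 0 → ∀ x ∈ s, D.f x = 0)
    (d : Derivation ℂ L L) (hd : (LD.ofDer d).f u = 1) (D : LD L) (hD : ∀ p ∈ G, Lin H D p)
    (x : Lˣ) (hx : x ∈ s) : D.f x = D.f u * (LD.ofDer d).f x := by
  have h1 := hdet (D.comb (LD.ofDer d) (D.f u)) (fun p hp => (hD p hp).comb (lin_ofDer d (hG p hp)) _)
    (by
      change D.f u - D.f u * (LD.ofDer d).f u = 0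
      rw [hd]; ring) x hx
  have h2 : D.f x - D.f u * (LD.ofDer d).f x = 0 := h1
  linear_combination h2

end

end Pool.Agent.Helper60.ZC
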