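import Pool.Agent.Helper60.ZC.A1

/-!
# Part A: exchange, norms, Möbius transformations
-/

set_option autoImplicit false

namespace Pool.Agent.Helper60.ZC

section



variable {L : Type} [Field L] [Algebra ℂ L] {H : MvPolynomial (Fin 2) ℂ}

/-- the exchange property -/
theorem exchange {y u : Lˣ} (hy : NC y) (hu : NC u) (h : u ∈ Cl H {y}) : y ∈ Cl H {u} := by
  classical
  obtain ⟨s, ⟨G, hG1, hG2⟩, hus⟩ := h
  obtain ⟨d, hd⟩ := exists_ofDer hy
  obtain ⟨d', hd'⟩ := exists_ofDer hu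
  have hform := det_formula (u := y) (s := s) (G := G) (fun p hp => (hG1 p hp).1)
    (fun D hD hDy => hG2 D hD (fun a ha => by rw [Set.mem_singleton_iff.1 ha]; exact hDy)) d hd
  have h1 := hform (LD.ofDer d') (fun p hp => lin_ofDer d' (hG1 p hp).1) u hus
  rw [hd'] at h1
  have h2 : (LD.ofDer d).f u ≠ 0 := by
    intro h0
    rw [h0, mul_zero] at h1
    exact one_ne_zero h1
  refine ⟨insert y s, ⟨G, fun p hp => ?_, fun D hD hDu x hx => ?_⟩, Finset.mem_insert_self _ _⟩
  · obtain ⟨h3, h4, h5⟩ := hG1 p hp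
    exact ⟨h3, Finset.mem_insert_of_mem h4, Finset.mem_insert_of_mem h5⟩
  · have h3 := hform D hD u hus
    rw [hDu u rfl] at h3
    have h4 : D.f y = 0 := by
      rcases mul_eq_zero.1 h3.symm with h | h
      · exact h
      · exact absurd h h2
    rcases Finset.mem_insert.1 hx with rfl | h
    · exact h4
    · rw [hform D hD x h, h4, zero_mul]

theorem cl_trans {y u : Lˣ} {A : Set Lˣ} (hy : y ∈ Cl H A) (h : u ∈ Cl H {y}) : u ∈ Cl H A := by
  obtain ⟨s, hs, hus⟩ := h
  refine cl_of_det {y} (fun z hz => by rw [Finset.mem_singleton.1 hz]; exact hy) (s := s) ?_ u hus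
  rw [Finset.coe_singleton]
  exact hs

theorem cl_self' (u : Lˣ) : u ∈ Cl H {u} := cl_self rfl

theorem NC.ne {u : Lˣ} (h : NC u) (c : ℂ) : (u : L) ≠ algebraMap ℂ L c := by
  intro hc
  have hc0 : c ≠ 0 := by
    rintro rfl
    rw [map_zero] at hc
    exact u.ne_zero hc
  exact h (Units.mk0 c hc0) (Units.ext hc)

theorem NC.lin_ne {u : Lˣ} (h : NC u) (a b : ℂ) (hab : a ≠ 0 ∨ b ≠ 0) :
    algebraMap ℂ L a * u + algebraMap ℂ L b ≠ 0 := by
  intro h1
  by_cases ha : a = 0
  · subst ha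
    rw [map_zero, zero_mul, zero_add, map_eq_zero] at h1
    simp [h1] at hab
  · apply h.ne (-b / a)
    have ha' : algebraMap ℂ L a ≠ 0 := (_root_.map_ne_zero _).2 ha
    rw [map_div₀, map_neg, eq_div_iff ha']
    linear_combination h1

/-- the unit `a u + b` -/
noncomputable def lu {u : Lˣ} (hu : NC u) (a b : ℂ) (hab : a ≠ 0 ∨ b ≠ 0) : Lˣ :=
  Units.mk0 (algebraMap ℂ L a * u + algebraMap ℂ L b) (hu.lin_ne a b hab)

theorem lu_val {u : Lˣ} (hu : NC u) (a b : ℂ) (hab : a ≠ 0 ∨ b ≠ 0) :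
    ((lu hu a b hab : Lˣ) : L) = algebraMap ℂ L a * u + algebraMap ℂ L b := rfl

theorem lu_nc {u : Lˣ} (hu : NC u) {a b : ℂ} (hab : a ≠ 0 ∨ b ≠ 0) (ha : a ≠ 0) :
    NC (lu hu a b hab) := by
  intro c hc
  have h1 := congrArg Units.val hc
  rw [lu_val, cst_val] at h1
  apply hu.ne (((c : ℂ) - b) / a)
  have ha' : algebraMap ℂ L a ≠ 0 := (_root_.map_ne_zero _).2 ha
  rw [map_div₀, map_sub, eq_div_iff ha']
  linear_combination h1

/-- the Möbius transformation `u ↦ (a u + b) / (c u + d)` is determined -/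
def Mob (L : Type) [Field L] [Algebra ℂ L] (H : MvPolynomial (Fin 2) ℂ) (a b c d : ℂ) : Prop :=
  ∀ u : Lˣ, NC u → ∀ v : Lˣ,
    (v : L) * (algebraMap ℂ L c * u + algebraMap ℂ L d) = algebraMap ℂ L a * u + algebraMap ℂ L b →
      v ∈ Cl H {u}

theorem mob_unit {a b c d : ℂ} {u : Lˣ} (hu : NC u) (hdet : a * d - b * c ≠ 0) :
    ∃ v : Lˣ, NC v ∧
      (v : L) * (algebraMap ℂ L c * u + algebraMap ℂ L d) =
        algebraMap ℂ L a * u + algebraMap ℂ L b := by
  have h1 : a ≠ 0 ∨ b ≠ 0 := by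
    by_contra h
    push Not at h
    rw [h.1, h.2] at hdet
    simp at hdet
  have h2 : c ≠ 0 ∨ d ≠ 0 := by
    by_contra h
    push Not at h
    rw [h.1, h.2] at hdet
    simp at hdet
  have h3 := hu.lin_ne c d h2
  refine ⟨lu hu a b h1 / lu hu c d h2, ?_, ?_⟩
  · intro e he
    have h4 := congrArg Units.val he
    rw [Units.val_div_eq_div_val, lu_val, lu_val, cst_val, div_eq_iff h3] at h4
    by_cases h5 : a - e * c = 0
    · have h6 : algebraMap ℂ L (b - e * d) = 0 := by
        have h7 : algebraMap ℂ L a = algebraMap ℂ L e * algebraMap ℂ L c := by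
          rw [← map_mul]
          congr 1
          linear_combination h5
        rw [map_sub, map_mul]
        linear_combination h4 - (u : L) * h7
      rw [map_eq_zero] at h6
      apply hdet
      linear_combination d * h5 - c * h6
    · apply hu.ne ((e * d - b) / (a - e * c))
      have h6 : algebraMap ℂ L (a - e * c) ≠ 0 := (_root_.map_ne_zero _).2 h5
      rw [map_div₀, eq_div_iff h6]
      simp only [map_sub, map_mul]
      linear_combination h4
  · rw [Units.val_div_eq_div_val, lu_val, lu_val, div_mul_cancel₀ _ h3]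

theorem cl_scale (u : Lˣ) (c : ℂˣ) : cst L c * u ∈ Cl H {u} := cl_mul (cl_cst c) (cl_self' u)

theorem cl_unscale {v : Lˣ} {c : ℂˣ} {A : Set Lˣ} (h : cst L c * v ∈ Cl H A) : v ∈ Cl H A := by
  have h1 := cl_mul (cl_cst (H := H) (A := A) c⁻¹) h
  rwa [← mul_assoc, ← cst_mul, inv_mul_cancel, cst_one, one_mul] at h1

/-- from one affine map with nonzero constant term to `u + 1` -/
theorem plus_of_aff {a b : ℂ} (ha : a ≠ 0) (hb : b ≠ 0) (h : Mob L H a b 0 1) : Mob L H 1 1 0 1 := by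
  intro u hu v hv
  simp only [map_one, map_zero, zero_mul, zero_add, mul_one, one_mul] at hv
  let t : ℂˣ := Units.mk0 (b / a) (div_ne_zero hb ha)
  let w : Lˣ := cst L t * u
  have hw : NC w := hu.cst_mul t
  have h1 : cst L (Units.mk0 b hb) * v ∈ Cl H {w} := by
    refine h w hw _ ?_
    have h2 : (w : L) = algebraMap ℂ L (b / a) * u := rfl
    have h3 : ((cst L (Units.mk0 b hb) * v : Lˣ) : L) = algebraMap ℂ L b * v := rfl
    have ha' : algebraMap ℂ L a ≠ 0 := (_root_.map_ne_zero _).2 ha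
    rw [h2, h3, hv, map_zero, map_one, map_div₀]
    field_simp
    ring
  exact cl_trans (cl_scale u t) (cl_unscale h1)

/-- all affine maps -/
theorem aff_all (h : Mob L H 1 1 0 1) (a b : ℂ) (ha : a ≠ 0) : Mob L H a b 0 1 := by
  intro u hu v hv
  simp only [map_one, map_zero, zero_mul, zero_add, mul_one] at hv
  by_cases hb : b = 0
  · subst hb
    have h1 : v = cst L (Units.mk0 a ha) * u := by
      ext
      rw [hv, Units.val_mul, cst_val, map_zero, add_zero]
      rfl
    rw [h1]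
    exact cl_scale u _
  · let t : ℂˣ := Units.mk0 (a / b) (div_ne_zero ha hb)
    let w : Lˣ := cst L t * u
    have hw : NC w := hu.cst_mul t
    have h1 : cst L (Units.mk0 b hb)⁻¹ * v ∈ Cl H {w} := by
      refine h w hw _ ?_
      have h2 : (w : L) = algebraMap ℂ L (a / b) * u := rfl
      have h3 : ((cst L (Units.mk0 b hb)⁻¹ * v : Lˣ) : L) = (algebraMap ℂ L b)⁻¹ * v := by
        rw [cst_inv, Units.val_mul, Units.val_inv_eq_inv_val]
        rfl
      have hb' : algebraMap ℂ L b ≠ 0 := (_root_.map_ne_zero _).2 hb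
      rw [h2, h3, hv, map_zero, map_one, map_div₀]
      field_simp
      ring
    exact cl_trans (cl_scale u t) (cl_unscale h1)

/-- precomposition and postcomposition with the inversion -/
theorem mob_pre_inv {a b c d : ℂ} (h : Mob L H a b c d) : Mob L H b a d c := by
  intro u hu v hv
  have h1 : v ∈ Cl H {u⁻¹} := by
    refine h u⁻¹ hu.inv v ?_
    have h2 : (u : L) ≠ 0 := u.ne_zero
    rw [Units.val_inv_eq_inv_val]
    field_simp
    linear_combination hv
  exact cl_trans (cl_inv (cl_self' u)) h1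

theorem mob_post_inv {a b c d : ℂ} (h : Mob L H a b c d) : Mob L H c d a b := by
  intro u hu v hv
  have h1 : v⁻¹ ∈ Cl H {u} := by
    refine h u hu v⁻¹ ?_
    have h2 : (v : L) ≠ 0 := v.ne_zero
    rw [Units.val_inv_eq_inv_val]
    field_simp
    linear_combination -hv
  have h2 := cl_inv h1
  rwa [inv_inv] at h2

/-- scalings -/
theorem mob_scale {a b c d : ℂ} (h : Mob L H a b c d) (s t : ℂ) (hs : s ≠ 0) (ht : t ≠ 0) :
    Mob L H (s * t * a) (s * b) (t * c) d := by
  intro u hu v hv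
  let w : Lˣ := cst L (Units.mk0 t ht) * u
  have hw : NC w := hu.cst_mul _
  have h1 : cst L (Units.mk0 s hs)⁻¹ * v ∈ Cl H {w} := by
    refine h w hw _ ?_
    have h2 : (w : L) = algebraMap ℂ L t * u := rfl
    have h3 : ((cst L (Units.mk0 s hs)⁻¹ * v : Lˣ) : L) = (algebraMap ℂ L s)⁻¹ * v := by
      rw [cst_inv, Units.val_mul, Units.val_inv_eq_inv_val]
      rfl
    have hs' : algebraMap ℂ L s ≠ 0 := (_root_.map_ne_zero _).2 hs
    simp only [map_mul] at hv
    rw [h2, h3]
    field_simp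
    linear_combination hv
  exact cl_trans (cl_scale u _) (cl_unscale h1)

theorem mob_comp {a b c d a' b' c' d' : ℂ} (hdet : a * d - b * c ≠ 0) (h : Mob L H a b c d)
    (h' : Mob L H a' b' c' d') :
    Mob L H (a' * a + b' * c) (a' * b + b' * d) (c' * a + d' * c) (c' * b + d' * d) := by
  intro u hu v hv
  obtain ⟨w, hw, hw2⟩ := mob_unit hu hdet
  have h1 : w ∈ Cl H {u} := h u hu w hw2
  refine cl_trans h1 (h' w hw v ?_)
  have h2 : c ≠ 0 ∨ d ≠ 0 := by
    by_contra hcon
    push Not at hcon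
    rw [hcon.1, hcon.2] at hdet
    simp at hdet
  have h3 := hu.lin_ne c d h2
  apply mul_right_cancel₀ h3
  simp only [map_add, map_mul] at hv
  linear_combination hv + (v * algebraMap ℂ L c' - algebraMap ℂ L a') * hw2

theorem mob_congr {a b c d a' b' c' d' : ℂ} (h : Mob L H a b c d) (t : ℂ)
    (ha : a = t * a') (hb : b = t * b') (hc : c = t * c') (hd : d = t * d') :
    Mob L H a' b' c' d' := by
  intro u hu v hv
  refine h u hu v ?_
  subst ha hb hc hd
  simp only [map_mul]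
  linear_combination algebraMap ℂ L t * hv

/-- from a Möbius transformation with four nonzero entries to the translations -/
theorem plus_of_kappa {κ : ℂ} (h1 : κ ≠ 1) (h2 : κ ≠ -1) (h : Mob L H 1 1 1 κ) :
    Mob L H 1 1 0 1 := by
  have hdet : (1 : ℂ) * κ - 1 * 1 ≠ 0 := by
    intro h3
    exact h1 (by linear_combination h3)
  have h3 := mob_scale h 1 (-1) one_ne_zero (by norm_num)
  have h4 := mob_comp hdet h h3
  have h5 := mob_post_inv h4
  have h6 : κ - 1 ≠ 0 := sub_ne_zero.2 h1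
  have h7 : Mob L H 1 (κ + 1) 0 1 := by
    refine mob_congr h5 (κ - 1) ?_ ?_ ?_ ?_ <;> ring
  refine plus_of_aff one_ne_zero (fun h8 => h2 ?_) h7
  linear_combination h8

theorem plus_of_mob {a b c d : ℂ} (hdet : a * d - b * c ≠ 0) (h1 : a ≠ 0 ∧ d ≠ 0 ∨ b ≠ 0 ∧ c ≠ 0)
    (h2 : ¬ (b = 0 ∧ c = 0)) (h3 : ¬ (a = 0 ∧ d = 0)) (h : Mob L H a b c d) : Mob L H 1 1 0 1 := by
  have key : ∀ a b d : ℂ, a ≠ 0 → d ≠ 0 → b ≠ 0 → Mob L H a b 0 d → Mob L H 1 1 0 1 := by
    intro a b d ha hd hb h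
    refine plus_of_aff (div_ne_zero ha hd) (div_ne_zero hb hd) ?_
    refine mob_congr h d ?_ ?_ ?_ ?_
    · field_simp
    · field_simp
    · ring
    · ring
  by_cases hc : c = 0
  · subst hc
    have hb : b ≠ 0 := fun hb => h2 ⟨hb, rfl⟩
    have h4 : a ≠ 0 ∧ d ≠ 0 := by
      rcases h1 with h1 | h1
      · exact h1
      · exact absurd rfl h1.2
    exact key a b d h4.1 h4.2 hb h
  by_cases hb : b = 0
  · subst hb
    have h4 : a ≠ 0 ∧ d ≠ 0 := by
      rcases h1 with h1 | h1
      · exact h1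
      · exact absurd rfl h1.1
    have h5 := mob_post_inv (mob_pre_inv h)
    exact key d c a h4.2 h4.1 hc h5
  by_cases ha : a = 0
  · subst ha
    have hd : d ≠ 0 := fun hd => h3 ⟨rfl, hd⟩
    have h5 := mob_post_inv h
    exact key c d b hc hb hd h5
  by_cases hd : d = 0
  · subst hd
    have h5 := mob_pre_inv h
    exact key b a c hb hc ha h5
  -- all entries are nonzero
  have key2 : ∀ a b c d : ℂ, a ≠ 0 → b ≠ 0 → c ≠ 0 → d ≠ 0 → Mob L H a b c d →
      Mob L H 1 1 1 (a * d / (b * c)) := by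
    intro a b c d ha hb hc hd h
    have h5 := mob_scale h b⁻¹ (b / a) (inv_ne_zero hb) (div_ne_zero hb ha)
    -- entries: b⁻¹ * (b/a) * a = 1, 1, (b/a) c, d
    have h6 := mob_scale h5 (b * c / a) 1 (div_ne_zero (mul_ne_zero hb hc) ha) one_ne_zero
    refine mob_congr h6 (b * c / a) ?_ ?_ ?_ ?_ <;>
      field_simp
  have hk := key2 a b c d ha hb hc hd h
  set κ := a * d / (b * c) with hκ
  have hκ1 : κ ≠ 1 := by
    intro h5
    rw [hκ, div_eq_one_iff_eq (mul_ne_zero hb hc)] at h5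
    exact hdet (by linear_combination h5)
  by_cases hκ2 : κ = -1
  · rw [hκ2] at hk
    have h5 := mob_scale hk 1 2 one_ne_zero two_ne_zero
    have hdet2 : (1 : ℂ) * (-1) - 1 * 1 ≠ 0 := by norm_num
    have h6 := mob_comp hdet2 hk h5
    have h7 : Mob L H 3 1 1 3 := by
      refine mob_congr h6 1 ?_ ?_ ?_ ?_ <;> ring
    have h8 := key2 3 1 1 3 (by norm_num) (by norm_num) (by norm_num) (by norm_num) h7
    exact plus_of_kappa (by norm_num) (by norm_num) h8
  · exact plus_of_kappa hκ1 hκ2 hk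

end

end Pool.Agent.Helper60.ZC
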