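import Pool.Agent.Helper60.ZC.A2

/-!
# Part A: from a rational function to the translations
-/

set_option autoImplicit false

namespace Pool.Agent.Helper60.ZC

section

open Polynomial

variable {L : Type} [Field L] [Algebra ℂ L] {H : MvPolynomial (Fin 2) ℂ}

theorem NC.aeval_ne {y : Lˣ} (hy : NC y) {p : ℂ[X]} (hp : p ≠ 0) : aeval (y : L) p ≠ 0 := fun h =>
  hp ((transcendental_iff.1 hy.transc) p h)

/-- the rational function `N / D` is determined -/
def Fwd (L : Type) [Field L] [Algebra ℂ L] (H : MvPolynomial (Fin 2) ℂ) (N D : ℂ[X]) : Prop :=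
  ∀ y : Lˣ, NC y → ∀ v : Lˣ, aeval (y : L) N = (v : L) * aeval (y : L) D → v ∈ Cl H {y}

/-- the norm -/
theorem norm_mem [IsAlgClosed L] {N D : ℂ[X]} (hF : Fwd L H N D) (hcop : IsCoprime N D) {u : Lˣ}
    (hu : NC u) (v : Lˣ)
    (hv : (v : L) * (N.map (algebraMap ℂ L) - C (u : L) * D.map (algebraMap ℂ L)).leadingCoeff =
      algebraMap ℂ L (N.coeff 0) - u * algebraMap ℂ L (D.coeff 0)) : v ∈ Cl H {u} := by
  classical
  set Q := N.map (algebraMap ℂ L) - C (u : L) * D.map (algebraMap ℂ L) with hQ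
  have hval : ∀ y : L, Q.eval y = aeval y N - u * aeval y D := by
    intro y
    rw [hQ, eval_sub, eval_mul, eval_C, eval_map_algebraMap, eval_map_algebraMap]
  have hnc : ∀ c : ℂ, Q.eval (algebraMap ℂ L c) ≠ 0 := by
    intro c hc
    rw [hval, aeval_algebraMap_apply, aeval_algebraMap_apply, coe_aeval_eq_eval] at hc
    have h1 := hu.lin_ne (-(D.eval c)) (N.eval c) (by
      by_contra hcon
      push Not at hcon
      obtain ⟨a, b, hab⟩ := hcop
      have h2 := congrArg (eval c) hab
      rw [eval_add, eval_mul, eval_mul, hcon.2, neg_eq_zero.1 hcon.1] at h2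
      simp at h2)
    apply h1
    rw [map_neg]
    linear_combination hc
  have hroot : ∀ y : L, Q.eval y = 0 → ∃ hy : y ≠ 0, Units.mk0 y hy ∈ Cl H {u} := by
    intro y hy
    have hy0 : y ≠ 0 := by
      rintro rfl
      apply hnc 0
      rw [map_zero]
      exact hy
    refine ⟨hy0, ?_⟩
    have hync : NC (Units.mk0 y hy0) := by
      intro c hc
      have h1 := congrArg Units.val hc
      rw [cst_val] at h1
      apply hnc (c : ℂ)
      rw [← h1]
      exact hy
    have h1 : u ∈ Cl H {Units.mk0 y hy0} := by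
      refine hF _ hync u ?_
      rw [Units.val_mk0, ← sub_eq_zero, ← hval y]
      exact hy
    exact exchange hync hu h1
  have hprod := (IsAlgClosed.splits Q).coeff_zero_eq_leadingCoeff_mul_prod_roots
  have hQ0 : Q.coeff 0 = algebraMap ℂ L (N.coeff 0) - u * algebraMap ℂ L (D.coeff 0) := by
    rw [hQ, coeff_sub, coeff_C_mul, coeff_map, coeff_map]
  have hQne : Q ≠ 0 := by
    intro h
    apply hnc 0
    rw [h, eval_zero]
  have hlc : Q.leadingCoeff ≠ 0 := leadingCoeff_ne_zero.2 hQne
  let s : Multiset Lˣ := Q.roots.map fun y => if hy : y ≠ 0 then Units.mk0 y hy else 1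
  have hs : ∀ x ∈ s, x ∈ Cl H {u} := by
    intro x hx
    obtain ⟨y, hy, rfl⟩ := Multiset.mem_map.1 hx
    have h1 : Q.eval y = 0 := (mem_roots hQne).1 hy
    obtain ⟨hy0, h2⟩ := hroot y h1
    rw [dif_pos hy0]
    exact h2
  have hsp : ((s.prod : Lˣ) : L) = Q.roots.prod := by
    rw [← Units.coeHom_apply, map_multiset_prod, Multiset.map_map]
    congr 1
    conv_rhs => rw [← Multiset.map_id Q.roots]
    refine Multiset.map_congr rfl fun y hy => ?_
    have h1 : Q.eval y = 0 := (mem_roots hQne).1 hy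
    obtain ⟨hy0, h2⟩ := hroot y h1
    simp only [Function.comp_apply, dif_pos hy0, id]
    rfl
  have h3 : v = cst L ((-1) ^ Q.natDegree) * s.prod := by
    ext
    apply mul_right_cancel₀ hlc
    rw [hv, ← hQ0, hprod, Units.val_mul, cst_val, hsp]
    push_cast
    ring
  rw [h3]
  exact cl_mul (cl_cst _) (cl_mprod s hs)

theorem lead_ne_zero {N : ℂ[X]} (h : N.coeff 0 ≠ 0) : N.leadingCoeff ≠ 0 := by
  rw [leadingCoeff_ne_zero]
  rintro rfl
  exact h (coeff_zero 0)

/-- the translations from a rational function of nonzero degree at zero and infinity -/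
theorem plus_of_ne [IsAlgClosed L] {N D : ℂ[X]} (hF : Fwd L H N D) (hcop : IsCoprime N D)
    (hN : N.coeff 0 ≠ 0) (hD : D.coeff 0 ≠ 0) (hdeg : N.natDegree ≠ D.natDegree) :
    Mob L H 1 1 0 1 := by
  have hmob : Mob L H (-(D.coeff 0)) (N.coeff 0) 0 1 := by
    intro u hu v hv
    simp only [map_one, map_zero, zero_mul, zero_add, mul_one, map_neg] at hv
    have hmap : ∀ p : ℂ[X], (p.map (algebraMap ℂ L)).natDegree = p.natDegree := fun p =>
      natDegree_map _
    have hlm : ∀ p : ℂ[X], (p.map (algebraMap ℂ L)).leadingCoeff = algebraMap ℂ L p.leadingCoeff :=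
      fun p => leadingCoeff_map _
    have hDn : (C (u : L) * D.map (algebraMap ℂ L)).natDegree = D.natDegree := by
      rw [natDegree_C_mul u.ne_zero, hmap]
    rcases lt_or_gt_of_ne hdeg with hlt | hlt
    · -- the denominator has larger degree
      have h1 : (N.map (algebraMap ℂ L) - C (u : L) * D.map (algebraMap ℂ L)).leadingCoeff =
          -(u * algebraMap ℂ L D.leadingCoeff) := by
        rw [leadingCoeff_sub_of_degree_lt', leadingCoeff_mul, leadingCoeff_C, hlm]
        apply degree_lt_degree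
        rw [hDn, hmap]
        exact hlt
      let l : ℂˣ := Units.mk0 (-D.leadingCoeff) (neg_ne_zero.2 (lead_ne_zero hD))
      have h2 : v / (cst L l * u) ∈ Cl H {u} := by
        refine norm_mem hF hcop hu _ ?_
        have hl : ((cst L l : Lˣ) : L) = -algebraMap ℂ L D.leadingCoeff := by
          rw [cst_val]
          change algebraMap ℂ L (-D.leadingCoeff) = _
          rw [map_neg]
        have hl0 : algebraMap ℂ L D.leadingCoeff ≠ 0 := (_root_.map_ne_zero _).2 (lead_ne_zero hD)
        have hu0 := u.ne_zero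
        rw [h1, Units.val_div_eq_div_val, Units.val_mul, hl, hv]
        field_simp
        ring
      have h3 := cl_mul h2 (cl_scale u l)
      rwa [div_mul_cancel] at h3
    · have h1 : (N.map (algebraMap ℂ L) - C (u : L) * D.map (algebraMap ℂ L)).leadingCoeff =
          algebraMap ℂ L N.leadingCoeff := by
        rw [leadingCoeff_sub_of_degree_lt, hlm]
        apply degree_lt_degree
        rw [hDn, hmap]
        exact hlt
      let l : ℂˣ := Units.mk0 N.leadingCoeff (lead_ne_zero hN)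
      have h2 : v / cst L l ∈ Cl H {u} := by
        refine norm_mem hF hcop hu _ ?_
        have hl : ((cst L l : Lˣ) : L) = algebraMap ℂ L N.leadingCoeff := rfl
        have hl0 : algebraMap ℂ L N.leadingCoeff ≠ 0 := (_root_.map_ne_zero _).2 (lead_ne_zero hN)
        rw [h1, Units.val_div_eq_div_val, hl, hv, div_mul_cancel₀ _ hl0]
        ring
      have h3 := cl_mul h2 (cl_cst l)
      rwa [div_mul_cancel] at h3
  exact plus_of_aff (neg_ne_zero.2 hD) hN hmob

/-- the translations from a rational function with different values at zero and infinity -/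
theorem plus_of_val [IsAlgClosed L] {N D : ℂ[X]} (hF : Fwd L H N D) (hcop : IsCoprime N D)
    (hN : N.coeff 0 ≠ 0) (hD : D.coeff 0 ≠ 0) (hdeg : N.natDegree = D.natDegree)
    (hne : N.coeff 0 * D.leadingCoeff ≠ N.leadingCoeff * D.coeff 0) :
    Mob L H 1 1 0 1 := by
  have hmob : Mob L H (-(D.coeff 0)) (N.coeff 0) (-D.leadingCoeff) N.leadingCoeff := by
    intro u hu v hv
    refine norm_mem hF hcop hu v ?_
    have h0 := hu.lin_ne (-D.leadingCoeff) N.leadingCoeff (Or.inr (lead_ne_zero hN))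
    have hc : (N.map (algebraMap ℂ L) - C (u : L) * D.map (algebraMap ℂ L)).coeff N.natDegree =
        algebraMap ℂ L (-D.leadingCoeff) * u + algebraMap ℂ L N.leadingCoeff := by
      rw [coeff_sub, coeff_C_mul, coeff_map, coeff_map, coeff_natDegree, hdeg, coeff_natDegree,
        map_neg]
      ring
    have hle : (N.map (algebraMap ℂ L) - C (u : L) * D.map (algebraMap ℂ L)).natDegree ≤
        N.natDegree := by
      refine (natDegree_sub_le _ _).trans (max_le natDegree_map_le ?_)
      exact (natDegree_C_mul_le _ _).trans (natDegree_map_le.trans hdeg.ge)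
    have hnd : (N.map (algebraMap ℂ L) - C (u : L) * D.map (algebraMap ℂ L)).natDegree =
        N.natDegree := natDegree_eq_of_le_of_coeff_ne_zero hle (by rw [hc]; exact h0)
    rw [leadingCoeff, hnd, hc, hv, map_neg]
    ring
  have hlN := lead_ne_zero hN
  have hlD := lead_ne_zero hD
  refine plus_of_mob ?_ (Or.inl ⟨neg_ne_zero.2 hD, hlN⟩) ?_ ?_ hmob
  · intro h
    apply hne
    linear_combination h
  · exact fun h => hN h.1
  · exact fun h => hD (neg_eq_zero.1 h.1)

/-- splitting off the powers of `X` -/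
theorem exists_X_pow {p : ℂ[X]} (hp : p ≠ 0) : ∃ (l : ℕ) (q : ℂ[X]), p = X ^ l * q ∧ q.coeff 0 ≠ 0 := by
  obtain ⟨q, hq, hq2⟩ := exists_eq_pow_rootMultiplicity_mul_and_not_dvd p hp 0
  refine ⟨rootMultiplicity 0 p, q, ?_, ?_⟩
  · rw [C_0, sub_zero] at hq
    exact hq
  · rw [C_0, sub_zero, X_dvd_iff] at hq2
    exact hq2

theorem fwd_of_mul {N D g : ℂ[X]} (h : Fwd L H (g * N) (g * D)) : Fwd L H N D := by
  intro y hy v hv
  refine h y hy v ?_
  rw [map_mul, map_mul, hv]
  ring

theorem fwd_of_X {N D : ℂ[X]} {a b : ℕ} (h : Fwd L H (X ^ a * N) (X ^ b * D)) : Fwd L H N D := by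
  intro y hy v hv
  have h1 : y ^ a * v / y ^ b ∈ Cl H {y} := by
    refine h y hy _ ?_
    have hy0 := y.ne_zero
    rw [map_mul, map_mul, map_pow, map_pow, aeval_X, hv, Units.val_div_eq_div_val, Units.val_mul,
      Units.val_pow_eq_pow_val, Units.val_pow_eq_pow_val]
    field_simp
  have hpow : ∀ n : ℕ, y ^ n ∈ Cl H {y} := by
    intro n
    induction n with
    | zero => rw [pow_zero]; exact cl_one
    | succ n ih => rw [pow_succ]; exact cl_mul ih (cl_self' y)
  have h2 := cl_div (cl_mul h1 (hpow b)) (hpow a)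
  have h3 : y ^ a * v / y ^ b * y ^ b / y ^ a = v := by
    rw [div_mul_cancel, mul_comm, mul_div_cancel_right]
  rwa [h3] at h2

/-- reduced fractions -/
theorem exists_reduced {N D : ℂ[X]} (hN : N ≠ 0) (hD : D ≠ 0) (h : Fwd L H N D) :
    ∃ (a b : ℕ) (g N' D' : ℂ[X]), N = X ^ a * (g * N') ∧ D = X ^ b * (g * D') ∧ g ≠ 0 ∧
      IsCoprime N' D' ∧ N'.coeff 0 ≠ 0 ∧ D'.coeff 0 ≠ 0 ∧ Fwd L H N' D' := by
  classical
  obtain ⟨a, N₁, rfl, hN1⟩ := exists_X_pow hN
  obtain ⟨b, D₁, rfl, hD1⟩ := exists_X_pow hD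
  have hN0 : N₁ ≠ 0 := by rintro rfl; exact hN1 (coeff_zero 0)
  have hD0 : D₁ ≠ 0 := by rintro rfl; exact hD1 (coeff_zero 0)
  let g := EuclideanDomain.gcd N₁ D₁
  have hg : g ≠ 0 := fun hg => hN0 (EuclideanDomain.gcd_eq_zero_iff.1 hg).1
  obtain ⟨N', hN'⟩ := EuclideanDomain.gcd_dvd_left N₁ D₁
  obtain ⟨D', hD'⟩ := EuclideanDomain.gcd_dvd_right N₁ D₁
  change N₁ = g * N' at hN'
  change D₁ = g * D' at hD'
  have hcop : IsCoprime N' D' := by
    obtain ⟨A, B, h1⟩ : ∃ A B, g = N₁ * A + D₁ * B :=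
      ⟨_, _, EuclideanDomain.gcd_eq_gcd_ab N₁ D₁⟩
    refine ⟨A, B, ?_⟩
    apply mul_left_cancel₀ hg
    linear_combination -A * hN' - B * hD' - h1
  refine ⟨a, b, g, N', D', by rw [← hN'], by rw [← hD'], hg, hcop, ?_, ?_, ?_⟩
  · intro h0
    apply hN1
    rw [hN', mul_coeff_zero, h0, mul_zero]
  · intro h0
    apply hD1
    rw [hD', mul_coeff_zero, h0, mul_zero]
  · have h1 := fwd_of_X h
    rw [hN', hD'] at h1
    exact fwd_of_mul h1

end

end Pool.Agent.Helper60.ZC
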