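import Pool.Agent.Helper60.ZC.A3

/-!
# Part A: from any rational function which is not a monomial to the translations
-/

set_option autoImplicit false

namespace Pool.Agent.Helper60.ZC

section

open Polynomial

variable {L : Type} [Field L] [Algebra ℂ L] {H : MvPolynomial (Fin 2) ℂ}

/-- the homogenized composition of `P` with `μ N / D` -/
noncomputable def cmp (e : ℕ) (μ : ℂ) (N D P : ℂ[X]) : ℂ[X] :=
  ∑ i ∈ Finset.range (e + 1), C (P.coeff i * μ ^ i) * (N ^ i * D ^ (e - i))

theorem cmp_aeval {e : ℕ} {μ : ℂ} {N D P : ℂ[X]} (hP : P.natDegree ≤ e) (y : L)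
    (hy : aeval y D ≠ 0) :
    aeval y (cmp e μ N D P) =
      aeval y D ^ e * aeval (algebraMap ℂ L μ * (aeval y N / aeval y D)) P := by
  rw [cmp, map_sum, aeval_eq_sum_range' (Nat.lt_succ_of_le hP), Finset.mul_sum]
  refine Finset.sum_congr rfl fun i hi => ?_
  have hie : i ≤ e := Nat.lt_succ_iff.1 (Finset.mem_range.1 hi)
  have h1 : aeval y D ^ e = aeval y D ^ i * aeval y D ^ (e - i) := by
    rw [← pow_add]
    congr 1
    omega
  rw [map_mul, aeval_C, map_mul, map_mul, map_pow, map_pow, map_pow, Algebra.smul_def, mul_pow,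
    div_pow, h1]
  have h2 : aeval y D ^ i ≠ 0 := pow_ne_zero _ hy
  field_simp

theorem cmp_natDegree_le {e : ℕ} {μ : ℂ} {N D P : ℂ[X]} (hN : N.natDegree ≤ e)
    (hD : D.natDegree ≤ e) : (cmp e μ N D P).natDegree ≤ e * e := by
  refine natDegree_sum_le_of_forall_le _ _ fun i hi => ?_
  have hie : i ≤ e := Nat.lt_succ_iff.1 (Finset.mem_range.1 hi)
  refine (natDegree_C_mul_le _ _).trans (natDegree_mul_le.trans ?_)
  have h1 : (N ^ i).natDegree ≤ i * e := natDegree_pow_le.trans (Nat.mul_le_mul_left _ hN)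
  have h2 : (D ^ (e - i)).natDegree ≤ (e - i) * e := natDegree_pow_le.trans (Nat.mul_le_mul_left _ hD)
  have h3 : i * e + (e - i) * e = e * e := by
    rw [← Nat.add_mul]
    congr 1
    omega
  omega

theorem cmp_coeff {e : ℕ} {μ : ℂ} {N D P : ℂ[X]} (hN : N.natDegree = e) (hD : D.natDegree = e)
    (hN0 : N ≠ 0) (hD0 : D ≠ 0) (hP : P.natDegree ≤ e) :
    (cmp e μ N D P).coeff (e * e) =
      D.leadingCoeff ^ e * P.eval (μ * (N.leadingCoeff / D.leadingCoeff)) := by
  rw [cmp, finsetSum_coeff, eval_eq_sum_range' (Nat.lt_succ_of_le hP), Finset.mul_sum]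
  refine Finset.sum_congr rfl fun i hi => ?_
  have hie : i ≤ e := Nat.lt_succ_iff.1 (Finset.mem_range.1 hi)
  have h3 : i * e + (e - i) * e = e * e := by
    rw [← Nat.add_mul]
    congr 1
    omega
  have h4 : (N ^ i * D ^ (e - i)).natDegree = e * e := by
    rw [natDegree_mul (pow_ne_zero _ hN0) (pow_ne_zero _ hD0), natDegree_pow, natDegree_pow, hN, hD, h3]
  have h5 : (N ^ i * D ^ (e - i)).coeff (e * e) = N.leadingCoeff ^ i * D.leadingCoeff ^ (e - i) := by
    rw [← h4, coeff_natDegree, leadingCoeff_mul, leadingCoeff_pow, leadingCoeff_pow]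
  have h6 : D.leadingCoeff ≠ 0 := leadingCoeff_ne_zero.2 hD0
  have h7 : D.leadingCoeff ^ e = D.leadingCoeff ^ i * D.leadingCoeff ^ (e - i) := by
    rw [← pow_add]
    congr 1
    omega
  rw [coeff_C_mul, h5, h7, mul_pow, div_pow]
  have h8 : D.leadingCoeff ^ i ≠ 0 := pow_ne_zero _ h6
  field_simp

/-- the translations from a rational function with equal nonzero values at zero and infinity -/
theorem plus_of_eq [IsAlgClosed L] {N D : ℂ[X]} (hF : Fwd L H N D) (hcop : IsCoprime N D)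
    (hN : N.coeff 0 ≠ 0) (hD : D.coeff 0 ≠ 0) (hdeg : N.natDegree = D.natDegree)
    (he : N.natDegree ≠ 0) (heq : N.coeff 0 * D.leadingCoeff = N.leadingCoeff * D.coeff 0) :
    Mob L H 1 1 0 1 := by
  by_cases hex : ∃ y : Lˣ, NC y
  swap
  · intro u hu
    exact absurd ⟨u, hu⟩ hex
  obtain ⟨y₀, hy₀⟩ := hex
  have hlN := lead_ne_zero hN
  have hlD := lead_ne_zero hD
  have hN0 : N ≠ 0 := leadingCoeff_ne_zero.1 hlN
  have hD0 : D ≠ 0 := leadingCoeff_ne_zero.1 hlD
  obtain ⟨r, hr⟩ := IsAlgClosed.exists_root N (by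
    rw [degree_eq_natDegree hN0]
    exact_mod_cast he)
  have hr : N.eval r = 0 := hr
  have hr0 : r ≠ 0 := by
    rintro rfl
    rw [← coeff_zero_eq_eval_zero] at hr
    exact hN hr
  have hDr : D.eval r ≠ 0 := by
    intro h
    obtain ⟨a, b, hab⟩ := hcop
    have h2 := congrArg (eval r) hab
    rw [eval_add, eval_mul, eval_mul, hr, h] at h2
    simp at h2
  set e := N.natDegree with hedef
  set μ : ℂ := r * D.leadingCoeff / N.leadingCoeff with hμ
  have hμ0 : μ ≠ 0 := div_ne_zero (mul_ne_zero hr0 hlD) hlN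
  have hμr : μ * (N.leadingCoeff / D.leadingCoeff) = r := by
    rw [hμ]
    field_simp
  have hμr' : μ * (N.coeff 0 / D.coeff 0) = r := by
    rw [← hμr]
    congr 1
    rw [div_eq_div_iff hD hlD]
    exact heq
  let A := cmp e μ N D N
  let B := cmp e μ N D D
  have h0 : ∀ P : ℂ[X], P.natDegree ≤ e → (cmp e μ N D P).coeff 0 = D.coeff 0 ^ e * P.eval r := by
    intro P hP
    have hD0' : aeval (0 : ℂ) D ≠ 0 := by
      rw [coe_aeval_eq_eval, ← coeff_zero_eq_eval_zero]
      exact hD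
    have h1 := cmp_aeval (L := ℂ) (μ := μ) (N := N) hP 0 hD0'
    simp only [coe_aeval_eq_eval, ← coeff_zero_eq_eval_zero, Algebra.algebraMap_self,
      RingHom.id_apply, hμr'] at h1
    exact h1
  have hA0 : A.coeff 0 = 0 := by rw [h0 N le_rfl, hr, mul_zero]
  have hB0 : B.coeff 0 ≠ 0 := by
    rw [h0 D hdeg.ge]
    exact mul_ne_zero (pow_ne_zero _ hD) hDr
  have hAe : A.coeff (e * e) = 0 := by
    rw [cmp_coeff rfl hdeg.symm hN0 hD0 le_rfl, hμr, hr, mul_zero]
  have hBe : B.coeff (e * e) ≠ 0 := by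
    rw [cmp_coeff rfl hdeg.symm hN0 hD0 hdeg.ge, hμr]
    exact mul_ne_zero (pow_ne_zero _ hlD) hDr
  have hBd : B.natDegree = e * e :=
    natDegree_eq_of_le_of_coeff_ne_zero (cmp_natDegree_le le_rfl hdeg.ge) hBe
  have hB : B ≠ 0 := by
    intro h
    rw [h, coeff_zero] at hB0
    exact hB0 rfl
  have hlink : ∀ y : Lˣ, NC y → ∃ w : Lˣ, NC w ∧ w ∈ Cl H {y} ∧ ∀ P : ℂ[X], P.natDegree ≤ e →
      aeval (y : L) (cmp e μ N D P) = aeval (y : L) D ^ e * aeval (w : L) P := by
    intro y hy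
    have hNy := hy.aeval_ne hN0
    have hDy := hy.aeval_ne hD0
    let t : Lˣ := Units.mk0 _ hNy / Units.mk0 _ hDy
    have ht : (t : L) = aeval (y : L) N / aeval (y : L) D := by
      rw [Units.val_div_eq_div_val]
      rfl
    have htc : t ∈ Cl H {y} := by
      refine hF y hy t ?_
      rw [ht, div_mul_cancel₀ _ hDy]
    have htn : NC t := by
      intro c hc
      have h1 := congrArg Units.val hc
      rw [ht, cst_val, div_eq_iff hDy] at h1
      have h2 : N = C (c : ℂ) * D := by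
        by_contra hne
        apply hy.aeval_ne (sub_ne_zero.2 hne)
        rw [map_sub, map_mul, aeval_C, h1, sub_self]
      have h3 : IsCoprime D D := by
        obtain ⟨a, b, hab⟩ := hcop
        refine ⟨a * C (c : ℂ), b, ?_⟩
        rw [h2] at hab
        rw [← hab]
        ring
      have h4 := isCoprime_self.1 h3
      apply he
      rw [hdeg]
      exact natDegree_eq_zero_of_isUnit h4
    refine ⟨cst L (Units.mk0 μ hμ0) * t, htn.cst_mul _, cl_mul (cl_cst _) htc, fun P hP => ?_⟩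
    rw [cmp_aeval hP _ hDy, Units.val_mul, ht]
    rfl
  have hAB : Fwd L H A B := by
    intro y hy v hv
    obtain ⟨w, hw, hwc, hwP⟩ := hlink y hy
    refine cl_trans hwc (hF w hw v ?_)
    have hDy : aeval (y : L) D ^ e ≠ 0 := pow_ne_zero _ (hy.aeval_ne hD0)
    apply mul_left_cancel₀ hDy
    rw [← hwP N le_rfl]
    have h1 := hwP D hdeg.ge
    change aeval (y : L) A = _
    rw [hv]
    change (v : L) * aeval (y : L) (cmp e μ N D D) = _
    rw [h1]
    ring
  have hA : A ≠ 0 := by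
    intro h
    obtain ⟨w, hw, hwc, hwP⟩ := hlink y₀ hy₀
    have h1 := hwP N le_rfl
    change aeval (y₀ : L) A = _ at h1
    rw [h, map_zero] at h1
    exact mul_ne_zero (pow_ne_zero _ (hy₀.aeval_ne hD0)) (hw.aeval_ne hN0) h1.symm
  have hAd : A.natDegree < e * e := by
    refine lt_of_le_of_ne (cmp_natDegree_le le_rfl hdeg.ge) fun h => ?_
    apply leadingCoeff_ne_zero.2 hA
    rw [leadingCoeff, h]
    exact hAe
  obtain ⟨a, b, g, N', D', h1, h2, h3, h4, h5, h6, h7⟩ := exists_reduced hA hB hAB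
  refine plus_of_ne h7 h4 h5 h6 (ne_of_lt ?_)
  have hN'0 : N' ≠ 0 := by rintro rfl; exact h5 (coeff_zero 0)
  have hD'0 : D' ≠ 0 := by rintro rfl; exact h6 (coeff_zero 0)
  have hb : b = 0 := by
    by_contra hb
    apply hB0
    rw [h2, mul_coeff_zero, coeff_X_pow, if_neg (Ne.symm hb), zero_mul]
  have h8 : A.natDegree = a + (g.natDegree + N'.natDegree) := by
    rw [h1, natDegree_mul (pow_ne_zero _ X_ne_zero) (mul_ne_zero h3 hN'0), natDegree_X_pow,
      natDegree_mul h3 hN'0]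
  have h9 : B.natDegree = b + (g.natDegree + D'.natDegree) := by
    rw [h2, natDegree_mul (pow_ne_zero _ X_ne_zero) (mul_ne_zero h3 hD'0), natDegree_X_pow,
      natDegree_mul h3 hD'0]
  omega

/-- **the translations** -/
theorem plus_of_fwd [IsAlgClosed L] {N D : ℂ[X]} (hN : N ≠ 0) (hD : D ≠ 0) (hF : Fwd L H N D)
    (hnb : ¬ ∃ (c : ℂ) (m : ℕ), N = C c * X ^ m * D ∨ D = C c * X ^ m * N) :
    Mob L H 1 1 0 1 := by
  obtain ⟨a, b, g, N', D', h1, h2, h3, h4, h5, h6, h7⟩ := exists_reduced hN hD hF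
  by_cases hdeg : N'.natDegree = D'.natDegree
  swap
  · exact plus_of_ne h7 h4 h5 h6 hdeg
  by_cases he : N'.natDegree = 0
  · exfalso
    apply hnb
    have h8 := eq_C_of_natDegree_eq_zero he
    have h9 := eq_C_of_natDegree_eq_zero (hdeg ▸ he)
    set n := N'.coeff 0
    set d := D'.coeff 0
    rcases le_total a b with hab | hab
    · refine ⟨d / n, b - a, Or.inr ?_⟩
      have h10 : X ^ b = X ^ (b - a) * (X ^ a : ℂ[X]) := by
        rw [← pow_add]
        congr 1
        omega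
      have h11 : (C d : ℂ[X]) = C (d / n) * C n := by
        rw [← C_mul, div_mul_cancel₀ _ h5]
      rw [h2, h1, h8, h9, h10, h11]
      ring
    · refine ⟨n / d, a - b, Or.inl ?_⟩
      have h10 : X ^ a = X ^ (a - b) * (X ^ b : ℂ[X]) := by
        rw [← pow_add]
        congr 1
        omega
      have h11 : (C n : ℂ[X]) = C (n / d) * C d := by
        rw [← C_mul, div_mul_cancel₀ _ h6]
      rw [h2, h1, h8, h9, h10, h11]
      ring
  · by_cases heq : N'.coeff 0 * D'.leadingCoeff = N'.leadingCoeff * D'.coeff 0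
    · exact plus_of_eq h7 h4 h5 h6 hdeg he heq
    · exact plus_of_val h7 h4 h5 h6 hdeg heq

end

end Pool.Agent.Helper60.ZC
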