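import Pool.Agent.Helper60.ZC.A4

/-!
# Part A: the product of the roots
-/

set_option autoImplicit false

namespace Pool.Agent.Helper60.ZC

section

open Polynomial

/-- the polynomial `F = ∑ a_i(y) x ^ i` (outer variable `x`, inner variable `y`) as a polynomial in two
variables, `x` with index `0`, `y` with index `1` -/
noncomputable def toH (F : ℂ[X][X]) : MvPolynomial (Fin 2) ℂ :=
  F.eval₂ ((aeval (MvPolynomial.X 1) : ℂ[X] →ₐ[ℂ] MvPolynomial (Fin 2) ℂ) : ℂ[X] →+* _)
    (MvPolynomial.X 0)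

/-- the lowest and the highest coefficient with respect to `x` are proportional up to a power of `y` -/
def Balanced (F : ℂ[X][X]) : Prop :=
  ∃ (c : ℂ) (m : ℕ), F.coeff 0 = C c * X ^ m * F.leadingCoeff ∨
    F.leadingCoeff = C c * X ^ m * F.coeff 0

/-- the polynomial in `x` for a given value of `y` -/
noncomputable def py {L : Type} [Field L] [Algebra ℂ L] (F : ℂ[X][X]) (y : L) : L[X] :=
  F.map ((aeval y : ℂ[X] →ₐ[ℂ] L) : ℂ[X] →+* L)

theorem hv_toH {L : Type} [Field L] [Algebra ℂ L] (F : ℂ[X][X]) (x y : L) :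
    hv (toH F) x y = (py F y).eval x := by
  rw [hv, toH, py, eval_map]
  have h1 := Polynomial.hom_eval₂ F
    ((aeval (MvPolynomial.X 1) : ℂ[X] →ₐ[ℂ] MvPolynomial (Fin 2) ℂ) : ℂ[X] →+* _)
    ((MvPolynomial.aeval ![x, y] : MvPolynomial (Fin 2) ℂ →ₐ[ℂ] L) : MvPolynomial (Fin 2) ℂ →+* L)
    (MvPolynomial.X 0)
  rw [RingHom.coe_coe] at h1
  rw [h1]
  have h2 : ((MvPolynomial.aeval ![x, y] : MvPolynomial (Fin 2) ℂ →ₐ[ℂ] L) :
      MvPolynomial (Fin 2) ℂ →+* L).comp
      ((aeval (MvPolynomial.X 1) : ℂ[X] →ₐ[ℂ] MvPolynomial (Fin 2) ℂ) : ℂ[X] →+* _) =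
      ((aeval y : ℂ[X] →ₐ[ℂ] L) : ℂ[X] →+* L) := by
    have h3 : (MvPolynomial.aeval ![x, y] : MvPolynomial (Fin 2) ℂ →ₐ[ℂ] L).comp
        (aeval (MvPolynomial.X 1) : ℂ[X] →ₐ[ℂ] MvPolynomial (Fin 2) ℂ) =
        (aeval y : ℂ[X] →ₐ[ℂ] L) := by
      refine Polynomial.algHom_ext ?_
      rw [AlgHom.comp_apply, aeval_X, MvPolynomial.aeval_X, aeval_X]
      rfl
    rw [← h3]
    rfl
  rw [h2, MvPolynomial.aeval_X]
  rfl

theorem toH_monomial (n : ℕ) (c : ℂ[X]) :
    toH (monomial n c) = aeval (MvPolynomial.X 1) c * MvPolynomial.X 0 ^ n := by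
  rw [toH, eval₂_monomial]
  rfl

theorem toH_add (F G : ℂ[X][X]) : toH (F + G) = toH F + toH G := eval₂_add _ _

theorem pderiv_toH (F : ℂ[X][X]) : MvPolynomial.pderiv 0 (toH F) = toH (derivative F) := by
  induction F using Polynomial.induction_on' with
  | add p q hp hq => rw [toH_add, map_add, hp, hq, derivative_add, toH_add]
  | monomial n c =>
    rw [derivative_monomial, toH_monomial, toH_monomial]
    have h1 : MvPolynomial.pderiv (R := ℂ) (0 : Fin 2)
        (aeval (MvPolynomial.X 1 : MvPolynomial (Fin 2) ℂ) c) = 0 := by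
      rw [Derivation.map_aeval, MvPolynomial.pderiv_X_of_ne (by decide), smul_zero]
    rw [Derivation.leibniz, h1, smul_zero, add_zero, Derivation.leibniz_pow,
      MvPolynomial.pderiv_X_self, map_mul, map_natCast]
    simp only [smul_eq_mul, nsmul_eq_mul]
    ring

variable {L : Type} [Field L] [Algebra ℂ L]

theorem hv_pderiv (F : ℂ[X][X]) (x y : L) :
    hv (MvPolynomial.pderiv 0 (toH F)) x y = (derivative (py F y)).eval x := by
  rw [pderiv_toH, hv_toH, py, py, derivative_map]

theorem py_separable {F : ℂ[X][X]} (hF : Irreducible F) (hd : F.natDegree ≠ 0) {y : Lˣ}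
    (hy : NC y) : (py F (y : L)).Separable := by
  have hprim : F.IsPrimitive := hF.isPrimitive hd
  have h1 : Irreducible (F.map (algebraMap ℂ[X] (FractionRing ℂ[X]))) :=
    (hprim.irreducible_iff_irreducible_map_fraction_map).1 hF
  have h2 : (F.map (algebraMap ℂ[X] (FractionRing ℂ[X]))).Separable := h1.separable
  have hinj : Function.Injective ((aeval (y : L) : ℂ[X] →ₐ[ℂ] L) : ℂ[X] →+* L) := by
    rw [injective_iff_map_eq_zero]
    intro p hp
    by_contra h
    exact hy.aeval_ne h hp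
  let f : FractionRing ℂ[X] →+* L := IsFractionRing.lift hinj
  have h3 : py F (y : L) = (F.map (algebraMap ℂ[X] (FractionRing ℂ[X]))).map f := by
    rw [Polynomial.map_map, py]
    congr 1
    refine RingHom.ext fun p => ?_
    rw [RingHom.comp_apply, IsFractionRing.lift_algebraMap]
  rw [h3]
  exact h2.map

/-- the roots are determined -/
theorem root_mem {F : ℂ[X][X]} (hF : Irreducible F) (hd : F.natDegree ≠ 0) {x y : Lˣ}
    (hy : NC y) (h : (py F (y : L)).eval (x : L) = 0) : x ∈ Cl (toH F) {y} := by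
  classical
  refine ⟨{x, y}, ⟨{(x, y)}, fun p hp => ?_, fun D hD hA z hz => ?_⟩, by simp⟩
  · rw [Finset.mem_singleton.1 hp]
    refine ⟨?_, by simp, by simp⟩
    rw [hv_toH]
    exact h
  · have hDy : D.f y = 0 := hA y rfl
    rcases Finset.mem_insert.1 hz with rfl | hz
    · have h1 : Lin (toH F) D (z, y) := hD _ (Finset.mem_singleton_self _)
      rw [Lin] at h1
      simp only [hDy, mul_zero, add_zero] at h1
      rcases mul_eq_zero.1 h1 with h2 | h2
      · exfalso
        rcases mul_eq_zero.1 h2 with h3 | h3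
        · exact z.ne_zero h3
        · rw [hv_pderiv] at h3
          have h4 := (py_separable hF hd hy).eval₂_derivative_ne_zero (RingHom.id L)
            (x := (z : L)) (by rw [eval₂_id]; exact h)
          rw [eval₂_id] at h4
          exact h4 h3
      · exact h2
    · rw [Finset.mem_singleton.1 hz]
      exact hDy

/-- the product of the roots is determined -/
theorem fwd_roots [IsAlgClosed L] {F : ℂ[X][X]} (hF : Irreducible F) (hd : F.natDegree ≠ 0)
    (h0 : F.coeff 0 ≠ 0) : Fwd L (toH F) (C ((-1) ^ F.natDegree) * F.coeff 0) F.leadingCoeff := by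
  classical
  intro y hy v hv
  have hl : F.leadingCoeff ≠ 0 := leadingCoeff_ne_zero.2 hF.ne_zero
  have hly := hy.aeval_ne hl
  have h0y := hy.aeval_ne h0
  have hnd : (py F (y : L)).natDegree = F.natDegree := by
    rw [py]
    exact natDegree_map_of_leadingCoeff_ne_zero _ hly
  have hlc : (py F (y : L)).leadingCoeff = aeval (y : L) F.leadingCoeff := by
    rw [py]
    exact leadingCoeff_map_of_leadingCoeff_ne_zero _ hly
  have hc0 : (py F (y : L)).coeff 0 = aeval (y : L) (F.coeff 0) := by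
    rw [py, coeff_map]
    rfl
  have hne : py F (y : L) ≠ 0 := by
    intro h
    rw [h, leadingCoeff_zero] at hlc
    exact hly hlc.symm
  have hprod := (IsAlgClosed.splits (py F (y : L))).coeff_zero_eq_leadingCoeff_mul_prod_roots
  rw [hc0, hlc, hnd] at hprod
  have hroot : ∀ x : L, (py F (y : L)).eval x = 0 →
      ∃ hx : x ≠ 0, Units.mk0 x hx ∈ Cl (toH F) {y} := by
    intro x hx
    have hx0 : x ≠ 0 := by
      rintro rfl
      rw [← coeff_zero_eq_eval_zero, hc0] at hx
      exact h0y hx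
    exact ⟨hx0, root_mem hF hd hy hx⟩
  let s : Multiset Lˣ := (py F (y : L)).roots.map fun x => if hx : x ≠ 0 then Units.mk0 x hx else 1
  have hs : ∀ x ∈ s, x ∈ Cl (toH F) {y} := by
    intro x hx
    obtain ⟨z, hz, rfl⟩ := Multiset.mem_map.1 hx
    have h1 : (py F (y : L)).eval z = 0 := (mem_roots hne).1 hz
    obtain ⟨hz0, h2⟩ := hroot z h1
    rw [dif_pos hz0]
    exact h2
  have hsp : ((s.prod : Lˣ) : L) = (py F (y : L)).roots.prod := by
    rw [← Units.coeHom_apply, map_multiset_prod, Multiset.map_map]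
    congr 1
    conv_rhs => rw [← Multiset.map_id (py F (y : L)).roots]
    refine Multiset.map_congr rfl fun z hz => ?_
    have h1 : (py F (y : L)).eval z = 0 := (mem_roots hne).1 hz
    obtain ⟨hz0, h2⟩ := hroot z h1
    simp only [Function.comp_apply, dif_pos hz0, id]
    rfl
  have h3 : v = s.prod := by
    ext
    apply mul_right_cancel₀ hly
    rw [← hv, map_mul, aeval_C, hsp, hprod]
    have h5 : ((-1 : L) ^ F.natDegree) * (-1) ^ F.natDegree = 1 := by
      rw [← mul_pow]
      simp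
    rw [map_pow, map_neg, map_one]
    linear_combination (aeval (y : L) F.leadingCoeff * (py F (y : L)).roots.prod) * h5
  rw [h3]
  exact cl_mprod s hs

/-- **the translations from an unbalanced curve** -/
theorem t_plus [IsAlgClosed L] {F : ℂ[X][X]} (hF : Irreducible F) (hb : ¬ Balanced F) :
    Mob L (toH F) 1 1 0 1 := by
  have h0 : F.coeff 0 ≠ 0 := by
    intro h
    exact hb ⟨0, 0, Or.inl (by rw [h]; simp)⟩
  have hd : F.natDegree ≠ 0 := by
    intro h
    refine hb ⟨1, 0, Or.inl ?_⟩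
    rw [leadingCoeff, h]
    simp
  have hl : F.leadingCoeff ≠ 0 := leadingCoeff_ne_zero.2 hF.ne_zero
  have h1 : ((-1 : ℂ) ^ F.natDegree) * (-1) ^ F.natDegree = 1 := by
    rw [← mul_pow]
    simp
  have h2 : (C ((-1 : ℂ) ^ F.natDegree) : ℂ[X]) * C ((-1) ^ F.natDegree) = 1 := by
    rw [← C_mul, h1, C_1]
  refine plus_of_fwd (N := C ((-1) ^ F.natDegree) * F.coeff 0) (D := F.leadingCoeff)
    (mul_ne_zero (C_ne_zero.2 (pow_ne_zero _ (by norm_num))) h0) hl (fwd_roots hF hd h0) ?_
  rintro ⟨c, m, h | h⟩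
  · refine hb ⟨(-1) ^ F.natDegree * c, m, Or.inl ?_⟩
    rw [C_mul]
    linear_combination (C ((-1 : ℂ) ^ F.natDegree)) * h - F.coeff 0 * h2
  · refine hb ⟨c * (-1) ^ F.natDegree, m, Or.inr ?_⟩
    rw [C_mul]
    linear_combination h

end

end Pool.Agent.Helper60.ZC
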