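import Pool.Agent.Helper60.ZC.A6

/-!
# Part A: the encoding
-/

set_option autoImplicit false

namespace Pool.Agent.Helper60.ZC

open Pool.Agent.R948

section

variable (L : Type) [Field L] [Algebra ℂ L]

/-- the group of the constants -/
def csub : Subgroup Lˣ := (Units.map (algebraMap ℂ L : ℂ →* L)).range

/-- the units modulo constants -/
def Q : Type := Additive (Lˣ ⧸ csub L)

instance : AddCommGroup (Q L) := inferInstanceAs (AddCommGroup (Additive (Lˣ ⧸ csub L)))

variable {L}

/-- the class of a unit -/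
def cl (x : Lˣ) : Q L := Additive.ofMul (QuotientGroup.mk x)

theorem cl_mul' (x y : Lˣ) : cl (x * y) = cl x + cl y := rfl

theorem cl_one' : cl (1 : Lˣ) = 0 := rfl

theorem cl_pow' (x : Lˣ) (n : ℕ) : cl (x ^ n) = n • cl x := rfl

theorem cl_zpow' (x : Lˣ) (n : ℤ) : cl (x ^ n) = n • cl x := rfl

theorem cl_surj (q : Q L) : ∃ x : Lˣ, cl x = q := by
  obtain ⟨x, hx⟩ := QuotientGroup.mk_surjective (Additive.toMul q)
  exact ⟨x, congrArg Additive.ofMul hx⟩

theorem cl_eq {x y : Lˣ} : cl x = cl y ↔ ∃ c : ℂˣ, y = cst L c * x := by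
  have h1 : cl x = cl y ↔ (QuotientGroup.mk x : Lˣ ⧸ csub L) = QuotientGroup.mk y := Iff.rfl
  rw [h1, QuotientGroup.eq]
  constructor
  · rintro ⟨c, hc⟩
    refine ⟨c, ?_⟩
    have h2 : cst L c = x⁻¹ * y := hc
    rw [h2, mul_comm x⁻¹ y, inv_mul_cancel_right]
  · rintro ⟨c, hc⟩
    refine ⟨c, ?_⟩
    rw [hc, mul_comm (cst L c) x, inv_mul_cancel_left]
    rfl

theorem cl_eq_zero {x : Lˣ} : cl x = 0 ↔ ∃ c : ℂˣ, x = cst L c := by
  rw [← cl_one', eq_comm, cl_eq]
  simp only [mul_one]

theorem cl_mon {V : Type} [Fintype V] (u : V → Lˣ) (a : V → ℤ) :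
    cl (mon u a) = ∑ v, a v • cl (u v) := by
  classical
  have h : ∀ s : Finset V, cl (∏ v ∈ s, u v ^ a v) = ∑ v ∈ s, a v • cl (u v) := by
    intro s
    induction s using Finset.induction_on with
    | empty => simp [cl_one']
    | insert v s hv ih => rw [Finset.prod_insert hv, Finset.sum_insert hv, cl_mul', ih, cl_zpow']
  exact h _

instance : Module.IsTorsionFree ℤ (Q L) := by
  rw [Module.isTorsionFree_iff_smul_eq_zero]
  intro n q h
  by_cases hn : n = 0
  · exact Or.inl hn
  refine Or.inr ?_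
  obtain ⟨x, rfl⟩ := cl_surj q
  rw [← cl_zpow', cl_eq_zero] at h
  obtain ⟨c, hc⟩ := h
  have h1 : ∃ c : ℂˣ, x = cst L c := by
    by_contra h2
    push Not at h2
    have h3 : Transcendental ℂ (x : L) := NC.transc h2
    apply h3
    obtain ⟨m, hm⟩ := Int.eq_nat_or_neg n
    have hm0 : 0 < m := by omega
    have h4 : IsAlgebraic ℂ ((x : L) ^ m) := by
      rcases hm with rfl | rfl
      · have h6 : ((x ^ (m : ℤ) : Lˣ) : L) = (x : L) ^ m := by simp
        rw [← h6, hc, cst_val]
        exact isAlgebraic_algebraMap _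
      · have h6 : (((x ^ (-(m : ℤ)))⁻¹ : Lˣ) : L) = (x : L) ^ m := by
          rw [← zpow_neg]
          simp
        rw [← h6, hc, ← cst_inv, cst_val]
        exact isAlgebraic_algebraMap _
    exact IsAlgebraic.of_pow hm0 h4
  exact cl_eq_zero.2 h1

/-- extension of homomorphisms -/
theorem exists_ld {V : Type} [Fintype V] (u : V → Lˣ)
    (hu : ∀ (a : V → ℤ) (z : ℂˣ), mon u a = cst L z → a = 0) (δ : V → L) :
    ∃ D : LD L, ∀ v, D.f (u v) = δ v := by
  classical
  have : CharZero L := charZero_of_injective_algebraMap (algebraMap ℂ L).injective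
  let f : (V → ℤ) →+ Q L :=
    { toFun := fun a => ∑ v, a v • cl (u v)
      map_zero' := by simp
      map_add' := fun a b => by simp [add_smul, Finset.sum_add_distrib] }
  let g : (V → ℤ) →+ L :=
    { toFun := fun a => ∑ v, (a v : L) * δ v
      map_zero' := by simp
      map_add' := fun a b => by simp [add_mul, Finset.sum_add_distrib] }
  have hf : Function.Injective f := by
    rw [injective_iff_map_eq_zero]
    intro a ha
    have h1 : cl (mon u a) = 0 := by rw [cl_mon]; exact ha
    obtain ⟨c, hc⟩ := cl_eq_zero.1 h1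
    exact hu a c hc
  let _ : DivisibleBy L ℤ :=
    { div := fun x n => x / n
      div_zero := fun x => by simp
      div_cancel := fun {n} x hn => by
        have h1 : (n : L) ≠ 0 := Int.cast_ne_zero.2 hn
        rw [zsmul_eq_mul, mul_div_cancel₀ _ h1] }
  obtain ⟨h, hh⟩ := (Module.Baer.of_divisible L).extension_property_addMonoidHom f hf g
  refine ⟨⟨fun x => h (cl x), fun x y => by rw [cl_mul', map_add], fun c => ?_⟩, fun v => ?_⟩
  · rw [cl_eq_zero.2 ⟨c, rfl⟩, map_zero]
  · change h (cl (u v)) = δ v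
    have h1 := congrArg (fun k : (V → ℤ) →+ L => k (Pi.single v 1)) hh
    have h2 : f (Pi.single v 1) = cl (u v) := by
      change ∑ w, (Pi.single v 1 : V → ℤ) w • cl (u w) = _
      rw [Finset.sum_eq_single v]
      · simp
      · intro w _ hw
        rw [Pi.single_eq_of_ne hw, zero_smul]
      · intro h; exact absurd (Finset.mem_univ v) h
    have h3 : g (Pi.single v 1) = δ v := by
      change ∑ w, (((Pi.single v 1 : V → ℤ) w : ℤ) : L) * δ w = _
      rw [Finset.sum_eq_single v]
      · simp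
      · intro w _ hw
        rw [Pi.single_eq_of_ne hw, Int.cast_zero, zero_mul]
      · intro h; exact absurd (Finset.mem_univ v) h
    rw [← h2, ← h3]
    exact h1

theorem LD.f_mon (D : LD L) {V : Type} [Fintype V] (u : V → Lˣ) (c : ℂˣ) (a : V → ℤ) :
    D.f (cst L c * mon u a) = ∑ v, (a v : L) * D.f (u v) := by
  rw [D.mul', D.cst', zero_add, mon, D.prod]
  exact Finset.sum_congr rfl fun v _ => D.zpow _ _

/-- **the encoding** -/
theorem t_enc {H : MvPolynomial (Fin 2) ℂ}
    (hpl : ∀ (L : Type) [Field L] [Algebra ℂ L] [IsAlgClosed L], Mob L H 1 1 0 1) : Enc H := by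
  classical
  intro L _ _ _ n w I hw
  let A : Set Lˣ := w '' (I : Set (Fin n))
  have hcl : ∀ i, w i ∈ Cl H A := by
    intro i
    refine cl_of_alg (hpl L) A (w i) ?_
    have h1 : (fun x : Lˣ => (x : L)) '' A = (fun j => (w j : L)) '' (I : Set (Fin n)) := by
      rw [Set.image_image]
    rw [h1]
    exact hw i
  obtain ⟨s, ⟨G, hG1, hG2⟩, hws⟩ := exists_det (Finset.univ.image w) (by
    intro x hx
    obtain ⟨i, -, rfl⟩ := Finset.mem_image.1 hx
    exact hcl i)
  have hw' : ∀ i, w i ∈ s := fun i => hws (Finset.mem_image_of_mem _ (Finset.mem_univ i))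
  let P : Submodule ℤ (Q L) := Submodule.span ℤ ((s.image cl : Finset (Q L)) : Set (Q L))
  have hfin : Module.Finite ℤ P := Module.Finite.span_finset ℤ (s.image cl)
  have hfree : Module.Free ℤ P := inferInstance
  let b := Module.Free.chooseBasis ℤ P
  let V := Module.Free.ChooseBasisIndex ℤ P
  have hu0 : ∀ v : V, ∃ x : Lˣ, cl x = (b v : Q L) := fun v => cl_surj _
  choose u hu using hu0
  have hmem : ∀ x ∈ s, cl x ∈ P := fun x hx =>
    Submodule.subset_span (by simpa using ⟨x, hx, rfl⟩)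
  let η : Lˣ → V → ℤ := fun x => if hx : x ∈ s then fun v => b.repr ⟨cl x, hmem x hx⟩ v else 0
  have hη : ∀ x ∈ s, cl (mon u (η x)) = cl x := by
    intro x hx
    rw [cl_mon]
    have h1 : η x = fun v => b.repr ⟨cl x, hmem x hx⟩ v := dif_pos hx
    have h2 := b.sum_repr ⟨cl x, hmem x hx⟩
    have h3 := congrArg (Subtype.val) h2
    rw [AddSubmonoidClass.coe_finsetSum] at h3
    rw [h1]
    refine Eq.trans (Finset.sum_congr rfl fun v _ => ?_) h3
    rw [hu v]
    rfl
  have hc0 : ∀ x : Lˣ, ∃ c : ℂˣ, x ∈ s → x = cst L c * mon u (η x) := by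
    intro x
    by_cases hx : x ∈ s
    · obtain ⟨c, hc⟩ := cl_eq.1 (hη x hx)
      exact ⟨c, fun _ => hc⟩
    · exact ⟨1, fun h => absurd h hx⟩
  choose c hc using hc0
  have hind : ∀ (a : V → ℤ) (z : ℂˣ), mon u a = cst L z → a = 0 := by
    intro a z h
    have h1 : cl (mon u a) = 0 := cl_eq_zero.2 ⟨z, h⟩
    rw [cl_mon] at h1
    have h2 : ∑ v, a v • b v = 0 := by
      apply Subtype.ext
      rw [AddSubmonoidClass.coe_finsetSum]
      change _ = (0 : Q L)
      rw [← h1]
      refine Finset.sum_congr rfl fun v _ => ?_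
      rw [hu v]
      rfl
    funext v
    exact Fintype.linearIndependent_iff.1 b.linearIndependent a h2 v
  refine ⟨V, inferInstance, {p // p ∈ G}, inferInstance, u, fun i => c (w i), fun i => η (w i),
    fun g => c g.1.1, fun g => c g.1.2, fun g => η g.1.1, fun g => η g.1.2, hind,
    fun i => hc _ (hw' i), fun g => ?_, fun δ h1 h2 => ?_⟩
  · rw [← hc _ (hG1 g.1 g.2).2.1, ← hc _ (hG1 g.1 g.2).2.2]
    exact (hG1 g.1 g.2).1
  · obtain ⟨D, hD⟩ := exists_ld u hind δ
    have h3 : ∀ x ∈ s, D.f x = ∑ v, (η x v : L) * δ v := by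
      intro x hx
      conv_lhs => rw [hc x hx]
      rw [D.f_mon]
      exact Finset.sum_congr rfl fun v _ => by rw [hD v]
    have h4 : ∀ x ∈ s, D.f x = 0 := by
      refine hG2 D (fun p hp => ?_) (fun a ha => ?_)
      · have h5 := h1 ⟨p, hp⟩
        simp only [row, add_mul, Finset.sum_add_distrib] at h5
        rw [← hc _ (hG1 p hp).2.1, ← hc _ (hG1 p hp).2.2] at h5
        rw [Lin, h3 _ (hG1 p hp).2.1, h3 _ (hG1 p hp).2.2, Finset.mul_sum, Finset.mul_sum]
        rw [← h5]
        congr 1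
        · exact Finset.sum_congr rfl fun v _ => by ring
        · exact Finset.sum_congr rfl fun v _ => by ring
      · obtain ⟨i, hi, rfl⟩ := ha
        rw [h3 _ (hw' i)]
        exact h2 i hi
    -- the values on `P` are all zero
    have h5 : ∀ q ∈ P, ∀ x : Lˣ, cl x = q → D.f x = 0 := by
      intro q hq
      induction hq using Submodule.span_induction with
      | mem q hq =>
        intro x hx
        obtain ⟨y, hy, rfl⟩ := Finset.mem_image.1 (Finset.mem_coe.1 hq)
        obtain ⟨d, rfl⟩ := cl_eq.1 hx.symm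
        rw [D.mul', D.cst', h4 y hy, add_zero]
      | zero =>
        intro x hx
        obtain ⟨d, rfl⟩ := cl_eq_zero.1 hx
        exact D.cst' d
      | add q q' _ _ ih ih' =>
        intro x hx
        obtain ⟨y, hy⟩ := cl_surj q
        obtain ⟨y', hy'⟩ := cl_surj q'
        have h6 : cl (y * y') = cl x := by rw [cl_mul', hy, hy', hx]
        obtain ⟨d, rfl⟩ := cl_eq.1 h6
        rw [D.mul', D.cst', D.mul', ih y hy, ih' y' hy', add_zero, add_zero]
      | smul m q _ ih =>
        intro x hx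
        obtain ⟨y, hy⟩ := cl_surj q
        have h6 : cl (y ^ m) = cl x := by rw [cl_zpow', hy, hx]
        obtain ⟨d, rfl⟩ := cl_eq.1 h6
        rw [D.mul', D.cst', D.zpow, ih y hy, mul_zero, add_zero]
    funext v
    rw [← hD v]
    exact h5 _ (b v).2 (u v) (hu v)

end

end Pool.Agent.Helper60.ZC
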