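import Pool.Agent.Helper60.ZC.Def

/-!
# B2: extension of closed points (Zilber's conjecture and the powers of one curve)
-/

set_option autoImplicit false

namespace Pool.Agent.Helper60.ZC

/-- a common multiplier which makes generators integral -/
theorem b2_mult {R : Type} [CommRing R] [IsDomain R] [Algebra ℂ R] (R₀ : Subalgebra ℂ R)
    (halg : ∀ x : R, IsAlgebraic R₀ x) (s : Finset R) :
    ∃ a : R₀, a ≠ 0 ∧ ∀ x ∈ s, IsIntegral R₀ ((a : R) * x) := by
  classical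
  induction s using Finset.induction_on with
  | empty => exact ⟨1, one_ne_zero, by simp⟩
  | insert x s _ ih =>
    obtain ⟨a, ha, h⟩ := ih
    obtain ⟨y, hy, hi⟩ := (halg x).exists_integral_multiple
    refine ⟨a * y, mul_ne_zero ha hy, ?_⟩
    intro z hz
    rcases Finset.mem_insert.1 hz with rfl | hz
    · have h1 : ((a * y : R₀) : R) * z = algebraMap R₀ R a * (y • z) := by
        rw [Algebra.smul_def]
        change (a : R) * (y : R) * z = (a : R) * ((y : R) * z)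
        ring
      rw [h1]
      exact isIntegral_algebraMap.mul hi
    · have h1 : ((a * y : R₀) : R) * z = algebraMap R₀ R y * ((a : R) * z) := by
        change (a : R) * (y : R) * z = (y : R) * ((a : R) * z)
        ring
      rw [h1]
      exact isIntegral_algebraMap.mul (h z hz)

/-- powers of the multiplier make all elements integral -/
theorem b2_pow {R : Type} [CommRing R] [IsDomain R] [Algebra ℂ R] (R₀ : Subalgebra ℂ R)
    (s : Finset R) (hs : Algebra.adjoin ℂ (s : Set R) = ⊤) (a : R₀)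
    (h : ∀ x ∈ s, IsIntegral R₀ ((a : R) * x)) (x : R) :
    ∃ N : ℕ, IsIntegral R₀ ((a : R) ^ N * x) := by
  have ha : IsIntegral R₀ (a : R) := isIntegral_algebraMap (R := R₀) (x := a)
  have hx : x ∈ Algebra.adjoin ℂ (s : Set R) := hs ▸ Algebra.mem_top
  induction hx using Algebra.adjoin_induction with
  | mem x hx => exact ⟨1, by rw [pow_one]; exact h x hx⟩
  | algebraMap r =>
    refine ⟨0, ?_⟩
    rw [pow_zero, one_mul]
    have : algebraMap ℂ R r = algebraMap R₀ R (algebraMap ℂ R₀ r) := rfl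
    rw [this]
    exact isIntegral_algebraMap
  | add x y _ _ hx hy =>
    obtain ⟨N, hN⟩ := hx
    obtain ⟨M, hM⟩ := hy
    refine ⟨N + M, ?_⟩
    have e : (a : R) ^ (N + M) * (x + y) =
        (a : R) ^ M * ((a : R) ^ N * x) + (a : R) ^ N * ((a : R) ^ M * y) := by ring
    rw [e]
    exact ((ha.pow M).mul hN).add ((ha.pow N).mul hM)
  | mul x y _ _ hx hy =>
    obtain ⟨N, hN⟩ := hx
    obtain ⟨M, hM⟩ := hy
    refine ⟨N + M, ?_⟩
    have e : (a : R) ^ (N + M) * (x * y) = ((a : R) ^ N * x) * ((a : R) ^ M * y) := by ring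
    rw [e]
    exact hN.mul hM

/-- the ideal generated by the kernel of a point outside the zeros of the multiplier is proper -/
theorem b2_proper {R : Type} [CommRing R] [IsDomain R] [Algebra ℂ R] (R₀ : Subalgebra ℂ R)
    (a : R₀) (hpow : ∀ x : R, ∃ N : ℕ, IsIntegral R₀ ((a : R) ^ N * x)) (ψ₀ : R₀ →ₐ[ℂ] ℂ)
    (hψ : ψ₀ a ≠ 0) : Ideal.map (algebraMap R₀ R) (RingHom.ker ψ₀) ≠ ⊤ := by
  intro htop
  let S := integralClosure R₀ R
  have hprime : (RingHom.ker ψ₀).IsPrime := RingHom.ker_isPrime ψ₀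
  have hinj : Function.Injective (algebraMap R₀ S) := by
    intro x y hxy
    have := congrArg (algebraMap S R) hxy
    rw [← IsScalarTower.algebraMap_apply, ← IsScalarTower.algebraMap_apply] at this
    exact Subtype.val_injective this
  have hker : RingHom.ker (algebraMap R₀ S) ≤ RingHom.ker ψ₀ := by
    rw [(RingHom.injective_iff_ker_eq_bot _).1 hinj]
    exact bot_le
  obtain ⟨Q, hQ, hQc⟩ := Ideal.exists_ideal_over_prime_of_isIntegral_of_isDomain
    (R := R₀) (S := S) (RingHom.ker ψ₀) hker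
  have key : ∀ y ∈ Ideal.map (algebraMap R₀ R) (RingHom.ker ψ₀),
      ∃ (N : ℕ) (q : S), q ∈ Q ∧ (q : R) = (a : R) ^ N * y := by
    intro y hy
    induction hy using Submodule.span_induction with
    | mem y hy =>
      obtain ⟨p, hp, rfl⟩ := hy
      refine ⟨0, algebraMap R₀ S p, ?_, ?_⟩
      · rw [← Ideal.mem_comap, hQc]; exact hp
      · rw [pow_zero, one_mul]; rfl
    | zero => exact ⟨0, 0, Q.zero_mem, by simp⟩
    | add y z _ _ hy hz =>
      obtain ⟨N, q, hq, hqe⟩ := hy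
      obtain ⟨M, q', hq', hqe'⟩ := hz
      refine ⟨N + M, algebraMap R₀ S (a ^ M) * q + algebraMap R₀ S (a ^ N) * q', ?_, ?_⟩
      · exact Q.add_mem (Q.mul_mem_left _ hq) (Q.mul_mem_left _ hq')
      · have h1 : ((algebraMap R₀ S (a ^ M) * q + algebraMap R₀ S (a ^ N) * q' : S) : R) =
            (a : R) ^ M * (q : R) + (a : R) ^ N * (q' : R) := by
          rfl
        rw [h1, hqe, hqe']
        ring
    | smul r y _ hy =>
      obtain ⟨N, q, hq, hqe⟩ := hy
      obtain ⟨M, hM⟩ := hpow r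
      refine ⟨N + M, (⟨(a : R) ^ M * r, hM⟩ : S) * q, Q.mul_mem_left _ hq, ?_⟩
      have h1 : (((⟨(a : R) ^ M * r, hM⟩ : S) * q : S) : R) = ((a : R) ^ M * r) * (q : R) := rfl
      rw [h1, hqe, smul_eq_mul]
      ring
  obtain ⟨N, q, hq, hqe⟩ := key 1 (by rw [htop]; trivial)
  have h2 : q = algebraMap R₀ S (a ^ N) := by
    apply Subtype.val_injective
    rw [hqe, mul_one]
    rfl
  rw [h2, ← Ideal.mem_comap, hQc] at hq
  have h3 : ψ₀ (a ^ N) = 0 := hq
  rw [map_pow] at h3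
  exact hψ (eq_zero_of_pow_eq_zero h3)

theorem t_b2 : S_B2 := by
  intro R _ _ _ hft R₀ halg b hb
  classical
  obtain ⟨s, hs⟩ := hft.out
  obtain ⟨a, ha, hint⟩ := b2_mult R₀ halg s
  obtain ⟨d, hd0, c, hdc⟩ := (halg b).exists_nonzero_dvd (mem_nonZeroDivisors_of_ne_zero hb)
  refine ⟨a * d, mul_ne_zero ha hd0, ?_⟩
  intro ψ₀ hψ
  rw [map_mul] at hψ
  have hψa : ψ₀ a ≠ 0 := left_ne_zero_of_mul hψ
  have hψd : ψ₀ d ≠ 0 := right_ne_zero_of_mul hψ
  have hpr := b2_proper R₀ a (b2_pow R₀ s hs a hint) ψ₀ hψa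
  obtain ⟨M, hM, hle⟩ := Ideal.exists_le_maximal _ hpr
  let _ : Field (R ⧸ M) := Ideal.Quotient.field M
  have : Algebra.FiniteType ℂ (R ⧸ M) :=
    Algebra.FiniteType.of_surjective (Ideal.Quotient.mkₐ ℂ M) (Ideal.Quotient.mkₐ_surjective ℂ M)
  have : Module.Finite ℂ (R ⧸ M) := finite_of_finite_type_of_isJacobsonRing ℂ (R ⧸ M)
  have hbij : Function.Bijective (algebraMap ℂ (R ⧸ M)) :=
    IsAlgClosed.algebraMap_bijective_of_isIntegral
  let E : ℂ ≃ₐ[ℂ] (R ⧸ M) := AlgEquiv.ofBijective (Algebra.ofId ℂ (R ⧸ M)) hbij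
  let ψ : R →ₐ[ℂ] ℂ := (E.symm : (R ⧸ M) →ₐ[ℂ] ℂ).comp (Ideal.Quotient.mkₐ ℂ M)
  have hψM : ∀ x ∈ M, ψ x = 0 := by
    intro x hx
    have h1 : Ideal.Quotient.mkₐ ℂ M x = 0 := by
      rw [Ideal.Quotient.mkₐ_eq_mk]
      exact Ideal.Quotient.eq_zero_iff_mem.2 hx
    change E.symm (Ideal.Quotient.mkₐ ℂ M x) = 0
    rw [h1, map_zero]
  have hext : ∀ x : R₀, ψ x = ψ₀ x := by
    intro x
    have h1 : x - algebraMap ℂ R₀ (ψ₀ x) ∈ RingHom.ker ψ₀ := by
      rw [RingHom.mem_ker, map_sub, AlgHom.commutes]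
      simp
    have h2 : ((x - algebraMap ℂ R₀ (ψ₀ x) : R₀) : R) ∈ M :=
      hle (Ideal.mem_map_of_mem (algebraMap R₀ R) h1)
    have h3 := hψM _ h2
    have h4 : ((x - algebraMap ℂ R₀ (ψ₀ x) : R₀) : R) = (x : R) - algebraMap ℂ R (ψ₀ x) := rfl
    rw [h4, map_sub, AlgHom.commutes] at h3
    simpa [sub_eq_zero] using h3
  refine ⟨ψ, hext, ?_⟩
  intro h0
  have h5 : ψ (algebraMap R₀ R d) = 0 := by rw [hdc, map_mul, h0, zero_mul]
  have h6 : ψ (algebraMap R₀ R d) = ψ₀ d := hext d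
  exact hψd (h6 ▸ h5)

end Pool.Agent.Helper60.ZC
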