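import Pool.Agent.Helper60.ZC.Def

/-!
# Tuples of points in a dense set (B3)
-/

set_option autoImplicit false

namespace Pool.Agent.Helper60.ZC

theorem t_b3 : S_B3 := by
  intro R _ _ _ 𝒟 hD r
  induction r with
  | zero =>
    intro J _ Φ _ hne
    refine ⟨fun i => i.elim0, fun i => i.elim0, fun j => ?_⟩
    obtain ⟨ψ, hψ⟩ := hne j
    rwa [Subsingleton.elim (fun i : Fin 0 => (i.elim0 : R →ₐ[ℂ] ℂ)) ψ]
  | succ r ih =>
    intro J _ Φ hreg hne
    choose p hp using hne
    choose b hb using fun j => hreg j (p j) 0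
    have hb0 : ∀ j, b j ≠ 0 := by
      intro j h0
      apply hp j
      have h1 := hb j (p j 0)
      rw [Function.update_eq_self, h0, map_zero] at h1
      exact h1
    obtain ⟨ψ₀, hψ₀, hψb⟩ := hD (∏ j, b j) (Finset.prod_ne_zero_iff.2 fun j _ => hb0 j)
    rw [map_prod, Finset.prod_ne_zero_iff] at hψb
    obtain ⟨ψ, hψ, hΦ⟩ := ih J (fun j ψ => Φ j (Fin.cons ψ₀ ψ)) (fun j ψ i => by
      obtain ⟨a, ha⟩ := hreg j (Fin.cons ψ₀ ψ) i.succ
      refine ⟨a, fun χ => ?_⟩
      rw [← ha χ]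
      simp only [Fin.cons_update]) (fun j => ⟨Fin.tail (p j), by
        have h1 := hb j ψ₀
        have h2 : Function.update (p j) 0 ψ₀ = Fin.cons ψ₀ (Fin.tail (p j)) := by
          conv_lhs => rw [← Fin.cons_self_tail (p j)]
          rw [Fin.update_cons_zero]
        rw [h2] at h1
        simp only [h1]
        exact hψb j (Finset.mem_univ j)⟩)
    refine ⟨Fin.cons ψ₀ ψ, fun i => ?_, hΦ⟩
    refine Fin.cases ?_ (fun i => ?_) i
    · simpa using hψ₀
    · simpa using hψ i

end Pool.Agent.Helper60.ZC
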