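import Pool.Agent.Helper60.ZC.B4

/-!
# No atypical subvariety contains all tuples of points (B5)
-/

set_option autoImplicit false

namespace Pool.Agent.Helper60.ZC

open MvPolynomial Pool.Agent.R948 Pool.Agent.N902.OP

theorem mon_sp {R V : Type} [CommRing R] [Algebra ℂ R] [Fintype V] (u : V → Rˣ) (χ : R →ₐ[ℂ] ℂ)
    (b : V → ℤ) : ((mon (sp u χ) b : ℂˣ) : ℂ) = χ ((mon u b : Rˣ) : R) := by
  have h : mon (sp u χ) b = Units.map (χ : R →* ℂ) (mon u b) := by
    rw [mon, mon, map_prod]
    refine Finset.prod_congr rfl fun v _ => ?_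
    rw [map_zpow]
    rfl
  rw [h]
  rfl

/-- independent integral vectors are independent over `ℂ` -/
theorem li_cast {ι : Type} [Fintype ι] {m : ℕ} (a : Fin m → ι → ℤ) (h : LinearIndependent ℤ a)
    (d : Fin m → ℂ) (hd : ∀ t, ∑ l, d l * (a l t : ℂ) = 0) : d = 0 := by
  classical
  let cast : (ι → ℤ) →ₗ[ℤ] (ι → ℚ) :=
    { toFun := fun v i => (v i : ℚ)
      map_add' := fun v w => by funext i; simp
      map_smul' := fun c v => by funext i; simp }
  have hinj : Function.Injective cast := fun v w hvw => by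
    funext i
    have h0 : (v i : ℚ) = (w i : ℚ) := congrFun hvw i
    exact_mod_cast h0
  have h1 : LinearIndependent ℤ (fun j => cast (a j)) := h.map' cast (LinearMap.ker_eq_bot.2 hinj)
  have h2 : LinearIndependent ℚ (fun j => cast (a j)) :=
    (LinearIndependent.iff_fractionRing ℤ ℚ).1 h1
  obtain ⟨e, he⟩ := Pool.Agent.W206.CT.E1.minor (Matrix.of fun j t => (a j t : ℚ)) h2
  have h3 : (Matrix.of fun (j : Fin m) (t : Fin m) => (a j (e t) : ℂ)).det ≠ 0 := by
    have h4 : (Matrix.of fun (j : Fin m) (t : Fin m) => (a j (e t) : ℂ)) =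
        ((Matrix.of fun j t => (a j t : ℚ)).submatrix id e).map (algebraMap ℚ ℂ) := by
      ext j t
      simp
    rw [h4, ← RingHom.mapMatrix_apply, ← RingHom.map_det]
    simpa using he
  refine Matrix.eq_zero_of_vecMul_eq_zero h3 ?_
  funext t
  simp only [Matrix.vecMul, dotProduct, Matrix.of_apply, Pi.zero_apply]
  exact hd (e t)

/-- the logarithmic gradient of a monomial -/
theorem grad_monomial {ι : Type} [Fintype ι] (ω : ι → ℂ) (n : ι → ℕ) (t : ι) :
    ω t * aeval ω (pderiv t (∏ i, X i ^ n i : MvPolynomial ι ℂ)) = n t * ∏ i, ω i ^ n i := by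
  classical
  have h1 : (∏ i, X i ^ n i : MvPolynomial ι ℂ) = monomial (Finsupp.equivFunOnFinite.symm n) 1 := by
    rw [monomial_eq, map_one, one_mul, Finsupp.prod_fintype _ _ fun i => pow_zero _]
    rfl
  rw [h1, pderiv_monomial, aeval_monomial, one_mul, map_natCast]
  have h2 : ((Finsupp.equivFunOnFinite.symm n) t : ℕ) = n t := rfl
  rw [h2]
  by_cases hn : n t = 0
  · simp [hn]
  · rw [Finsupp.prod_fintype _ _ fun i => pow_zero _, mul_left_comm]
    congr 1
    rw [← Finset.mul_prod_erase Finset.univ _ (Finset.mem_univ t),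
      ← Finset.mul_prod_erase Finset.univ (fun i => ω i ^ n i) (Finset.mem_univ t), ← mul_assoc]
    congr 1
    · simp only [Finsupp.coe_tsub, Pi.sub_apply, Finsupp.single_eq_same, h2]
      rw [← pow_succ', Nat.sub_add_cancel (Nat.one_le_iff_ne_zero.2 hn)]
    · refine Finset.prod_congr rfl fun i hi => ?_
      have hit : i ≠ t := (Finset.mem_erase.1 hi).1
      simp only [Finsupp.coe_tsub, Pi.sub_apply, Finsupp.single_eq_of_ne hit, Nat.sub_zero]
      rfl

theorem grad_binom {ι : Type} [Fintype ι] (z : ι → ℂˣ) (a : ι → ℤ) (h : mon z a = 1) (t : ι) :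
    un z t * aeval (un z) (pderiv t (binom 1 a : MvPolynomial ι ℂ)) =
      (∏ i, un z i ^ (a i).toNat) * (a t : ℂ) := by
  have h0 : aeval (un z) (binom 1 a : MvPolynomial ι ℂ) = 0 := by
    rw [aeval_binom, h, map_one, Units.val_one]
  have h1 : (∏ i, un z i ^ (a i).toNat) = ∏ i, un z i ^ (-a i).toNat := by
    rw [binom, map_one, one_mul, map_sub, sub_eq_zero] at h0
    simpa using h0
  rw [binom, map_one, one_mul, map_sub, map_sub, mul_sub, grad_monomial, grad_monomial, ← h1,
    ← sub_mul, mul_comm]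
  congr 1
  have h2 : a t = ((a t).toNat : ℤ) - ((-a t).toNat : ℤ) := (Int.toNat_sub_toNat_neg (a t)).symm
  conv_rhs => rw [h2]
  push_cast
  rfl

/-- the coordinates of the factor with the number `j` -/
def fj {k : ℕ} (j : Fin k) : Fin 2 → Fin k ⊕ Fin k := ![Sum.inl j, Sum.inr j]

theorem fj_inj {k : ℕ} (j : Fin k) : Function.Injective (fj j) := by
  intro a b h
  fin_cases a <;> fin_cases b <;> simp [fj] at h ⊢

/-- the equation of the factor with the number `j` -/
noncomputable def eqn {k : ℕ} (H : MvPolynomial (Fin 2) ℂ) (j : Fin k) :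
    MvPolynomial (Fin k ⊕ Fin k) ℂ := rename (fj j) H

theorem aeval_eqn {k : ℕ} {L : Type} [CommRing L] [Algebra ℂ L] (H : MvPolynomial (Fin 2) ℂ)
    (j : Fin k) (ω : Fin k ⊕ Fin k → L) :
    aeval ω (eqn H j) = hv H (ω (Sum.inl j)) (ω (Sum.inr j)) := by
  rw [eqn, hv, aeval_rename]
  congr 2
  funext i
  fin_cases i <;> rfl

theorem pderiv_inl {k : ℕ} (H : MvPolynomial (Fin 2) ℂ) (j j' : Fin k) :
    pderiv (Sum.inl j') (eqn H j) = if j' = j then eqn (pderiv 0 H) j else 0 := by
  classical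
  split_ifs with h
  · subst h
    exact pderiv_rename (fj_inj j') 0 H
  · refine pderiv_eq_zero_of_notMem_vars fun hm => ?_
    obtain ⟨i, -, hi⟩ := Finset.mem_image.1 (vars_rename (fj j) H hm)
    fin_cases i
    · exact h (Sum.inl_injective hi).symm
    · exact Sum.inr_ne_inl hi

theorem pderiv_inr {k : ℕ} (H : MvPolynomial (Fin 2) ℂ) (j j' : Fin k) :
    pderiv (Sum.inr j') (eqn H j) = if j' = j then eqn (pderiv 1 H) j else 0 := by
  classical
  split_ifs with h
  · subst h
    exact pderiv_rename (fj_inj j') 1 H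
  · refine pderiv_eq_zero_of_notMem_vars fun hm => ?_
    obtain ⟨i, -, hi⟩ := Finset.mem_image.1 (vars_rename (fj j) H hm)
    fin_cases i
    · exact Sum.inl_ne_inr hi
    · exact h (Sum.inr_injective hi).symm

theorem t_b5 : S_B5 := by
  classical
  intro H R _ _ _ _ V G _ _ u κ κ' α β r k e hu hsep ψ₀ hlin A hA hAH hom hdef
  let P : TP ℂ (Fin k ⊕ Fin k) := toTP hA
  have hPI : P.I = van A := rfl
  obtain ⟨Λ, hΛ, hΛ1⟩ := exists_lat P.pt
  have hdf : (k : ℤ) < dr P.pt + td ℂ (un P.pt) := by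
    have h1 := defect_eq hA
    have h2 : (toTP hA).df = (Fintype.card (Fin k ⊕ Fin k) : ℤ) - dr P.pt - td ℂ (un P.pt) := rfl
    rw [h2, Fintype.card_sum, Fintype.card_fin] at h1
    rw [h1] at hdef
    push_cast at hdef
    omega
  -- the relations of the generic point hold at all points
  have hrel : ∀ z ∈ A, ∀ a ∈ Λ, mon z a = 1 := by
    intro z hz a ha
    have h1 : (binom 1 a : MvPolynomial (Fin k ⊕ Fin k) ℂ) ∈ P.I := by
      rw [binom_mem, hΛ1 a ha, map_one, Units.val_one]
    have h2 : aeval (un z) (binom 1 a : MvPolynomial (Fin k ⊕ Fin k) ℂ) = 0 := h1 z hz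
    rw [aeval_binom, map_one] at h2
    exact Units.ext h2
  -- they are trivial on the factors
  have hphi : ∀ a ∈ Λ, ∀ i, (fun v => ∑ g, (a (Sum.inl (e.symm (i, g))) * α g v +
        a (Sum.inr (e.symm (i, g))) * β g v)) = 0 := by
    intro a ha i
    set φ : Fin r → V → ℤ := fun i v => ∑ g, (a (Sum.inl (e.symm (i, g))) * α g v +
        a (Sum.inr (e.symm (i, g))) * β g v) with hφ
    change φ i = 0
    have h1 : ∀ χ : R →ₐ[ℂ] ℂ, mon (sp u χ) (φ i) = mon (sp u ψ₀) (φ i) := by
      intro χ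
      have h2 := hrel _ (hom (Function.update (fun _ => ψ₀) i χ)) a ha
      have h3 := hrel _ (hom (fun _ => ψ₀)) a ha
      rw [mon_om] at h2 h3
      have h4 := h2.trans h3.symm
      have h5 := mul_left_cancel h4
      rw [← Finset.mul_prod_erase Finset.univ _ (Finset.mem_univ i),
        ← Finset.mul_prod_erase Finset.univ (fun i => mon (sp u ψ₀) (φ i)) (Finset.mem_univ i)] at h5
      have h6 : ∏ x ∈ Finset.univ.erase i, mon (sp u (Function.update (fun _ => ψ₀) i χ x)) (φ x) =
          ∏ x ∈ Finset.univ.erase i, mon (sp u ψ₀) (φ x) := by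
        refine Finset.prod_congr rfl fun x hx => ?_
        rw [Function.update_of_ne (Finset.mem_erase.1 hx).1]
      rw [Function.update_self] at h5
      have h7 := h6 ▸ h5
      exact mul_right_cancel h7
    refine hu _ ((mon (sp u ψ₀) (φ i) : ℂˣ) : ℂ) ?_
    by_contra hne
    obtain ⟨χ, hχ⟩ := hsep _ (sub_ne_zero.2 hne)
    apply hχ
    rw [map_sub, AlgHom.commutes, ← mon_sp, h1 χ]
    exact sub_self _
  -- the equations
  let a : Fin (Module.finrank ℤ Λ) → (Fin k ⊕ Fin k → ℤ) := fun l => (Module.finBasis ℤ Λ l : _)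
  have haΛ : ∀ l, a l ∈ Λ := fun l => (Module.finBasis ℤ Λ l).2
  have hali : LinearIndependent ℤ a :=
    (Module.finBasis ℤ Λ).linearIndependent.map' Λ.subtype (Submodule.ker_subtype Λ)
  let z : Fin k ⊕ Fin k → ℂˣ := om e κ κ' α β (fun _ => sp u ψ₀)
  have hz : z ∈ A := hom fun _ => ψ₀
  let F : Fin k ⊕ Fin (Module.finrank ℤ Λ) → MvPolynomial (Fin k ⊕ Fin k) ℂ :=
    Sum.elim (fun j => eqn H j) (fun l => binom 1 (a l))
  have hF : ∀ p, aeval (un P.pt) (F p) = 0 := by
    rintro (j | l)
    · rw [P.aeval_pt_eq_zero, hPI]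
      intro y hy
      rw [ev_eq]
      exact (aeval_eqn H j (un y)).trans (hAH hy j)
    · change aeval (un P.pt) (binom 1 (a l)) = 0
      rw [aeval_binom, hΛ1 _ (haΛ l), map_one, Units.val_one]
  have hli : LinearIndependent ℂ fun p => fun t => aeval (un z) (pderiv t (F p)) := by
    rw [Fintype.linearIndependent_iff]
    intro c hc
    have h1 : ∀ t, ∑ j, c (Sum.inl j) * (un z t * aeval (un z) (pderiv t (eqn H j))) +
        ∑ l, (c (Sum.inr l) * ∏ i, un z i ^ (a l i).toNat) * (a l t : ℂ) = 0 := by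
      intro t
      have h2 := congrFun hc t
      rw [Finset.sum_apply, Fintype.sum_sum_type] at h2
      simp only [Pi.smul_apply, smul_eq_mul, Pi.zero_apply] at h2
      have h3 := congrArg (fun x => un z t * x) h2
      simp only [mul_zero, mul_add, Finset.mul_sum] at h3
      rw [← h3]
      congr 1
      · refine Finset.sum_congr rfl fun j _ => ?_
        change _ = un z t * (c (Sum.inl j) * aeval (un z) (pderiv t (eqn H j)))
        ring
      · refine Finset.sum_congr rfl fun l _ => ?_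
        change _ = un z t * (c (Sum.inr l) * aeval (un z) (pderiv t (binom 1 (a l))))
        rw [mul_assoc, ← grad_binom z (a l) (hrel z hz _ (haΛ l)) t]
        ring
    have h2 : ∀ j, c (Sum.inl j) * (un z (Sum.inl j) * hv (pderiv 0 H) (un z (Sum.inl j)) (un z (Sum.inr j))) +
        ∑ l, (c (Sum.inr l) * ∏ i, un z i ^ (a l i).toNat) * (a l (Sum.inl j) : ℂ) = 0 := by
      intro j
      rw [← h1 (Sum.inl j)]
      congr 1
      rw [Finset.sum_eq_single j]
      · rw [pderiv_inl, if_pos rfl, aeval_eqn]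
      · intro j' _ hj'
        rw [pderiv_inl, if_neg hj'.symm, map_zero, mul_zero, mul_zero]
      · intro h
        exact absurd (Finset.mem_univ j) h
    have h3 : ∀ j, c (Sum.inl j) * (un z (Sum.inr j) * hv (pderiv 1 H) (un z (Sum.inl j)) (un z (Sum.inr j))) +
        ∑ l, (c (Sum.inr l) * ∏ i, un z i ^ (a l i).toNat) * (a l (Sum.inr j) : ℂ) = 0 := by
      intro j
      rw [← h1 (Sum.inr j)]
      congr 1
      rw [Finset.sum_eq_single j]
      · rw [pderiv_inr, if_pos rfl, aeval_eqn]
      · intro j' _ hj'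
        rw [pderiv_inr, if_neg hj'.symm, map_zero, mul_zero, mul_zero]
      · intro h
        exact absurd (Finset.mem_univ j) h
    -- the coefficients of the equations of the factors
    have h4 : ∀ i g, c (Sum.inl (e.symm (i, g))) = 0 := by
      intro i
      refine Fintype.linearIndependent_iff.1 hlin (fun g => c (Sum.inl (e.symm (i, g)))) ?_
      funext v
      rw [Finset.sum_apply]
      simp only [Pi.smul_apply, smul_eq_mul, Pi.zero_apply]
      have h5 : ∑ g, ((α g v : ℂ) * (c (Sum.inl (e.symm (i, g))) * (un z (Sum.inl (e.symm (i, g))) *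
            hv (pderiv 0 H) (un z (Sum.inl (e.symm (i, g)))) (un z (Sum.inr (e.symm (i, g))))) +
          ∑ l, (c (Sum.inr l) * ∏ i, un z i ^ (a l i).toNat) * (a l (Sum.inl (e.symm (i, g))) : ℂ)) +
          (β g v : ℂ) * (c (Sum.inl (e.symm (i, g))) * (un z (Sum.inr (e.symm (i, g))) *
            hv (pderiv 1 H) (un z (Sum.inl (e.symm (i, g)))) (un z (Sum.inr (e.symm (i, g))))) +
          ∑ l, (c (Sum.inr l) * ∏ i, un z i ^ (a l i).toNat) * (a l (Sum.inr (e.symm (i, g))) : ℂ))) = 0 := by
        refine Finset.sum_eq_zero fun g _ => ?_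
        rw [h2, h3, mul_zero, mul_zero, add_zero]
      have h6 : ∑ g, ∑ l, (c (Sum.inr l) * ∏ i, un z i ^ (a l i).toNat) *
          ((a l (Sum.inl (e.symm (i, g))) : ℂ) * (α g v : ℂ) +
            (a l (Sum.inr (e.symm (i, g))) : ℂ) * (β g v : ℂ)) = 0 := by
        rw [Finset.sum_comm]
        refine Finset.sum_eq_zero fun l _ => ?_
        rw [← Finset.mul_sum]
        have h7 := congrFun (hphi (a l) (haΛ l) i) v
        have h8 : (∑ g, ((a l (Sum.inl (e.symm (i, g))) : ℂ) * (α g v : ℂ) +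
            (a l (Sum.inr (e.symm (i, g))) : ℂ) * (β g v : ℂ))) = 0 := by
          have h9 : ∑ g, (a l (Sum.inl (e.symm (i, g))) * α g v +
            a l (Sum.inr (e.symm (i, g))) * β g v) = 0 := h7
          exact_mod_cast h9
        rw [h8, mul_zero]
      have h7 : ∀ g, un z (Sum.inl (e.symm (i, g))) = ((κ g * mon (sp u ψ₀) (α g) : ℂˣ) : ℂ) := by
        intro g
        simp [un, z, om]
      have h8 : ∀ g, un z (Sum.inr (e.symm (i, g))) = ((κ' g * mon (sp u ψ₀) (β g) : ℂˣ) : ℂ) := by
        intro g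
        simp [un, z, om]
      rw [← h5, ← sub_eq_zero, ← Finset.sum_sub_distrib]
      rw [← neg_eq_zero, ← Finset.sum_neg_distrib]
      rw [← h6]
      refine Finset.sum_congr rfl fun g _ => ?_
      rw [row, ← h7, ← h8]
      simp only [mul_add, Finset.mul_sum, Finset.sum_add_distrib]
      ring_nf
    have h5 : ∀ j, c (Sum.inl j) = 0 := by
      intro j
      have h6 := h4 (e j).1 (e j).2
      rwa [Prod.mk.eta, Equiv.symm_apply_apply] at h6
    have h6 : (fun l => c (Sum.inr l) * ∏ i, un z i ^ (a l i).toNat) = 0 := by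
      refine li_cast a hali _ fun t => ?_
      have h7 := h1 t
      simp only [h5, zero_mul, Finset.sum_const_zero, zero_add] at h7
      exact h7
    rintro (j | l)
    · exact h5 j
    · have h7 := congrFun h6 l
      rcases mul_eq_zero.1 h7 with h8 | h8
      · exact h8
      · exfalso
        obtain ⟨i, -, hi⟩ := Finset.prod_eq_zero_iff.1 h8
        exact pow_ne_zero _ (z i).ne_zero hi
  have htr : Pool.Agent.W206.CT.TrGe ℂ (un P.pt) (td ℂ (un P.pt)) := by
    obtain ⟨S, hS, hS2, -⟩ := exists_td ℂ (un P.pt)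
    rw [← hS]
    refine ⟨fun i => un P.pt (S.equivFin.symm i), hS2.comp _ S.equivFin.symm.injective, fun i => ?_⟩
    exact IntermediateField.subset_adjoin _ _ ⟨_, rfl⟩
  have h9 := Pool.Agent.W206.CT.E1.gen ℂ (Fin k ⊕ Fin k) ℂ P.fld (k + Module.finrank ℤ Λ)
    (td ℂ (un P.pt)) (un z) (un P.pt) (fun g hg => by
      rw [P.aeval_pt_eq_zero] at hg
      exact hg z hz) (fun i => F (finSumFinEquiv.symm i)) (fun i => hF _)
    (hli.comp _ finSumFinEquiv.symm.injective) htr
  rw [Fintype.card_sum, Fintype.card_fin, hΛ] at h9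
  omega

end Pool.Agent.Helper60.ZC
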