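import Pool.Agent.Helper60.ZC.Def

/-!
# Part B: the transfer from its four ingredients
-/

set_option autoImplicit false

namespace Pool.Agent.Helper60.ZC

open MvPolynomial Pool.Agent.R948

section

variable {R S : Type} [CommRing R] [CommRing S] [Algebra ℂ R] [Algebra ℂ S]

theorem hv_map (φ : R →ₐ[ℂ] S) (H : MvPolynomial (Fin 2) ℂ) (x y : R) :
    φ (hv H x y) = hv H (φ x) (φ y) := by
  rw [hv, hv, comp_aeval_apply]
  congr 2
  funext i
  fin_cases i <;> rfl

/-- the row of a gate over a ring -/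
noncomputable def rw0 {V : Type} (H : MvPolynomial (Fin 2) ℂ) (x y : R)
    (a b : V → ℤ) (v : V) : R :=
  x * hv (pderiv 0 H) x y * (a v : R) + y * hv (pderiv 1 H) x y * (b v : R)

theorem rw0_map {V : Type} (φ : R →ₐ[ℂ] S) (H : MvPolynomial (Fin 2) ℂ) (x y : R) (a b : V → ℤ)
    (v : V) : φ (rw0 H x y a b v) = rw0 H (φ x) (φ y) a b v := by
  rw [rw0, rw0, map_add, map_mul, map_mul, map_mul, map_mul, hv_map, hv_map, map_intCast,
    map_intCast]

theorem row_eq {L V : Type} [Field L] [Algebra ℂ L] (H : MvPolynomial (Fin 2) ℂ) (x y : L)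
    (a b : V → ℤ) : row H x y a b = rw0 H x y a b := rfl

omit [Algebra ℂ R] [Algebra ℂ S] in
theorem map_mon {V : Type} [Fintype V] (φ : R →* S) (u : V → Rˣ) (a : V → ℤ) :
    Units.map φ (mon u a) = mon (fun v => Units.map φ (u v)) a := by
  rw [mon, mon, map_prod]
  exact Finset.prod_congr rfl fun v _ => map_zpow _ _ _

/-- the constants in the units of an algebra -/
noncomputable def cR (R : Type) [CommRing R] [Algebra ℂ R] (c : ℂˣ) : Rˣ :=
  Units.map (algebraMap ℂ R : ℂ →* R) c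

theorem cst_one' {L : Type} [Field L] [Algebra ℂ L] : cst L 1 = 1 := map_one _

theorem map_cR (φ : R →ₐ[ℂ] S) (c : ℂˣ) : Units.map (φ : R →* S) (cR R c) = cR S c := by
  ext
  change φ (algebraMap ℂ R c) = algebraMap ℂ S c
  exact φ.commutes _

theorem cR_self (c : ℂˣ) : cR ℂ c = c := by
  ext
  rfl

theorem sp_val {V : Type} (u : V → Rˣ) (ψ : R →ₐ[ℂ] ℂ) (v : V) :
    ((sp u ψ v : ℂˣ) : ℂ) = ψ (u v) := rfl

theorem sp_mon {V : Type} [Fintype V] (u : V → Rˣ) (ψ : R →ₐ[ℂ] ℂ) (c : ℂˣ) (a : V → ℤ) :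
    c * mon (sp u ψ) a = Units.map (ψ : R →* ℂ) (cR R c * mon u a) := by
  rw [map_mul, map_mon, map_cR, cR_self]
  rfl

theorem sp_mon_val {V : Type} [Fintype V] (u : V → Rˣ) (ψ : R →ₐ[ℂ] ℂ) (c : ℂˣ) (a : V → ℤ) :
    ((c * mon (sp u ψ) a : ℂˣ) : ℂ) = ψ ((cR R c * mon u a : Rˣ) : R) := by
  rw [sp_mon]
  rfl

end

/-- the generic point with algebraically closed coordinates -/
theorem exists_gen {n : ℕ} {Y : Set (Fin n → ℂˣ)} (hY : Subvariety Y) :
    ∃ (L : Type) (_ : Field L) (_ : Algebra ℂ L) (_ : IsAlgClosed L) (z : Fin n → Lˣ),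
      (∀ f : MvPolynomial (Fin n) ℂ, aeval (un z) f = 0 ↔ f ∈ van Y) ∧
      (∀ x : L, IsAlgebraic (Algebra.adjoin ℂ (Set.range (un z))) x) ∧ td ℂ (un z) = vdim Y := by
  classical
  let P : TP ℂ (Fin n) := toTP hY
  let L := AlgebraicClosure P.fld
  let z : Fin n → Lˣ := fun i => Units.map (algebraMap P.fld L : P.fld →* L) (P.pt i)
  have hz : ∀ f : MvPolynomial (Fin n) ℂ, aeval (un z) f = algebraMap P.fld L (aeval (un P.pt) f) :=
    fun f => aeval_algebraMap_apply L (un P.pt) f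
  have hz0 : ∀ f : MvPolynomial (Fin n) ℂ, aeval (un z) f = 0 ↔ f ∈ van Y := by
    intro f
    rw [hz, map_eq_zero_iff _ (algebraMap P.fld L).injective, P.aeval_pt_eq_zero]
    rfl
  refine ⟨L, inferInstance, inferInstance, inferInstance, z, hz0, fun x => ?_, ?_⟩
  · have h1 : IsAlgebraic P.fld x := Algebra.IsAlgebraic.isAlgebraic x
    have h2 : IsAlgebraic (MvPolynomial (Fin n) ℂ ⧸ P.I) x :=
      (IsFractionRing.isAlgebraic_iff (MvPolynomial (Fin n) ℂ ⧸ P.I) P.fld L).2 h1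
    have h3 : ∀ q : MvPolynomial (Fin n) ℂ ⧸ P.I, algebraMap (MvPolynomial (Fin n) ℂ ⧸ P.I) L q ∈
        Algebra.adjoin ℂ (Set.range (un z)) := by
      intro q
      obtain ⟨f, rfl⟩ := Ideal.Quotient.mk_surjective q
      rw [Algebra.adjoin_range_eq_range_aeval]
      refine ⟨f, ?_⟩
      change aeval (un z) f = _
      rw [hz, P.aeval_pt, ← IsScalarTower.algebraMap_apply]
    let g : (MvPolynomial (Fin n) ℂ ⧸ P.I) →+* Algebra.adjoin ℂ (Set.range (un z)) :=
      (algebraMap (MvPolynomial (Fin n) ℂ ⧸ P.I) L).codRestrict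
        (Algebra.adjoin ℂ (Set.range (un z))) h3
    have hg : Function.Injective g := by
      intro a b hab
      have h4 := congrArg Subtype.val hab
      have h5 : Function.Injective (algebraMap (MvPolynomial (Fin n) ℂ ⧸ P.I) L) := by
        rw [IsScalarTower.algebraMap_eq (MvPolynomial (Fin n) ℂ ⧸ P.I) P.fld L]
        exact (algebraMap P.fld L).injective.comp (IsFractionRing.injective _ _)
      exact h5 h4
    obtain ⟨p, hp0, hp⟩ := h2
    refine ⟨p.map g, ?_, ?_⟩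
    · rwa [Polynomial.map_ne_zero_iff hg]
    · rw [Polynomial.aeval_def, Polynomial.eval₂_map]
      rw [Polynomial.aeval_def] at hp
      exact hp
  · rw [vdim_eq hY, ← TP.td_pt]
    refine le_antisymm (td_le_of_ker ℂ fun f hf => ?_) (td_le_of_ker ℂ fun f hf => ?_)
    · rw [hz, hf, map_zero]
    · rw [hz0] at hf
      exact (P.aeval_pt_eq_zero f).2 hf

/-- the points of low rank give a dense set of homomorphisms -/
theorem exists_low (h2 : S_B2) {n : ℕ} {Y : Set (Fin n → ℂˣ)} (D : ℕ)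
    (hd : ∀ f : MvPolynomial (Fin n) ℂ, (∀ x ∈ Y, D ≤ dr x →
      MvPolynomial.eval (fun i => (x i : ℂ)) f = 0) →
        ∀ x ∈ Y, MvPolynomial.eval (fun i => (x i : ℂ)) f = 0)
    (R : Type) [CommRing R] [IsDomain R] [Algebra ℂ R] [Algebra.FiniteType ℂ R] (z : Fin n → Rˣ)
    (hz : ∀ f : MvPolynomial (Fin n) ℂ, aeval (fun i => (z i : R)) f = 0 → f ∈ van Y)
    (hz' : ∀ f ∈ van Y, aeval (fun i => (z i : R)) f = 0)
    (halg : ∀ x : R, IsAlgebraic (Algebra.adjoin ℂ (Set.range fun i => (z i : R))) x)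
    (b : R) (hb : b ≠ 0) : ∃ ψ : R →ₐ[ℂ] ℂ, D ≤ dr (sp z ψ) ∧ ψ b ≠ 0 := by
  classical
  obtain ⟨a, ha, hext⟩ := h2 R (Algebra.adjoin ℂ (Set.range fun i => (z i : R))) halg b hb
  have hr := Algebra.adjoin_range_eq_range_aeval ℂ (fun i => (z i : R))
  let f₀ : MvPolynomial (Fin n) ℂ →ₐ[ℂ] Algebra.adjoin ℂ (Set.range fun i => (z i : R)) :=
    (aeval (fun i => (z i : R))).codRestrict _ (fun q => by rw [hr]; exact ⟨q, rfl⟩)
  have hf₀ : Function.Surjective f₀ := by
    rintro ⟨x, hx⟩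
    have hx' := hx
    rw [hr] at hx'
    obtain ⟨q, hq⟩ := hx'
    exact ⟨q, Subtype.ext hq⟩
  obtain ⟨q, hq⟩ := hf₀ a
  have hqv : q ∉ van Y := by
    intro h
    apply ha
    rw [← hq]
    exact Subtype.ext (hz' q h)
  obtain ⟨x, hxY, hxD, hxq⟩ : ∃ x ∈ Y, D ≤ dr x ∧ MvPolynomial.eval (fun i => (x i : ℂ)) q ≠ 0 := by
    by_contra hcon
    push Not at hcon
    exact hqv (hd q hcon)
  let e := Ideal.quotientKerAlgEquivOfSurjective hf₀
  have hker : ∀ g : MvPolynomial (Fin n) ℂ, g ∈ RingHom.ker f₀ →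
      (aeval (fun i => (x i : ℂ)) : MvPolynomial (Fin n) ℂ →ₐ[ℂ] ℂ) g = 0 := by
    intro g hg
    rw [RingHom.mem_ker] at hg
    have h3 : aeval (fun i => (z i : R)) g = 0 := congrArg Subtype.val hg
    exact hz g h3 x hxY
  let ψ₀ : Algebra.adjoin ℂ (Set.range fun i => (z i : R)) →ₐ[ℂ] ℂ :=
    (Ideal.Quotient.liftₐ (RingHom.ker f₀)
      (aeval (fun i => (x i : ℂ)) : MvPolynomial (Fin n) ℂ →ₐ[ℂ] ℂ) hker).comp e.symm.toAlgHom
  have hψ₀ : ∀ g, ψ₀ (f₀ g) = aeval (fun i => (x i : ℂ)) g := by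
    intro g
    have h4 : e (Ideal.Quotient.mk _ g) = f₀ g := rfl
    have h5 : e.symm (f₀ g) = Ideal.Quotient.mk _ g := by
      rw [← h4, AlgEquiv.symm_apply_apply]
    change (Ideal.Quotient.liftₐ (RingHom.ker f₀) _ hker) (e.symm (f₀ g)) = _
    rw [h5]
    rfl
  obtain ⟨ψ, hψ, hψb⟩ := hext ψ₀ (by
    rw [← hq, hψ₀]
    exact hxq)
  refine ⟨ψ, ?_, hψb⟩
  have h6 : sp z ψ = x := by
    funext i
    apply Units.ext
    rw [sp_val]
    have h7 := hψ (f₀ (X i))
    rw [hψ₀, aeval_X] at h7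
    rw [← h7]
    change ψ (z i) = ψ (aeval (fun i => (z i : R)) (X i))
    rw [aeval_X]
  rw [h6]
  exact hxD

/-- specialisation of independent rows -/
theorem exists_rows {R L G V : Type} [CommRing R] [Algebra ℂ R] [Field L] [Algebra R L]
    [Fintype G] [Fintype V] (ρ : G → V → R)
    (hρ : LinearIndependent L (fun g : G => fun v => algebraMap R L (ρ g v))) :
    ∃ b : R, b ≠ 0 ∧ ∀ ψ : R →ₐ[ℂ] ℂ, ψ b ≠ 0 →
      LinearIndependent ℂ (fun g : G => fun v => ψ (ρ g v)) := by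
  classical
  let e := Fintype.equivFin G
  let M : Matrix (Fin (Fintype.card G)) V R := Matrix.of fun i v => ρ (e.symm i) v
  have h1 : LinearIndependent L (M.map (algebraMap R L)).row := hρ.comp e.symm e.symm.injective
  obtain ⟨f, hf⟩ := Pool.Agent.W206.CT.E1.minor (M.map (algebraMap R L)) h1
  refine ⟨(M.submatrix id f).det, ?_, fun ψ hψ => ?_⟩
  · intro h
    apply hf
    have h2 : ((M.map (algebraMap R L)).submatrix id f) =
        (algebraMap R L).mapMatrix (M.submatrix id f) := rfl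
    rw [h2, ← RingHom.map_det, h, map_zero]
  · have h2 : ψ (M.submatrix id f).det = (ψ.mapMatrix (M.submatrix id f)).det := AlgHom.map_det _ _
    rw [h2] at hψ
    have h3 : LinearIndependent ℂ (ψ.mapMatrix (M.submatrix id f)).row :=
      Matrix.linearIndependent_rows_iff_isUnit.2
        ((Matrix.isUnit_iff_isUnit_det _).2 (isUnit_iff_ne_zero.2 hψ))
    have h4 : LinearIndependent ℂ (fun i : Fin (Fintype.card G) => fun v => ψ (ρ (e.symm i) v)) := by
      refine LinearIndependent.of_comp (LinearMap.funLeft ℂ ℂ f) ?_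
      exact h3
    have h5 := h4.comp e e.injective
    convert h5 using 1
    funext g v
    simp

/-- the coordinates of the points of the power -/
theorem om_coord {R G V : Type} [CommRing R] [Algebra ℂ R] [Fintype V] [DecidableEq G] {r k : ℕ}
    (e : Fin k ≃ Fin r × G) (κ κ' : G → ℂˣ) (α β : G → V → ℤ) (u : V → Rˣ)
    (ψ : Fin r → (R →ₐ[ℂ] ℂ)) (i : Fin r) (t : Fin k ⊕ Fin k) :
    ∃ b : R, ∀ χ : R →ₐ[ℂ] ℂ,
      ((om e κ κ' α β (fun l => sp u (Function.update ψ i χ l)) t : ℂˣ) : ℂ) = χ b := by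
  rcases t with j | j
  · by_cases h : (e j).1 = i
    · refine ⟨((cR R (κ (e j).2) * mon u (α (e j).2) : Rˣ) : R), fun χ => ?_⟩
      change ((κ (e j).2 * mon (sp u (Function.update ψ i χ (e j).1)) (α (e j).2) : ℂˣ) : ℂ) = _
      rw [h, Function.update_self, sp_mon_val]
    · refine ⟨algebraMap ℂ R ((κ (e j).2 * mon (sp u (ψ (e j).1)) (α (e j).2) : ℂˣ) : ℂ),
        fun χ => ?_⟩
      change ((κ (e j).2 * mon (sp u (Function.update ψ i χ (e j).1)) (α (e j).2) : ℂˣ) : ℂ) = _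
      rw [Function.update_of_ne h, AlgHom.commutes]
      rfl
  · by_cases h : (e j).1 = i
    · refine ⟨((cR R (κ' (e j).2) * mon u (β (e j).2) : Rˣ) : R), fun χ => ?_⟩
      change ((κ' (e j).2 * mon (sp u (Function.update ψ i χ (e j).1)) (β (e j).2) : ℂˣ) : ℂ) = _
      rw [h, Function.update_self, sp_mon_val]
    · refine ⟨algebraMap ℂ R ((κ' (e j).2 * mon (sp u (ψ (e j).1)) (β (e j).2) : ℂˣ) : ℂ),
        fun χ => ?_⟩
      change ((κ' (e j).2 * mon (sp u (Function.update ψ i χ (e j).1)) (β (e j).2) : ℂˣ) : ℂ) = _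
      rw [Function.update_of_ne h, AlgHom.commutes]
      rfl

theorem mon_fsum {V G ι : Type} [Fintype V] [CommGroup G] (u : V → G) (s : Finset ι)
    (b : ι → V → ℤ) : mon u (∑ j ∈ s, b j) = ∏ j ∈ s, mon u (b j) := by
  classical
  induction s using Finset.induction_on with
  | empty => rw [Finset.sum_empty, Finset.prod_empty, mon_zero]
  | insert j s hj ih => rw [Finset.sum_insert hj, Finset.prod_insert hj, mon_add, ih]

theorem mon_subst {L : Type} [Field L] [Algebra ℂ L] {V : Type} [Fintype V] {n : ℕ}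
    (z : Fin n → Lˣ) (u : V → Lˣ) (c : Fin n → ℂˣ) (η : Fin n → V → ℤ)
    (h : ∀ j, z j = cst L (c j) * mon u (η j)) (a : Fin n → ℤ) :
    mon z a = cst L (mon c a) * mon u (fun v => ∑ j, a j * η j v) := by
  have h1 : (fun v => ∑ j, a j * η j v) = ∑ j, a j • η j := by
    funext v
    simp [Finset.sum_apply]
  have h2 : cst L (mon c a) = ∏ j, cst L (c j) ^ a j := by
    rw [mon]
    change Units.map (algebraMap ℂ L : ℂ →* L) _ = _
    rw [map_prod]
    exact Finset.prod_congr rfl fun j _ => map_zpow _ _ _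
  rw [h1, mon_fsum, h2, ← Finset.prod_mul_distrib, mon]
  refine Finset.prod_congr rfl fun j _ => ?_
  rw [h j, mul_zpow, mon_smul]

/-- algebraicity over the subring generated by a family -/
theorem alg_descend {L : Type} [Field L] [Algebra ℂ L] (R : Subalgebra ℂ L) {n : ℕ} (zR : Fin n → R)
    (z : Fin n → L) (h : ∀ f : MvPolynomial (Fin n) ℂ, ((aeval zR f : R) : L) = aeval z f)
    (halg : ∀ x : L, IsAlgebraic (Algebra.adjoin ℂ (Set.range z)) x) (x : R) :
    IsAlgebraic (Algebra.adjoin ℂ (Set.range zR)) x := by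
  classical
  have hinj : ∀ b b' : Algebra.adjoin ℂ (Set.range zR), ((b : R) : L) = ((b' : R) : L) → b = b' :=
    fun b b' hb => Subtype.ext (Subtype.ext hb)
  have hsurj : ∀ y : Algebra.adjoin ℂ (Set.range z), ∃ b : Algebra.adjoin ℂ (Set.range zR),
      ((b : R) : L) = y := by
    rintro ⟨y, hy⟩
    rw [Algebra.adjoin_range_eq_range_aeval] at hy
    obtain ⟨f, hf⟩ := hy
    refine ⟨⟨aeval zR f, ?_⟩, ?_⟩
    · rw [Algebra.adjoin_range_eq_range_aeval]
      exact ⟨f, rfl⟩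
    · change ((aeval zR f : R) : L) = y
      rw [h]
      exact hf
  choose g hg using hsurj
  let gr : Algebra.adjoin ℂ (Set.range z) →+* Algebra.adjoin ℂ (Set.range zR) :=
    { toFun := g
      map_one' := hinj _ _ (by rw [hg]; rfl)
      map_zero' := hinj _ _ (by rw [hg]; rfl)
      map_add' := fun a b => hinj _ _ (by
        rw [hg]
        change (a : L) + (b : L) = ((g a : R) : L) + ((g b : R) : L)
        rw [hg, hg])
      map_mul' := fun a b => hinj _ _ (by
        rw [hg]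
        change (a : L) * (b : L) = ((g a : R) : L) * ((g b : R) : L)
        rw [hg, hg]) }
  have hgr : Function.Injective gr := by
    intro a b hab
    have h1 : ((g a : R) : L) = ((g b : R) : L) := by
      change ((gr a : R) : L) = ((gr b : R) : L)
      rw [hab]
    rw [hg, hg] at h1
    exact Subtype.ext h1
  obtain ⟨p, hp0, hp⟩ := halg (x : L)
  refine ⟨p.map gr, ?_, ?_⟩
  · rwa [Polynomial.map_ne_zero_iff hgr]
  · apply Subtype.ext
    rw [Polynomial.aeval_def, Polynomial.eval₂_map]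
    change R.val (Polynomial.eval₂ _ x p) = 0
    have h2 : R.val (Polynomial.eval₂ ((algebraMap (Algebra.adjoin ℂ (Set.range zR)) R).comp gr) x p) =
        Polynomial.eval₂ ((R.val : R →+* L).comp
          ((algebraMap (Algebra.adjoin ℂ (Set.range zR)) R).comp gr)) (x : L) p :=
      Polynomial.hom_eval₂ _ _ (R.val : R →+* L) _
    rw [h2]
    rw [Polynomial.aeval_def] at hp
    rw [← hp]
    congr 1
    ext a
    exact hg a

/-- **the transfer** -/
theorem t_b (h2 : S_B2) (h3 : S_B3) (h4 : S_B4) (h5 : S_B5) : S_B := by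
  classical
  intro H hE hF n Y hY hd
  by_contra hno
  push Not at hno
  obtain ⟨L, _, _, _, z, hz, halg, htd⟩ := exists_gen hY
  obtain ⟨I, hI, -, hI2⟩ := exists_td ℂ (un z)
  obtain ⟨V, _, G₀, _, u, c, η, κ₀, κ₀', α₀, β₀, hind, hzu, hgate₀, hdet₀⟩ := hE L n z I hI2
  -- independent gates
  let ρ₀ : G₀ → V → L := fun g => row H ((cst L (κ₀ g) * mon u (α₀ g) : Lˣ) : L)
    ((cst L (κ₀' g) * mon u (β₀ g) : Lˣ) : L) (α₀ g) (β₀ g)
  obtain ⟨G, s, hs, hspan, hli⟩ := exists_linearIndependent' L ρ₀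
  have : Finite G := Finite.of_injective s hs
  have : Fintype G := Fintype.ofFinite G
  have hcard : Fintype.card V ≤ Fintype.card G + vdim Y := by
    let T : (V → L) →ₗ[L] ((G → L) × (I → L)) :=
      LinearMap.prod
        (LinearMap.pi fun g => ∑ v, ρ₀ (s g) v • (LinearMap.proj v : (V → L) →ₗ[L] L))
        (LinearMap.pi fun i => ∑ v, (η i v : L) • (LinearMap.proj v : (V → L) →ₗ[L] L))
    have hT : Function.Injective T := by
      rw [injective_iff_map_eq_zero]
      intro δ hδ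
      have e1 : ∀ g, ∑ v, ρ₀ (s g) v * δ v = 0 := by
        intro g
        have := congrFun (congrArg Prod.fst hδ) g
        simpa [T] using this
      have e2 : ∀ i ∈ I, ∑ v, (η i v : L) * δ v = 0 := by
        intro i hi
        have := congrFun (congrArg Prod.snd hδ) ⟨i, hi⟩
        simpa [T] using this
      refine hdet₀ δ (fun g => ?_) e2
      have e3 : ρ₀ g ∈ Submodule.span L (Set.range (ρ₀ ∘ s)) := by
        rw [hspan]
        exact Submodule.subset_span ⟨g, rfl⟩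
      change ∑ v, ρ₀ g v * δ v = 0
      refine Submodule.span_induction (p := fun x _ => ∑ v, x v * δ v = 0) ?_ ?_ ?_ ?_ e3
      · rintro _ ⟨g', rfl⟩
        exact e1 g'
      · simp
      · intro x y _ _ hx hy
        simp only [Pi.add_apply, add_mul, Finset.sum_add_distrib, hx, hy, add_zero]
      · intro a x _ hx
        simp only [Pi.smul_apply, smul_eq_mul, mul_assoc, ← Finset.mul_sum, hx, mul_zero]
    have h6 := LinearMap.finrank_le_finrank_of_injective hT
    rw [Module.finrank_prod, Module.finrank_pi, Module.finrank_pi, Module.finrank_pi,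
      Fintype.card_coe, hI, htd] at h6
    exact h6
  let κ : G → ℂˣ := fun g => κ₀ (s g)
  let κ' : G → ℂˣ := fun g => κ₀' (s g)
  let α : G → V → ℤ := fun g => α₀ (s g)
  let β : G → V → ℤ := fun g => β₀ (s g)
  -- the ring
  let gens : Set L := Set.range (fun v => (u v : L)) ∪ Set.range (fun v => ((u v)⁻¹ : L))
  let R : Subalgebra ℂ L := Algebra.adjoin ℂ gens
  have hgens : gens.Finite := (Set.finite_range _).union (Set.finite_range _)
  have hft : Algebra.FiniteType ℂ R :=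
    (Subalgebra.fg_iff_finiteType R).1 (by
      have e1 := Subalgebra.fg_adjoin_finset (R := ℂ) hgens.toFinset
      rwa [Set.Finite.coe_toFinset] at e1)
  have hu1 : ∀ v, (u v : L) ∈ R := fun v => Algebra.subset_adjoin (Or.inl ⟨v, rfl⟩)
  have hu2 : ∀ v, ((u v)⁻¹ : L) ∈ R := fun v => Algebra.subset_adjoin (Or.inr ⟨v, rfl⟩)
  let uR : V → Rˣ := fun v => ⟨⟨u v, hu1 v⟩, ⟨(u v)⁻¹, hu2 v⟩,
    Subtype.ext (mul_inv_cancel₀ (u v).ne_zero), Subtype.ext (inv_mul_cancel₀ (u v).ne_zero)⟩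
  have huR : ∀ v, Units.map (R.val : R →* L) (uR v) = u v := fun v => Units.ext rfl
  have hmon : ∀ (a : ℂˣ) (b : V → ℤ), ((((cR R a * mon uR b : Rˣ) : R)) : L) =
      ((cst L a * mon u b : Lˣ) : L) := by
    intro a b
    have e1 : Units.map (R.val : R →* L) (cR R a * mon uR b) = cst L a * mon u b := by
      rw [map_mul, map_mon, map_cR]
      have e2 : (fun v => Units.map (R.val : R →* L) (uR v)) = u := funext huR
      rw [e2]
      rfl
    exact congrArg Units.val e1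
  let zR : Fin n → Rˣ := fun j => cR R (c j) * mon uR (η j)
  have hzR : ∀ j, ((zR j : R) : L) = z j := by
    intro j
    rw [hzu j]
    exact hmon _ _
  have hzRf : ∀ f : MvPolynomial (Fin n) ℂ, ((aeval (fun i => (zR i : R)) f : R) : L) =
      aeval (un z) f := by
    intro f
    have e1 : (R.val : R →ₐ[ℂ] L) (aeval (fun i => (zR i : R)) f) =
        aeval (fun i => ((zR i : R) : L)) f := by
      rw [comp_aeval_apply]
      rfl
    have e2 : (fun i => ((zR i : R) : L)) = un z := funext hzR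
    rw [← e2]
    exact e1
  have halgR : ∀ x : R, IsAlgebraic (Algebra.adjoin ℂ (Set.range fun i => (zR i : R))) x :=
    alg_descend R (fun i => (zR i : R)) (un z) hzRf halg
  have hdense : ∀ b : R, b ≠ 0 → ∃ ψ ∈ {ψ : R →ₐ[ℂ] ℂ | vdim Y + 1 ≤ dr (sp zR ψ)}, ψ b ≠ 0 := by
    intro b hb
    obtain ⟨ψ, h6, h7⟩ := exists_low h2 (vdim Y + 1) hd R zR
      (fun f hf => by rw [← hz, ← hzRf, hf]; rfl)
      (fun f hf => by
        apply Subtype.ext
        rw [hzRf, (hz f).2 hf]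
        rfl) halgR b hb
    exact ⟨ψ, h6, h7⟩
  -- the gates over `R`
  have hgateR : ∀ g, hv H ((cR R (κ g) * mon uR (α g) : Rˣ) : R)
      ((cR R (κ' g) * mon uR (β g) : Rˣ) : R) = 0 := by
    intro g
    apply Subtype.ext
    change R.val (hv H _ _) = _
    rw [hv_map]
    change hv H ((((cR R (κ g) * mon uR (α g) : Rˣ) : R)) : L)
      ((((cR R (κ' g) * mon uR (β g) : Rˣ) : R)) : L) = _
    rw [hmon, hmon]
    exact hgate₀ (s g)
  obtain ⟨b, hb, hrows⟩ := exists_rows (R := R) (L := L) (fun g : G => rw0 H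
    ((cR R (κ g) * mon uR (α g) : Rˣ) : R) ((cR R (κ' g) * mon uR (β g) : Rˣ) : R) (α g) (β g)) (by
      have e1 : (fun g : G => fun v => algebraMap R L (rw0 H
          ((cR R (κ g) * mon uR (α g) : Rˣ) : R) ((cR R (κ' g) * mon uR (β g) : Rˣ) : R)
            (α g) (β g) v)) = ρ₀ ∘ s := by
        funext g v
        change R.val (rw0 H _ _ _ _ v) = _
        rw [rw0_map]
        change rw0 H ((((cR R (κ g) * mon uR (α g) : Rˣ) : R)) : L)
          ((((cR R (κ' g) * mon uR (β g) : Rˣ) : R)) : L) _ _ _ = _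
        rw [hmon, hmon]
        rfl
      rw [e1]
      exact hli)
  obtain ⟨ψ₀, -, hψ₀⟩ := hdense b hb
  have hrow := hrows ψ₀ hψ₀
  -- the parameters
  let r : ℕ := 2 * Fintype.card G + n + 1
  let k : ℕ := Fintype.card (Fin r × G)
  let e : Fin k ≃ Fin r × G := (Fintype.equivFin (Fin r × G)).symm
  obtain ⟨𝒜, h𝒜, hA, hcov⟩ := hF k
  have hindR : ∀ (a : V → ℤ) (x : ℂ), ((mon uR a : Rˣ) : R) = algebraMap ℂ R x → a = 0 := by
    intro a x hx
    have hx0 : x ≠ 0 := by
      rintro rfl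
      rw [map_zero] at hx
      exact (mon uR a).ne_zero hx
    refine hind a (Units.mk0 x hx0) (Units.ext ?_)
    have e1 := hmon 1 a
    have e2 : cR R 1 = 1 := map_one _
    rw [e2, one_mul, cst_one', one_mul, hx] at e1
    exact e1.symm
  have hpow : ∀ ψ : Fin r → (R →ₐ[ℂ] ℂ), om e κ κ' α β (fun i => sp uR (ψ i)) ∈ power H k := by
    intro ψ j
    change hv H ((κ (e j).2 * mon (sp uR (ψ (e j).1)) (α (e j).2) : ℂˣ) : ℂ)
      ((κ' (e j).2 * mon (sp uR (ψ (e j).1)) (β (e j).2) : ℂˣ) : ℂ) = 0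
    rw [sp_mon_val, sp_mon_val, ← hv_map, hgateR, map_zero]
  by_cases hall : ∃ A ∈ 𝒜, ∀ ψ : Fin r → (R →ₐ[ℂ] ℂ), om e κ κ' α β (fun i => sp uR (ψ i)) ∈ A
  · obtain ⟨A, hA1, hA2⟩ := hall
    obtain ⟨hA3, hA4, hA5⟩ := hA A hA1
    refine h5 H R V G uR κ κ' α β r k e hindR (fun b hb => ?_) ψ₀ ?_ A hA3 hA4 hA2 hA5
    · obtain ⟨ψ, -, h6⟩ := hdense b hb
      exact ⟨ψ, h6⟩
    · have e1 : (fun g : G => row H ((κ g * mon (sp uR ψ₀) (α g) : ℂˣ) : ℂ)
          ((κ' g * mon (sp uR ψ₀) (β g) : ℂˣ) : ℂ) (α g) (β g)) = fun g : G => fun v =>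
          ψ₀ (rw0 H ((cR R (κ g) * mon uR (α g) : Rˣ) : R)
            ((cR R (κ' g) * mon uR (β g) : Rˣ) : R) (α g) (β g) v) := by
        funext g v
        rw [rw0_map, ← sp_mon_val, ← sp_mon_val]
        rfl
      rw [e1]
      exact hrow
  · push Not at hall
    have hf0 : ∀ A : 𝒜, ∃ f ∈ van (A : Set (Fin k ⊕ Fin k → ℂˣ)), ∃ ψ : Fin r → (R →ₐ[ℂ] ℂ),
        MvPolynomial.eval (fun t => ((om e κ κ' α β (fun i => sp uR (ψ i)) t : ℂˣ) : ℂ)) f ≠ 0 := by
      rintro ⟨A, hA1⟩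
      obtain ⟨ψ, hψ⟩ := hall A hA1
      rw [← (hA A hA1).1.closed.eq] at hψ
      simp only [zeros, Set.mem_ofPred_eq, not_forall] at hψ
      obtain ⟨f, hf, hf2⟩ := hψ
      exact ⟨f, hf, ψ, hf2⟩
    choose f hf hf2 using hf0
    have : Finite 𝒜 := h𝒜.to_subtype
    have : Fintype 𝒜 := Fintype.ofFinite 𝒜
    obtain ⟨ψ, hψ1, hψ2⟩ := h3 R {ψ : R →ₐ[ℂ] ℂ | vdim Y + 1 ≤ dr (sp zR ψ)} hdense r 𝒜
      (fun A ψ => MvPolynomial.eval
        (fun t => ((om e κ κ' α β (fun i => sp uR (ψ i)) t : ℂˣ) : ℂ)) (f A)) (by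
        intro A ψ i
        choose b hb using om_coord e κ κ' α β uR ψ i
        refine ⟨aeval b (f A), fun χ => ?_⟩
        rw [comp_aeval_apply]
        have e1 : (fun t => ((om e κ κ' α β
            (fun l => sp uR (Function.update ψ i χ l)) t : ℂˣ) : ℂ)) = fun t => χ (b t) :=
          funext fun t => hb t χ
        rw [e1]
        rfl) hf2
    have hrank := h4 r n (vdim Y) k G V e α β η κ κ' c (fun i => sp uR (ψ i))
      (fun i => sp zR (ψ i)) hcard (by omega) (fun i j => ?_) hψ1 (fun a ha ha2 => ?_)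
    · obtain ⟨A, hA1, hA2⟩ := hcov _ (hpow ψ) hrank
      exact hψ2 ⟨A, hA1⟩ (hf ⟨A, hA1⟩ _ hA2)
    · rw [sp_mon]
      rfl
    · by_contra ha0
      obtain ⟨x, hxY, hx⟩ := hno a ha0
      apply hx
      have e1 : mon z a = 1 := by
        have e2 : mon z a = cst L (mon c a) * mon u (fun v => ∑ j, a j * η j v) :=
          mon_subst z u c η hzu a
        rw [e2, ha2, cst_one', one_mul]
        have e3 : (fun v => ∑ j, a j * η j v) = 0 := funext ha
        rw [e3, mon_zero]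
      have e4 : (binom 1 a : MvPolynomial (Fin n) ℂ) ∈ van Y := by
        rw [← hz, aeval_binom, e1, map_one, Units.val_one]
      have e5 := e4 x hxY
      rw [ev_eq, aeval_binom, map_one] at e5
      exact Units.ext e5

end Pool.Agent.Helper60.ZC
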