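import Pool.Graph.R_pool_sql_team_seeded_63374d34.N902.OP.GeoU
import Pool.Graph.R_pool_sql_team_seeded_f72693b1.W206.CT.E1

/-!
# Zilber's conjecture and the powers of one curve: definitions and the statements of the parts

From the library (`R948`): `mon z a = ∏ z_i ^ a_i`, `dr z` (the rank of the lattice of the multiplicative
relations of `z`), `td F z` (transcendence degree), `Subvariety`, `van`, `vdim`, `defect`, `Optimal`.
-/

set_option autoImplicit false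

namespace Pool.Agent.Helper60.ZC

open MvPolynomial Pool.Agent.R948

/-- a nonzero complex number as a unit of an extension field -/
noncomputable def cst (L : Type) [Field L] [Algebra ℂ L] (c : ℂˣ) : Lˣ :=
  Units.map (algebraMap ℂ L : ℂ →* L) c

/-- the value `H(x, y)` -/
noncomputable def hv {L : Type} [CommRing L] [Algebra ℂ L] (H : MvPolynomial (Fin 2) ℂ) (x y : L) : L :=
  aeval ![x, y] H

/-- the `k`-th power of the curve `H(x, y) = 0` in `G_m ^ 2` -/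
def power (H : MvPolynomial (Fin 2) ℂ) (k : ℕ) : Set (Fin k ⊕ Fin k → ℂˣ) :=
  {z | ∀ i, hv H (z (Sum.inl i) : ℂ) (z (Sum.inr i) : ℂ) = 0}

/-- the points of rank `< k` of the `k`-th power lie in finitely many atypical subvarieties -/
def FinPts (H : MvPolynomial (Fin 2) ℂ) (k : ℕ) : Prop :=
  ∃ 𝒜 : Set (Set (Fin k ⊕ Fin k → ℂˣ)), 𝒜.Finite ∧
    (∀ A ∈ 𝒜, Subvariety A ∧ A ⊆ power H k ∧ defect A < k) ∧
    ∀ z ∈ power H k, k + 1 ≤ dr z → ∃ A ∈ 𝒜, z ∈ A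

/-- the logarithmic gradient of `H(x, y)` if `x` and `y` are constant multiples of the monomials with
exponents `a` and `b` -/
noncomputable def row {L V : Type} [Field L] [Algebra ℂ L] (H : MvPolynomial (Fin 2) ℂ) (x y : L)
    (a b : V → ℤ) : V → L :=
  fun v => x * hv (pderiv 0 H) x y * (a v : L) + y * hv (pderiv 1 H) x y * (b v : L)

/-- **Encoding** (proved in part A for unbalanced curves): every tuple `w` which is algebraic over some of
its coordinates `w_i`, `i ∈ I`, is given by monomials in a tuple `u`, which is multiplicatively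
independent modulo constants, and there are gates (pairs of monomials on the curve) which determine all
logarithmic derivatives of the `u_v` from those of the `w_i`, `i ∈ I`. -/
def Enc (H : MvPolynomial (Fin 2) ℂ) : Prop :=
  ∀ (L : Type) [Field L] [Algebra ℂ L] [IsAlgClosed L] (n : ℕ) (w : Fin n → Lˣ) (I : Finset (Fin n)),
    (∀ i, IsAlgebraic (Algebra.adjoin ℂ ((fun j => (w j : L)) '' (I : Set (Fin n)))) (w i : L)) →
    ∃ (V : Type) (_ : Fintype V) (G : Type) (_ : Fintype G) (u : V → Lˣ) (c : Fin n → ℂˣ)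
      (η : Fin n → V → ℤ) (κ κ' : G → ℂˣ) (α β : G → V → ℤ),
      (∀ (a : V → ℤ) (z : ℂˣ), mon u a = cst L z → a = 0) ∧
      (∀ i, w i = cst L (c i) * mon u (η i)) ∧
      (∀ g, hv H ((cst L (κ g) * mon u (α g) : Lˣ) : L) ((cst L (κ' g) * mon u (β g) : Lˣ) : L) = 0) ∧
      ∀ δ : V → L, (∀ g, ∑ v, row H ((cst L (κ g) * mon u (α g) : Lˣ) : L)
          ((cst L (κ' g) * mon u (β g) : Lˣ) : L) (α g) (β g) v * δ v = 0) →
        (∀ i ∈ I, ∑ v, (η i v : L) * δ v = 0) → δ = 0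

/-- Zilber's conjecture in the notation of the library -/
def ZilR : Prop :=
  ∀ (n : ℕ) (Y : Set (Fin n → ℂˣ)), Subvariety Y →
    (∀ f : MvPolynomial (Fin n) ℂ, (∀ x ∈ Y, vdim Y + 1 ≤ dr x →
      MvPolynomial.eval (fun i => (x i : ℂ)) f = 0) →
        ∀ x ∈ Y, MvPolynomial.eval (fun i => (x i : ℂ)) f = 0) →
    ∃ a : Fin n → ℤ, a ≠ 0 ∧ ∀ x ∈ Y, mon x a = 1

/-- the point of `R` in the torus given by a homomorphism to `ℂ` -/
noncomputable def sp {R V : Type} [CommRing R] [Algebra ℂ R] (u : V → Rˣ) (ψ : R →ₐ[ℂ] ℂ) : V → ℂˣ :=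
  fun v => Units.map (ψ : R →* ℂ) (u v)

/-- the point of the `k`-th power given by `r` points `u' i` of the torus with coordinates `V` and the
gates `g ∈ G`, if the `k` factors are numbered by `Fin r × G` -/
noncomputable def om {G V : Type} [Fintype V] {r k : ℕ} (e : Fin k ≃ Fin r × G) (κ κ' : G → ℂˣ)
    (α β : G → V → ℤ) (u' : Fin r → V → ℂˣ) : Fin k ⊕ Fin k → ℂˣ :=
  Sum.elim (fun i => κ (e i).2 * mon (u' (e i).1) (α (e i).2))
    (fun i => κ' (e i).2 * mon (u' (e i).1) (β (e i).2))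

/-- **B2** (extension of closed points). -/
def S_B2 : Prop :=
  ∀ (R : Type) [CommRing R] [IsDomain R] [Algebra ℂ R] [Algebra.FiniteType ℂ R]
    (R₀ : Subalgebra ℂ R), (∀ x : R, IsAlgebraic R₀ x) → ∀ b : R, b ≠ 0 →
    ∃ a : R₀, a ≠ 0 ∧ ∀ ψ₀ : R₀ →ₐ[ℂ] ℂ, ψ₀ a ≠ 0 →
      ∃ ψ : R →ₐ[ℂ] ℂ, (∀ x : R₀, ψ x = ψ₀ x) ∧ ψ b ≠ 0

/-- **B3** (tuples of points in a dense set). -/
def S_B3 : Prop :=
  ∀ (R : Type) [CommRing R] [IsDomain R] [Algebra ℂ R] (𝒟 : Set (R →ₐ[ℂ] ℂ)),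
    (∀ b : R, b ≠ 0 → ∃ ψ ∈ 𝒟, ψ b ≠ 0) →
    ∀ (r : ℕ) (J : Type) [Fintype J] (Φ : J → (Fin r → (R →ₐ[ℂ] ℂ)) → ℂ),
      (∀ j (ψ : Fin r → (R →ₐ[ℂ] ℂ)) (i : Fin r), ∃ b : R, ∀ χ, Φ j (Function.update ψ i χ) = χ b) →
      (∀ j, ∃ ψ, Φ j ψ ≠ 0) → ∃ ψ : Fin r → (R →ₐ[ℂ] ℂ), (∀ i, ψ i ∈ 𝒟) ∧ ∀ j, Φ j ψ ≠ 0

/-- **B4** (the rank of the relations of a tuple of points). -/
def S_B4 : Prop :=
  ∀ (r n d k : ℕ) (G V : Type) [Fintype G] [Fintype V] (e : Fin k ≃ Fin r × G) (α β : G → V → ℤ)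
    (η : Fin n → V → ℤ) (κ κ' : G → ℂˣ) (c : Fin n → ℂˣ) (u' : Fin r → V → ℂˣ)
    (y : Fin r → Fin n → ℂˣ),
    Fintype.card V ≤ Fintype.card G + d → 2 * Fintype.card G + n < r →
    (∀ i j, y i j = c j * mon (u' i) (η j)) → (∀ i, d + 1 ≤ dr (y i)) →
    (∀ a : Fin n → ℤ, (∀ v, ∑ j, a j * η j v = 0) → mon c a = 1 → a = 0) →
    k + 1 ≤ dr (om e κ κ' α β u')

/-- **B5** (no atypical subvariety contains all tuples of points). -/
def S_B5 : Prop :=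
  ∀ (H : MvPolynomial (Fin 2) ℂ) (R : Type) [CommRing R] [IsDomain R] [Algebra ℂ R]
    [Algebra.FiniteType ℂ R] (V G : Type) [Fintype V] [Fintype G] (u : V → Rˣ) (κ κ' : G → ℂˣ)
    (α β : G → V → ℤ) (r k : ℕ) (e : Fin k ≃ Fin r × G),
    (∀ (a : V → ℤ) (z : ℂ), ((mon u a : Rˣ) : R) = algebraMap ℂ R z → a = 0) →
    (∀ b : R, b ≠ 0 → ∃ ψ : R →ₐ[ℂ] ℂ, ψ b ≠ 0) →
    ∀ ψ₀ : R →ₐ[ℂ] ℂ, LinearIndependent ℂ (fun g : G =>
      row H ((κ g * mon (sp u ψ₀) (α g) : ℂˣ) : ℂ) ((κ' g * mon (sp u ψ₀) (β g) : ℂˣ) : ℂ)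
        (α g) (β g)) →
    ∀ A : Set (Fin k ⊕ Fin k → ℂˣ), Subvariety A → A ⊆ power H k →
      (∀ ψ : Fin r → (R →ₐ[ℂ] ℂ), om e κ κ' α β (fun i => sp u (ψ i)) ∈ A) → ¬ defect A < k

/-- **B** (the transfer). -/
def S_B : Prop := ∀ H : MvPolynomial (Fin 2) ℂ, Enc H → (∀ k, FinPts H k) → ZilR

end Pool.Agent.Helper60.ZC
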