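import Mathlib

/-!
# Places of a field of functions, with values in `ℂ`
-/

set_option autoImplicit false

namespace Pool.Agent.Helper60.ZC

open Polynomial

/-- A place of `K` over `ℂ`: `R x a` says that `x` is finite at the place and has the value `a`. -/
structure Plc (K : Type) [Field K] [Algebra ℂ K] where
  R : K → ℂ → Prop
  const : ∀ c : ℂ, R (algebraMap ℂ K c) c
  uniq : ∀ x a b, R x a → R x b → a = b
  add : ∀ x y a b, R x a → R y b → R (x + y) (a + b)
  mul : ∀ x y a b, R x a → R y b → R (x * y) (a * b)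
  alt : ∀ x : K, x ≠ 0 → (∃ c, R x c) ∨ R x⁻¹ 0

namespace Plc

variable {K : Type} [Field K] [Algebra ℂ K] (P : Plc K)

theorem zero : P.R 0 0 := by
  have h := P.const 0
  rwa [map_zero] at h

theorem one : P.R 1 1 := by
  have h := P.const 1
  rwa [map_one] at h

theorem ne_zero {x : K} {a : ℂ} (h : P.R x a) (ha : a ≠ 0) : x ≠ 0 := by
  rintro rfl
  exact ha (P.uniq _ _ _ h P.zero)

theorem inv {x : K} {a : ℂ} (h : P.R x a) (ha : a ≠ 0) : P.R x⁻¹ a⁻¹ := by
  have hx := P.ne_zero h ha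
  rcases P.alt x⁻¹ (inv_ne_zero hx) with ⟨c, hc⟩ | h1
  · have h2 := P.mul _ _ _ _ h hc
    rw [mul_inv_cancel₀ hx] at h2
    have h3 := P.uniq _ _ _ h2 P.one
    rwa [← eq_inv_of_mul_eq_one_right h3]
  · rw [inv_inv] at h1
    exact absurd (P.uniq _ _ _ h h1) ha

theorem neg {x : K} {a : ℂ} (h : P.R x a) : P.R (-x) (-a) := by
  have h1 := P.mul _ _ _ _ (P.const (-1)) h
  rwa [map_neg, map_one, neg_one_mul, neg_one_mul] at h1

theorem sub {x y : K} {a b : ℂ} (h : P.R x a) (h' : P.R y b) : P.R (x - y) (a - b) := by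
  rw [sub_eq_add_neg, sub_eq_add_neg]
  exact P.add _ _ _ _ h (P.neg h')

theorem pow {x : K} {a : ℂ} (h : P.R x a) (n : ℕ) : P.R (x ^ n) (a ^ n) := by
  induction n with
  | zero => rw [pow_zero, pow_zero]; exact P.one
  | succ n ih => rw [pow_succ, pow_succ]; exact P.mul _ _ _ _ ih h

theorem zpow {x : K} {a : ℂ} (h : P.R x a) (ha : a ≠ 0) (n : ℤ) : P.R (x ^ n) (a ^ n) := by
  cases n with
  | ofNat n => simpa using P.pow h n
  | negSucc n =>
    rw [zpow_negSucc, zpow_negSucc]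
    exact P.inv (P.pow h _) (pow_ne_zero _ ha)

theorem smul {x : K} {a : ℂ} (h : P.R x a) (c : ℂ) : P.R (algebraMap ℂ K c * x) (c * a) :=
  P.mul _ _ _ _ (P.const c) h

theorem sum {ι : Type} (s : Finset ι) (x : ι → K) (a : ι → ℂ) (h : ∀ i ∈ s, P.R (x i) (a i)) :
    P.R (∑ i ∈ s, x i) (∑ i ∈ s, a i) := by
  classical
  induction s using Finset.induction_on with
  | empty => simpa using P.zero
  | insert i s hi ih =>
    rw [Finset.sum_insert hi, Finset.sum_insert hi]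
    exact P.add _ _ _ _ (h i (Finset.mem_insert_self _ _))
      (ih fun j hj => h j (Finset.mem_insert_of_mem hj))

theorem prod {ι : Type} (s : Finset ι) (x : ι → K) (a : ι → ℂ) (h : ∀ i ∈ s, P.R (x i) (a i)) :
    P.R (∏ i ∈ s, x i) (∏ i ∈ s, a i) := by
  classical
  induction s using Finset.induction_on with
  | empty => simpa using P.one
  | insert i s hi ih =>
    rw [Finset.prod_insert hi, Finset.prod_insert hi]
    exact P.mul _ _ _ _ (h i (Finset.mem_insert_self _ _))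
      (ih fun j hj => h j (Finset.mem_insert_of_mem hj))

theorem aeval {x : K} {a : ℂ} (h : P.R x a) (p : ℂ[X]) : P.R (Polynomial.aeval x p) (p.eval a) := by
  rw [aeval_eq_sum_range, eval_eq_sum_range]
  refine P.sum _ _ _ fun i _ => ?_
  rw [Algebra.smul_def]
  exact P.smul (P.pow h i) _

/-- the element is a unit at the place -/
def Unt (x : K) : Prop := ∃ c : ℂ, c ≠ 0 ∧ P.R x c

/-- zero or pole -/
def Spc (x : K) : Prop := P.R x 0 ∨ P.R x⁻¹ 0

variable {P}

theorem Unt.ne_zero {x : K} (h : P.Unt x) : x ≠ 0 := by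
  obtain ⟨c, hc, h⟩ := h
  exact P.ne_zero h hc

theorem Unt.one : P.Unt 1 := ⟨1, one_ne_zero, P.one⟩

theorem Unt.const {c : ℂ} (hc : c ≠ 0) : P.Unt (algebraMap ℂ K c) := ⟨c, hc, P.const c⟩

theorem Unt.mul {x y : K} (h : P.Unt x) (h' : P.Unt y) : P.Unt (x * y) := by
  obtain ⟨c, hc, h⟩ := h
  obtain ⟨d, hd, h'⟩ := h'
  exact ⟨c * d, mul_ne_zero hc hd, P.mul _ _ _ _ h h'⟩

theorem Unt.inv {x : K} (h : P.Unt x) : P.Unt x⁻¹ := by
  obtain ⟨c, hc, h⟩ := h
  exact ⟨c⁻¹, inv_ne_zero hc, P.inv h hc⟩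

theorem Unt.zpow {x : K} (h : P.Unt x) (n : ℤ) : P.Unt (x ^ n) := by
  obtain ⟨c, hc, h⟩ := h
  exact ⟨c ^ n, zpow_ne_zero _ hc, P.zpow h hc n⟩

theorem Unt.pow {x : K} (h : P.Unt x) (n : ℕ) : P.Unt (x ^ n) := by
  obtain ⟨c, hc, h⟩ := h
  exact ⟨c ^ n, pow_ne_zero _ hc, P.pow h n⟩

theorem not_unt_of_zero {x : K} (h : P.R x 0) : ¬ P.Unt x := by
  rintro ⟨c, hc, h'⟩
  exact hc (P.uniq _ _ _ h' h)

theorem Spc.not_unt {x : K} (h : P.Spc x) : ¬ P.Unt x := by
  intro hu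
  rcases h with h | h
  · exact not_unt_of_zero h hu
  · exact not_unt_of_zero h hu.inv

theorem unt_or_spc {x : K} (hx : x ≠ 0) : P.Unt x ∨ P.Spc x := by
  rcases P.alt x hx with ⟨c, hc⟩ | h
  · by_cases h0 : c = 0
    · subst h0
      exact Or.inr (Or.inl hc)
    · exact Or.inl ⟨c, h0, hc⟩
  · exact Or.inr (Or.inr h)

theorem Spc.inv {x : K} (h : P.Spc x) : P.Spc x⁻¹ := by
  rcases h with h | h
  · exact Or.inr (by rwa [inv_inv])
  · exact Or.inl h

theorem Spc.pow {x : K} (h : P.Spc x) {n : ℕ} (hn : n ≠ 0) : P.Spc (x ^ n) := by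
  rcases h with h | h
  · refine Or.inl ?_
    have h1 := P.pow h n
    rwa [zero_pow hn] at h1
  · refine Or.inr ?_
    have h1 := P.pow h n
    rw [zero_pow hn, inv_pow] at h1
    exact h1

theorem Spc.zpow {x : K} (h : P.Spc x) {n : ℤ} (hn : n ≠ 0) : P.Spc (x ^ n) := by
  obtain ⟨m, rfl | rfl⟩ := Int.eq_nat_or_neg n
  · rw [zpow_natCast]
    exact h.pow (by omega)
  · rw [zpow_neg, zpow_natCast]
    exact (h.pow (by omega)).inv

/-- the exponents in `x ^ n * unit` are determined -/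
theorem zpow_unt {x : K} (h : P.Spc x) {n : ℤ} (hu : P.Unt (x ^ n)) : n = 0 := by
  by_contra hn
  exact (h.zpow hn).not_unt hu

variable (P)

/-- pull back of a place -/
def comap {K' : Type} [Field K'] [Algebra ℂ K'] (φ : K' →ₐ[ℂ] K) : Plc K' where
  R x a := P.R (φ x) a
  const c := by rw [φ.commutes]; exact P.const c
  uniq x a b h h' := P.uniq _ _ _ h h'
  add x y a b h h' := by rw [map_add]; exact P.add _ _ _ _ h h'
  mul x y a b h h' := by rw [map_mul]; exact P.mul _ _ _ _ h h'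
  alt x hx := by
    rcases P.alt (φ x) ((map_ne_zero φ).2 hx) with h | h
    · exact Or.inl h
    · refine Or.inr ?_
      rw [map_inv₀]
      exact h

end Plc

/-- the polynomial in `z` for a given value of `u` -/
noncomputable def px {K : Type} [Field K] [Algebra ℂ K] (F : ℂ[X][X]) (u : K) : K[X] :=
  F.map ((aeval u : ℂ[X] →ₐ[ℂ] K) : ℂ[X] →+* K)

/-- **EX** (existence of places) -/
def S_EX : Prop :=
  ∀ (K : Type) [Field K] [Algebra ℂ K] (x : K), Transcendental ℂ x →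
    (∀ y : K, IsAlgebraic (Algebra.adjoin ℂ {x}) y) → ∃ P : Plc K, P.R x 0

/-- **NEW** (Newton): the orders of the roots are bounded -/
def S_NEW : Prop :=
  ∀ (K : Type) [Field K] [Algebra ℂ K] (F : ℂ[X][X]) (D : ℕ), F ≠ 0 →
    (∀ i, (F.coeff i).natDegree ≤ D) →
    ∀ (P : Plc K) (z μ : K), z ≠ 0 → μ ≠ 0 → P.Spc μ → (px F μ).eval z = 0 →
      ∃ p : ℤ, |p| ≤ (D * F.natDegree.factorial : ℕ) ∧
        P.Unt (z ^ F.natDegree.factorial * μ ^ (-p))

/-- **RES** (finiteness of the values) -/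
def S_RES : Prop :=
  ∀ (K : Type) [Field K] [Algebra ℂ K] (s μ : K), Transcendental ℂ μ →
    IsAlgebraic (Algebra.adjoin ℂ {μ}) s →
    {ρ : ℂ | ∃ P : Plc K, P.R μ 0 ∧ P.R s ρ}.Finite

end Pool.Agent.Helper60.ZC
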