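import Mathlib
import Pool.Agent.Helper60.ZC.P0

/-!
# Newton: the orders of the roots are bounded (module by helper21)
-/

set_option autoImplicit false

namespace Pool.Agent.Helper60.ZC

open Polynomial

/-- a finite nonempty family of nonzero elements has a member of least order. -/
lemma exists_least {K : Type} [Field K] [Algebra ℂ K] (P : Plc K) {ι : Type} (S : Finset ι)
    (m : ι → K) (hm : ∀ s ∈ S, m s ≠ 0) (hS : S.Nonempty) :
    ∃ s0 ∈ S, ∀ s ∈ S, ∃ r, P.R (m s / m s0) r := by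
  classical
  induction hS using Finset.Nonempty.cons_induction with
  | singleton a =>
    refine ⟨a, Finset.mem_singleton_self a, fun s hs => ?_⟩
    rw [Finset.mem_singleton] at hs
    subst hs
    exact ⟨1, by rw [div_self (hm s (Finset.mem_singleton_self s))]; exact P.one⟩
  | cons a s ha hs ih =>
    obtain ⟨s0, hs0, h⟩ := ih fun t ht => hm t (Finset.mem_cons_of_mem ht)
    have hma := hm a (Finset.mem_cons_self a s)
    have hm0 := hm s0 (Finset.mem_cons_of_mem hs0)
    rcases P.alt (m a / m s0) (div_ne_zero hma hm0) with hc | hc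
    · refine ⟨s0, Finset.mem_cons_of_mem hs0, fun t ht => ?_⟩
      rcases Finset.mem_cons.mp ht with rfl | ht
      · exact hc
      · exact h t ht
    · rw [inv_div] at hc
      refine ⟨a, Finset.mem_cons_self a s, fun t ht => ?_⟩
      rcases Finset.mem_cons.mp ht with rfl | ht
      · exact ⟨1, by rw [div_self hma]; exact P.one⟩
      · obtain ⟨r, hr⟩ := h t ht
        have h1 := P.mul _ _ _ _ hr hc
        rw [div_mul_div_cancel₀ hm0] at h1
        exact ⟨_, h1⟩

theorem t_new : S_NEW := by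
  classical
  intro K _ _ F D hF hD P z μ hz hμ hsp hroot
  set d := F.natDegree with hd
  set c : ℕ × ℕ → ℂ := fun s => (F.coeff s.1).coeff s.2 with hc
  set m : ℕ × ℕ → K := fun s => z ^ s.1 * μ ^ s.2 with hm
  have hm0 : ∀ s, m s ≠ 0 := fun s => mul_ne_zero (pow_ne_zero _ hz) (pow_ne_zero _ hμ)
  set S : Finset (ℕ × ℕ) := (Finset.range (d + 1) ×ˢ Finset.range (D + 1)).filter (fun s => c s ≠ 0)
    with hS
  have hsum : ∑ s ∈ S, algebraMap ℂ K (c s) * m s = 0 := by
    have h1 : (px F μ).eval z = ∑ i ∈ Finset.range (d + 1), ∑ j ∈ Finset.range (D + 1),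
        algebraMap ℂ K ((F.coeff i).coeff j) * (z ^ i * μ ^ j) := by
      rw [px, eval_map, eval₂_eq_sum_range]
      refine Finset.sum_congr rfl fun i _ => ?_
      rw [RingHom.coe_coe, aeval_eq_sum_range' (Nat.lt_succ_of_le (hD i)), Finset.sum_mul]
      refine Finset.sum_congr rfl fun j _ => ?_
      rw [Algebra.smul_def]
      ring
    rw [hroot] at h1
    rw [hS, Finset.sum_filter, Finset.sum_product]
    refine Eq.trans ?_ h1.symm
    refine Finset.sum_congr rfl fun i _ => Finset.sum_congr rfl fun j _ => ?_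
    by_cases h0 : c (i, j) = 0
    · rw [if_neg (by simpa using h0)]
      have h2 : (F.coeff i).coeff j = 0 := h0
      rw [h2, map_zero, zero_mul]
    · rw [if_pos h0]
  have hSne : S.Nonempty := by
    have h1 : F.coeff d ≠ 0 := by
      rw [hd, coeff_natDegree]
      exact leadingCoeff_ne_zero.mpr hF
    refine ⟨(d, (F.coeff d).natDegree), ?_⟩
    rw [hS, Finset.mem_filter, Finset.mem_product]
    refine ⟨⟨Finset.mem_range.mpr (Nat.lt_succ_self _),
      Finset.mem_range.mpr (Nat.lt_succ_of_le (hD d))⟩, ?_⟩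
    change (F.coeff d).coeff (F.coeff d).natDegree ≠ 0
    rw [coeff_natDegree]
    exact leadingCoeff_ne_zero.mpr h1
  obtain ⟨s0, hs0, hmin⟩ := exists_least P S m (fun s _ => hm0 s) hSne
  have hex : ∀ s, ∃ r, s ∈ S → P.R (m s / m s0) r := by
    intro s
    by_cases h : s ∈ S
    · obtain ⟨r, hr⟩ := hmin s h
      exact ⟨r, fun _ => hr⟩
    · exact ⟨0, fun h' => absurd h' h⟩
  choose r hr using hex
  have hr0 : r s0 = 1 := by
    have h1 := hr s0 hs0
    rw [div_self (hm0 s0)] at h1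
    exact P.uniq _ _ _ h1 P.one
  have hzero : ∑ s ∈ S, c s * r s = 0 := by
    have h1 := P.sum S (fun s => algebraMap ℂ K (c s) * (m s / m s0)) (fun s => c s * r s)
      fun s hs => P.smul (hr s hs) _
    have h2 : ∑ s ∈ S, algebraMap ℂ K (c s) * (m s / m s0) = 0 := by
      have h3 : ∑ s ∈ S, algebraMap ℂ K (c s) * (m s / m s0) =
          (∑ s ∈ S, algebraMap ℂ K (c s) * m s) / m s0 := by
        rw [Finset.sum_div]
        exact Finset.sum_congr rfl fun s _ => (mul_div_assoc _ _ _).symm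
      rw [h3, hsum, zero_div]
    rw [h2] at h1
    exact P.uniq _ _ _ h1 P.zero
  obtain ⟨s, hs, hne, hrs⟩ : ∃ s ∈ S, s ≠ s0 ∧ r s ≠ 0 := by
    by_contra hcon
    push Not at hcon
    rw [Finset.sum_eq_single_of_mem s0 hs0 fun t ht htne => by rw [hcon t ht htne, mul_zero],
      hr0, mul_one] at hzero
    exact (Finset.mem_filter.mp hs0).2 hzero
  have hbd : ∀ t ∈ S, t.1 ≤ d ∧ t.2 ≤ D := by
    intro t ht
    have h1 := Finset.mem_product.mp (Finset.mem_filter.mp ht).1
    exact ⟨Nat.lt_succ_iff.mp (Finset.mem_range.mp h1.1), Nat.lt_succ_iff.mp (Finset.mem_range.mp h1.2)⟩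
  obtain ⟨hi, hj⟩ := hbd s hs
  obtain ⟨hi0, hj0⟩ := hbd s0 hs0
  set a : ℤ := (s.1 : ℤ) - s0.1 with ha
  set b : ℤ := (s.2 : ℤ) - s0.2 with hb
  have hU : P.Unt (z ^ a * μ ^ b) := by
    refine ⟨r s, hrs, ?_⟩
    have h1 := hr s hs
    have h2 : m s / m s0 = z ^ a * μ ^ b := by
      rw [ha, hb, zpow_sub₀ hz, zpow_sub₀ hμ, zpow_natCast, zpow_natCast, zpow_natCast, zpow_natCast]
      simp only [hm]
      rw [mul_div_mul_comm]
    rwa [h2] at h1
  have ha0 : a ≠ 0 := by
    intro h0
    rw [h0, zpow_zero, one_mul] at hU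
    have h1 := Plc.zpow_unt hsp hU
    apply hne
    ext
    · have : (s.1 : ℤ) = s0.1 := by linarith
      exact_mod_cast this
    · have : (s.2 : ℤ) = s0.2 := by linarith
      exact_mod_cast this
  have had : a.natAbs ≤ d := by omega
  have hbD : |b| ≤ (D : ℤ) := by
    rw [abs_le]; constructor <;> omega
  have hdvd : a ∣ ((d.factorial : ℕ) : ℤ) := by
    rw [← Int.natAbs_dvd_natAbs, Int.natAbs_natCast]
    exact Nat.dvd_factorial (Int.natAbs_pos.mpr ha0) had
  obtain ⟨e, he⟩ := hdvd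
  have hfac : (0 : ℤ) < (d.factorial : ℕ) := by exact_mod_cast Nat.factorial_pos d
  have he1 : |e| ≤ ((d.factorial : ℕ) : ℤ) := by
    have h1 : ((d.factorial : ℕ) : ℤ) = |a| * |e| := by
      rw [← abs_mul, ← he, abs_of_pos hfac]
    have h2 : 1 ≤ |a| := Int.one_le_abs ha0
    rw [h1]
    nlinarith [abs_nonneg e]
  refine ⟨-(b * e), ?_, ?_⟩
  · rw [abs_neg, abs_mul]
    push_cast
    exact mul_le_mul hbD he1 (abs_nonneg _) (by positivity)
  · have h1 := hU.zpow e
    rw [mul_zpow, ← zpow_mul, ← zpow_mul, ← he, zpow_natCast] at h1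
    rw [neg_neg]
    exact h1

end Pool.Agent.Helper60.ZC
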