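import Pool.Agent.Helper60.ZC.P0
import Pool.Graph.R_pool_sql_team_seeded_1acbe0a2.Y363.UL.Ext

/-!
# Places of a field of functions: existence, and finiteness of the values (helper47)
-/

set_option autoImplicit false

namespace Pool.Agent.Helper60.ZC

open Polynomial

section

variable {K : Type} [Field K] [Algebra ℂ K]

/-- the value of `px F u` at `s`, as a sum -/
theorem px_eval (F : ℂ[X][X]) (u s : K) :
    (px F u).eval s = ∑ i ∈ Finset.range (F.natDegree + 1), aeval u (F.coeff i) * s ^ i := by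
  unfold px
  rw [eval_map, eval₂_eq_sum_range]
  rfl

/-- **DIV**: a relation which is not divisible by the variable. -/
theorem exists_div (s μ : K) (hμ : Transcendental ℂ μ)
    (hs : IsAlgebraic (Algebra.adjoin ℂ {μ}) s) :
    ∃ G : ℂ[X][X], (px G μ).eval s = 0 ∧ G.map (evalRingHom (0 : ℂ)) ≠ 0 := by
  obtain ⟨p, hp0, hp⟩ := hs
  have hμ0 : μ ≠ 0 := by
    rintro rfl
    exact hμ isAlgebraic_zero
  -- the coefficients are polynomials in `μ`
  have hmem : ∀ c : Algebra.adjoin ℂ {μ}, ∃ a : ℂ[X], aeval μ a = (c : K) := by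
    intro c
    have h1 : (c : K) ∈ (aeval μ : ℂ[X] →ₐ[ℂ] K).range := by
      rw [← Algebra.adjoin_singleton_eq_range_aeval]
      exact c.2
    obtain ⟨a, ha⟩ := h1
    exact ⟨a, ha⟩
  choose a ha using hmem
  obtain ⟨G₀, hG₀⟩ : ∃ G₀ : ℂ[X][X], px G₀ μ = p.map (algebraMap (Algebra.adjoin ℂ {μ}) K) := by
    refine ⟨∑ i ∈ Finset.range (p.natDegree + 1), C (a (p.coeff i)) * X ^ i, ?_⟩
    unfold px
    ext n
    rw [coeff_map, coeff_map, finsetSum_coeff]
    simp only [coeff_C_mul, coeff_X_pow, mul_ite, mul_one, mul_zero, Finset.sum_ite_eq,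
      Finset.mem_range]
    by_cases hn : n < p.natDegree + 1
    · rw [if_pos hn]
      exact ha _
    · rw [if_neg hn, map_zero, coeff_eq_zero_of_natDegree_lt (by omega), map_zero]
  have hG00 : G₀ ≠ 0 := by
    rintro rfl
    apply hp0
    have h1 : p.map (algebraMap (Algebra.adjoin ℂ {μ}) K) = 0 := by
      rw [← hG₀]
      unfold px
      exact Polynomial.map_zero _
    exact (Polynomial.map_eq_zero_iff (FaithfulSMul.algebraMap_injective _ _)).1 h1
  have hG0s : (px G₀ μ).eval s = 0 := by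
    rw [hG₀, eval_map]
    exact hp
  have hprime : Prime (C (X : ℂ[X])) := prime_C_iff.2 prime_X
  obtain ⟨n, G, hG, hfac⟩ := WfDvdMonoid.max_power_factor hG00 hprime.irreducible
  refine ⟨G, ?_, ?_⟩
  · have h1 : px G₀ μ = C μ ^ n * px G μ := by
      unfold px
      rw [hfac, Polynomial.map_mul, Polynomial.map_pow, map_C]
      congr 3
      exact aeval_X μ
    rw [h1, eval_mul, eval_pow, eval_C] at hG0s
    exact (mul_eq_zero.1 hG0s).resolve_left (pow_ne_zero _ hμ0)
  · intro h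
    apply hG
    rw [C_dvd_iff_dvd_coeff]
    intro i
    rw [X_dvd_iff, coeff_zero_eq_eval_zero]
    have h1 := congrArg (fun q => q.coeff i) h
    simpa using h1

end

theorem t_res : S_RES := by
  intro K _ _ s μ hμ hs
  obtain ⟨G, hG, hG0⟩ := exists_div s μ hμ hs
  refine Set.Finite.subset (G.map (evalRingHom (0 : ℂ))).roots.toFinset.finite_toSet ?_
  rintro ρ ⟨P, hP, hρ⟩
  rw [Finset.mem_coe, Multiset.mem_toFinset, mem_roots hG0, IsRoot.def, eval_map,
    eval₂_eq_sum_range]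
  refine P.uniq _ _ _ ?_ P.zero
  rw [← hG, px_eval]
  exact P.sum _ _ _ fun i _ => P.mul _ _ _ _ (P.aeval hP _) (P.pow hρ i)

theorem t_ex : S_EX := by
  intro K _ _ x hx halg
  -- the specialization `x ↦ 0`
  obtain ⟨φ, hφ⟩ : ∃ φ : Algebra.adjoin ℂ {x} →ₐ[ℂ] ℂ,
      φ ⟨x, Algebra.self_mem_adjoin_singleton ℂ x⟩ = 0 := by
    have hinj : Function.Injective (aeval x : ℂ[X] →ₐ[ℂ] K) :=
      transcendental_iff_injective.1 hx
    have e1 : Algebra.adjoin ℂ {x} = (aeval x : ℂ[X] →ₐ[ℂ] K).range :=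
      Algebra.adjoin_singleton_eq_range_aeval ℂ x
    let e : ℂ[X] ≃ₐ[ℂ] (aeval x : ℂ[X] →ₐ[ℂ] K).range := AlgEquiv.ofInjective _ hinj
    let e2 : Algebra.adjoin ℂ {x} ≃ₐ[ℂ] (aeval x : ℂ[X] →ₐ[ℂ] K).range :=
      Subalgebra.equivOfEq _ _ e1
    refine ⟨((aeval (0 : ℂ) : ℂ[X] →ₐ[ℂ] ℂ).comp e.symm.toAlgHom).comp e2.toAlgHom, ?_⟩
    have h1 : e2 ⟨x, Algebra.self_mem_adjoin_singleton ℂ x⟩ = e X := by
      apply Subtype.ext
      change x = aeval x (X : ℂ[X])
      rw [aeval_X]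
    change (aeval (0 : ℂ)) (e.symm (e2 ⟨x, Algebra.self_mem_adjoin_singleton ℂ x⟩)) = (0 : ℂ)
    rw [h1, AlgEquiv.symm_apply_apply, aeval_X]
  obtain ⟨O, ι, hι, hres⟩ := Pool.Agent.Y363.UL.exists_place (Algebra.adjoin ℂ {x}) φ
  let π := IsLocalRing.residue O
  let j : ℂ →+* O := ι.comp (algebraMap ℂ (Algebra.adjoin ℂ {x}))
  let i : ℂ →+* IsLocalRing.ResidueField O := π.comp j
  have hj : ∀ c : ℂ, ((j c : O) : K) = algebraMap ℂ K c := fun c => hι _
  let x' : O := ι ⟨x, Algebra.self_mem_adjoin_singleton ℂ x⟩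
  have hx' : (x' : K) = x := hι _
  have hπx : π x' = 0 := by
    have h1 := hres ⟨x, Algebra.self_mem_adjoin_singleton ℂ x⟩
    rw [hφ] at h1
    refine h1.trans ?_
    rw [map_zero, map_zero, map_zero]
  -- all residues are constants
  have hall : ∀ z : O, ∃ c : ℂ, π z = i c := by
    intro z
    obtain ⟨G, hG, hG0⟩ := exists_div (z : K) x hx (halg _)
    set g := G.map (evalRingHom (0 : ℂ)) with hg
    -- the relation in `O`
    have h1 : ∑ n ∈ Finset.range (G.natDegree + 1), (G.coeff n).eval₂ j x' * z ^ n = 0 := by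
      apply Subtype.val_injective
      have h2 : ∀ q : ℂ[X], ((q.eval₂ j x' : O) : K) = aeval x q := by
        intro q
        have h3 := Polynomial.hom_eval₂ q j (algebraMap O K) x'
        have h4 : (algebraMap O K).comp j = algebraMap ℂ K := by
          ext c
          exact hj c
        rw [h4] at h3
        refine h3.trans ?_
        have h5 : algebraMap O K x' = x := hx'
        rw [h5]
        rfl
      rw [px_eval] at hG
      have h6 : ((∑ n ∈ Finset.range (G.natDegree + 1), (G.coeff n).eval₂ j x' * z ^ n : O) : K) =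
          ∑ n ∈ Finset.range (G.natDegree + 1), aeval x (G.coeff n) * (z : K) ^ n := by
        have h7 := map_sum (algebraMap O K) (fun n => (G.coeff n).eval₂ j x' * z ^ n)
          (Finset.range (G.natDegree + 1))
        refine h7.trans (Finset.sum_congr rfl fun n _ => ?_)
        rw [map_mul, map_pow]
        congr 1
        exact h2 _
      change ((∑ n ∈ Finset.range (G.natDegree + 1), (G.coeff n).eval₂ j x' * z ^ n : O) : K) = 0
      rw [h6, hG]
    have h2 : g.eval₂ i (π z) = 0 := by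
      have h3 := congrArg π h1
      rw [map_zero, map_sum] at h3
      rw [hg, eval₂_map, eval₂_eq_sum_range, ← h3]
      refine Finset.sum_congr rfl fun n _ => ?_
      rw [map_mul, map_pow, Polynomial.hom_eval₂, hπx]
      congr 1
      change i ((G.coeff n).eval 0) = _
      rw [← eval₂_hom]
      rw [map_zero]
    have h3 : (C g.leadingCoeff⁻¹ * g).eval₂ i (π z) = 0 := by
      rw [eval₂_mul, h2, mul_zero]
    obtain ⟨c, hc⟩ := Pool.Agent.Y363.UL.root_mem i _ (monic_C_mul_of_mul_leadingCoeff_eq_one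
      (inv_mul_cancel₀ (leadingCoeff_ne_zero.2 hG0))) _ h3
    exact ⟨c, hc.symm⟩
  refine ⟨
    { R := fun z a => ∃ z' : O, (z' : K) = z ∧ π z' = i a
      const := fun c => ⟨j c, hj c, rfl⟩
      uniq := ?_
      add := ?_
      mul := ?_
      alt := ?_ }, x', hx', ?_⟩
  · rintro y a b ⟨z, hz, h1⟩ ⟨w, hw, h2⟩
    have h3 : z = w := Subtype.val_injective (hz.trans hw.symm)
    subst h3
    exact i.injective (h1.symm.trans h2)
  · rintro y y' a b ⟨z, rfl, h1⟩ ⟨w, rfl, h2⟩
    exact ⟨z + w, rfl, by rw [map_add, map_add, h1, h2]⟩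
  · rintro y y' a b ⟨z, rfl, h1⟩ ⟨w, rfl, h2⟩
    exact ⟨z * w, rfl, by rw [map_mul, map_mul, h1, h2]⟩
  · intro y hy
    by_cases h1 : y ∈ O
    · obtain ⟨c, hc⟩ := hall ⟨y, h1⟩
      exact Or.inl ⟨c, ⟨y, h1⟩, rfl, hc⟩
    · have h2 : y⁻¹ ∈ O := (O.mem_or_inv_mem y).resolve_left h1
      refine Or.inr ⟨⟨y⁻¹, h2⟩, rfl, ?_⟩
      rw [map_zero]
      by_contra h3
      obtain ⟨u, hu⟩ := (IsLocalRing.residue_ne_zero_iff_isUnit (⟨y⁻¹, h2⟩ : O)).1 h3
      apply h1
      have h4 : ((u⁻¹ : Oˣ) : O) * (⟨y⁻¹, h2⟩ : O) = 1 := by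
        rw [← hu]
        exact u.inv_mul
      have h5 := congrArg (algebraMap O K) h4
      rw [map_mul, map_one] at h5
      have h6 : algebraMap O K ((u⁻¹ : Oˣ) : O) = y := by
        have h7 : algebraMap O K (⟨y⁻¹, h2⟩ : O) = y⁻¹ := rfl
        rw [h7] at h5
        rw [eq_inv_of_mul_eq_one_left h5, inv_inv]
      rw [← h6]
      exact ((u⁻¹ : Oˣ) : O).2
  · rw [map_zero]
    exact hπx

end Pool.Agent.Helper60.ZC
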