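import Pool.Agent.Helper60.ZC.P0

/-!
# The power trick: the comparison of `z(u)` and `z(b₀ (u / b₀) ^ k)`
-/

set_option autoImplicit false

namespace Pool.Agent.Helper60.ZC

open Polynomial

section

variable {K : Type} [Field K] [Algebra ℂ K]

/-- the local parameter at `u = b` -/
noncomputable def mu (u : K) (b : ℂ) : K := algebraMap ℂ K b⁻¹ * u - 1

theorem mu_map {K' : Type} [Field K'] [Algebra ℂ K'] (φ : K →ₐ[ℂ] K') (u : K) (b : ℂ) :
    φ (mu u b) = mu (φ u) b := by
  rw [mu, mu, map_sub, map_mul, φ.commutes, map_one]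

theorem mu_ne {u : K} (hu : Transcendental ℂ u) {b : ℂ} (hb : b ≠ 0) : mu u b ≠ 0 := by
  intro h
  apply hu
  have h1 : u = algebraMap ℂ K b := by
    have h2 : algebraMap ℂ K b * (algebraMap ℂ K b⁻¹ * u) = algebraMap ℂ K b := by
      rw [mu, sub_eq_zero] at h
      rw [h, mul_one]
    rw [← mul_assoc, ← map_mul, mul_inv_cancel₀ hb, map_one, one_mul] at h2
    exact h2
  rw [h1]
  exact isAlgebraic_algebraMap _

theorem R_mu {P : Plc K} {u : K} {b : ℂ} (hb : b ≠ 0) (h : P.R u b) : P.R (mu u b) 0 := by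
  have h1 := P.sub (P.smul h b⁻¹) P.one
  rwa [inv_mul_cancel₀ hb, sub_self] at h1

/-- recentering -/
theorem px_shift (F : ℂ[X][X]) (u : K) {b : ℂ} (hb : b ≠ 0) :
    px (F.map (compRingHom (C b * (X + 1)))) (mu u b) = px F u := by
  rw [px, px, Polynomial.map_map]
  congr 1
  refine RingHom.ext fun p => ?_
  change aeval (mu u b) (p.comp (C b * (X + 1))) = aeval u p
  rw [aeval_comp]
  congr 1
  simp only [map_mul, aeval_C, map_add, aeval_X, map_one, mu]
  rw [sub_add_cancel, ← mul_assoc, ← map_mul, mul_inv_cancel₀ hb, map_one, one_mul]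

theorem natDegree_cb {b : ℂ} (hb : b ≠ 0) : (C b * (X + 1) : ℂ[X]).natDegree = 1 := by
  rw [natDegree_C_mul hb]
  exact natDegree_X_add_C 1

theorem comp_cb_ne {b : ℂ} (hb : b ≠ 0) {p : ℂ[X]} (hp : p ≠ 0) : p.comp (C b * (X + 1)) ≠ 0 := by
  intro h
  rcases comp_eq_zero_iff.1 h with h1 | h1
  · exact hp h1
  · have h2 := natDegree_cb hb
    rw [h1.2, natDegree_C] at h2
    exact zero_ne_one h2

/-- Newton's bound at a finite point -/
theorem new_at (hN : S_NEW) {F : ℂ[X][X]} {D : ℕ} (hF : F ≠ 0) (hD : ∀ i, (F.coeff i).natDegree ≤ D)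
    (P : Plc K) {z u : K} (hz : z ≠ 0) (hu : Transcendental ℂ u) (hr : (px F u).eval z = 0) {b : ℂ}
    (hb : b ≠ 0) (hub : P.R u b) :
    ∃ p : ℤ, |p| ≤ (D * F.natDegree.factorial : ℕ) ∧
      P.Unt (z ^ F.natDegree.factorial * mu u b ^ (-p)) := by
  have hlc : F.leadingCoeff ≠ 0 := leadingCoeff_ne_zero.2 hF
  have hnd : (F.map (compRingHom (C b * (X + 1)))).natDegree = F.natDegree := by
    refine natDegree_map_of_leadingCoeff_ne_zero _ ?_
    exact comp_cb_ne hb hlc
  have h1 := hN K (F.map (compRingHom (C b * (X + 1)))) D ?_ ?_ P z (mu u b) hz (mu_ne hu hb)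
    (Or.inl (R_mu hb hub)) (by rw [px_shift F u hb]; exact hr)
  · rw [hnd] at h1
    exact h1
  · intro h
    have h2 := congrArg (fun q => q.coeff F.natDegree) h
    simp only [coeff_map, coeff_zero] at h2
    exact comp_cb_ne hb hlc h2
  · intro i
    rw [coeff_map]
    change ((F.coeff i).comp (C b * (X + 1))).natDegree ≤ D
    rw [natDegree_comp, natDegree_cb hb, mul_one]
    exact hD i

/-- the values of the leading coefficients -/
def vals (F : ℂ[X][X]) (D : ℕ) (u z : K) : Set ℂ :=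
  {ρ | ∃ (P : Plc K) (b : ℂ) (p : ℤ), b ≠ 0 ∧ P.R u b ∧ P.Spc z ∧
    |p| ≤ (D * F.natDegree.factorial : ℕ) ∧ P.R (z ^ F.natDegree.factorial * mu u b ^ (-p)) ρ}

/-- the special points are zeros of the extreme coefficients -/
theorem special_root {F : ℂ[X][X]} {u z : K} (hz : z ≠ 0) (hr : (px F u).eval z = 0) {P : Plc K} {b : ℂ}
    (hub : P.R u b) (hs : P.Spc z) : (F.coeff 0 * F.leadingCoeff).eval b = 0 := by
  rw [eval_mul]
  have hsum : (px F u).eval z = ∑ i ∈ Finset.range (F.natDegree + 1), aeval u (F.coeff i) * z ^ i := by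
    rw [px, eval_map, eval₂_eq_sum_range]
    rfl
  rw [hr] at hsum
  rcases hs with hs | hs
  · have h1 := P.sum (Finset.range (F.natDegree + 1)) (fun i => aeval u (F.coeff i) * z ^ i)
      (fun i => (F.coeff i).eval b * 0 ^ i)
      (fun i _ => P.mul _ _ _ _ (P.aeval hub _) (P.pow hs i))
    rw [← hsum] at h1
    have h2 := P.uniq _ _ _ h1 P.zero
    rw [Finset.sum_range_succ'] at h2
    simp only [pow_zero, mul_one, ne_eq, Nat.succ_ne_zero, not_false_eq_true, zero_pow, mul_zero,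
      Finset.sum_const_zero, zero_add] at h2
    rw [h2, zero_mul]
  · have h3 : ∑ i ∈ Finset.range (F.natDegree + 1), aeval u (F.coeff i) * z⁻¹ ^ (F.natDegree - i) = 0 := by
      have h4 : z⁻¹ ^ F.natDegree * ∑ i ∈ Finset.range (F.natDegree + 1), aeval u (F.coeff i) * z ^ i =
          0 := by rw [← hsum, mul_zero]
      rw [Finset.mul_sum] at h4
      rw [← h4]
      refine Finset.sum_congr rfl fun i hi => ?_
      have hi' : i ≤ F.natDegree := Nat.lt_succ_iff.1 (Finset.mem_range.1 hi)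
      have h5 : z⁻¹ ^ F.natDegree = z⁻¹ ^ (F.natDegree - i) * z⁻¹ ^ i := by
        rw [← pow_add]
        congr 1
        omega
      have h6 : z⁻¹ ^ i * z ^ i = 1 := by
        rw [← mul_pow, inv_mul_cancel₀ hz, one_pow]
      rw [h5]
      linear_combination -(aeval u (F.coeff i) * z⁻¹ ^ (F.natDegree - i)) * h6
    have h1 := P.sum (Finset.range (F.natDegree + 1))
      (fun i => aeval u (F.coeff i) * z⁻¹ ^ (F.natDegree - i))
      (fun i => (F.coeff i).eval b * 0 ^ (F.natDegree - i))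
      (fun i _ => P.mul _ _ _ _ (P.aeval hub _) (P.pow hs _))
    rw [h3] at h1
    have h2 := P.uniq _ _ _ h1 P.zero
    rw [Finset.sum_range_succ] at h2
    simp only [Nat.sub_self, pow_zero, mul_one] at h2
    rw [Finset.sum_eq_zero, zero_add] at h2
    · rw [leadingCoeff, h2, mul_zero]
    · intro i hi
      have hi' : i < F.natDegree := Finset.mem_range.1 hi
      rw [zero_pow (by omega), mul_zero]

theorem mem_fieldRange_alg {u : K} {x y : K}
    (hx : IsAlgebraic (Algebra.adjoin ℂ {u}) x) (hy : IsAlgebraic (Algebra.adjoin ℂ {u}) y) :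
    IsAlgebraic (Algebra.adjoin ℂ {u}) (x * y) := hx.mul hy

/-- the values of the leading coefficients form a finite set -/
theorem vals_finite (hR : S_RES) (F : ℂ[X][X]) (D : ℕ) {u z : K} (h0 : F.coeff 0 ≠ 0) (hz : z ≠ 0)
    (hu : Transcendental ℂ u) (hr : (px F u).eval z = 0)
    (halg : IsAlgebraic (Algebra.adjoin ℂ {u}) z) : (vals F D u z).Finite := by
  classical
  have hF : F ≠ 0 := by rintro rfl; exact h0 (coeff_zero 0)
  have hp : F.coeff 0 * F.leadingCoeff ≠ 0 := mul_ne_zero h0 (leadingCoeff_ne_zero.2 hF)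
  let B : Set ℂ := {b | b ≠ 0 ∧ (F.coeff 0 * F.leadingCoeff).eval b = 0}
  have hB : B.Finite := by
    refine Set.Finite.subset (F.coeff 0 * F.leadingCoeff).roots.toFinset.finite_toSet fun b hb => ?_
    rw [Finset.mem_coe, Multiset.mem_toFinset]
    exact (mem_roots hp).2 hb.2
  let N : ℕ := D * F.natDegree.factorial
  have hfin : ∀ b ∈ B, ∀ p : ℤ,
      {ρ : ℂ | ∃ P : Plc K, P.R (mu u b) 0 ∧
        P.R (z ^ F.natDegree.factorial * mu u b ^ (-p)) ρ}.Finite := by
    intro b hb p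
    have hmu : Transcendental ℂ (mu u b) := by
      intro h
      apply hu
      have h1 : u = algebraMap ℂ K b * (mu u b + 1) := by
        rw [mu, sub_add_cancel, ← mul_assoc, ← map_mul, mul_inv_cancel₀ hb.1, map_one, one_mul]
      rw [h1]
      exact (isAlgebraic_algebraMap b).mul (h.add isAlgebraic_one)
    have hle : (Algebra.adjoin ℂ {u} : Subalgebra ℂ K) ≤ Algebra.adjoin ℂ {mu u b} := by
      rw [Algebra.adjoin_le_iff, Set.singleton_subset_iff]
      have h1 : u = algebraMap ℂ K b * (mu u b + 1) := by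
        rw [mu, sub_add_cancel, ← mul_assoc, ← map_mul, mul_inv_cancel₀ hb.1, map_one, one_mul]
      have h2 : algebraMap ℂ K b * (mu u b + 1) ∈ Algebra.adjoin ℂ {mu u b} :=
        mul_mem (Subalgebra.algebraMap_mem _ _)
          (add_mem (Algebra.subset_adjoin rfl) (one_mem _))
      rw [← h1] at h2
      exact h2
    have halg' : IsAlgebraic (Algebra.adjoin ℂ {mu u b}) z := by
      obtain ⟨q, hq0, hq⟩ := halg
      refine ⟨q.map (Subalgebra.inclusion hle : _ →+* _), ?_, ?_⟩
      · rw [Polynomial.map_ne_zero_iff]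
        · exact hq0
        · exact Subalgebra.inclusion_injective hle
      · rw [aeval_def, eval₂_map]
        rw [aeval_def] at hq
        exact hq
    have hmem : IsAlgebraic (Algebra.adjoin ℂ {mu u b}) (mu u b) := by
      have h1 : mu u b = algebraMap (Algebra.adjoin ℂ {mu u b}) K
        ⟨mu u b, Algebra.subset_adjoin rfl⟩ := rfl
      rw [h1]
      exact isAlgebraic_algebraMap _
    refine hR K _ (mu u b) hmu ?_
    refine (halg'.pow _).mul ?_
    obtain ⟨m, hm | hm⟩ := Int.eq_nat_or_neg (-p)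
    · rw [hm, zpow_natCast]
      exact hmem.pow m
    · rw [hm, zpow_neg, zpow_natCast]
      exact (hmem.pow m).inv
  have hfin2 : (⋃ b ∈ B, ⋃ p ∈ Set.Icc (-(N : ℤ)) N, {ρ : ℂ | ∃ P : Plc K, P.R (mu u b) 0 ∧
        P.R (z ^ F.natDegree.factorial * mu u b ^ (-p)) ρ}).Finite :=
    hB.biUnion fun b hb => (Set.finite_Icc _ _).biUnion fun p _ => hfin b hb p
  refine hfin2.subset ?_
  rintro ρ ⟨P, b, p, hb, hub, hs, hp, hρ⟩
  refine Set.mem_iUnion₂.2 ⟨b, ⟨hb, special_root hz hr hub hs⟩, Set.mem_iUnion₂.2 ⟨p, ?_, P,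
    R_mu hb hub, hρ⟩⟩
  exact abs_le.1 hp

end

end Pool.Agent.Helper60.ZC
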