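import Pool.Agent.Helper60.ZC.P3

/-!
# The power trick: the key lemma
-/

set_option autoImplicit false

namespace Pool.Agent.Helper60.ZC

open Polynomial

section

variable {K : Type} [Field K] [Algebra ℂ K]

/-- `(1 + μ) ^ k - 1 = μ * g` with `g` of value `k` -/
theorem mu_pow {P : Plc K} {u : K} {b b' κ : ℂ} {k : ℕ} (hb : b ≠ 0) (hb' : b' = κ * b ^ k)
    (hκ : κ ≠ 0) (hub : P.R u b) :
    ∃ g : K, P.R g k ∧ mu (algebraMap ℂ K κ * u ^ k) b' = mu u b * g := by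
  refine ⟨∑ i ∈ Finset.range k, (algebraMap ℂ K b⁻¹ * u) ^ i, ?_, ?_⟩
  · have h1 : P.R (algebraMap ℂ K b⁻¹ * u) 1 := by
      have h2 := P.smul hub b⁻¹
      rwa [inv_mul_cancel₀ hb] at h2
    have h2 := P.sum (Finset.range k) (fun i => (algebraMap ℂ K b⁻¹ * u) ^ i) (fun _ => 1)
      (fun i _ => by simpa using P.pow h1 i)
    simpa using h2
  · have h1 : algebraMap ℂ K b'⁻¹ * (algebraMap ℂ K κ * u ^ k) = (algebraMap ℂ K b⁻¹ * u) ^ k := by
      rw [hb', mul_pow, ← map_pow, ← mul_assoc, ← map_mul]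
      congr 2
      rw [mul_inv, mul_assoc, mul_comm, mul_assoc, mul_inv_cancel₀ hκ, mul_one, inv_pow]
    rw [mu, h1, mu, mul_comm (algebraMap ℂ K b⁻¹ * u - 1), geom_sum_mul]

/-- the identity of the exponents -/
theorem expo_id {x y m g m' : K} (hm : m ≠ 0) (hg : g ≠ 0) (Q : ℕ) (k α β p p' : ℤ)
    (hm' : m' = g * m ^ k) :
    (x ^ α * y ^ β) ^ Q = ((x ^ Q * m' ^ (-p')) ^ α * (y ^ Q * m ^ (-p)) ^ β * g ^ (α * p')) *
      m ^ (k * (α * p') + β * p) := by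
  subst hm'
  rw [zpow_add₀ hm]
  have h1 : (x ^ Q * (g * m ^ k) ^ (-p')) ^ α =
      x ^ ((Q : ℤ) * α) * (g ^ (-p' * α) * m ^ (k * -p' * α)) := by
    rw [mul_zpow, mul_zpow, mul_zpow, ← zpow_natCast, ← zpow_mul, ← zpow_mul, ← zpow_mul, ← zpow_mul,
      mul_assoc k]
  have h2 : (y ^ Q * m ^ (-p)) ^ β = y ^ ((Q : ℤ) * β) * m ^ (-p * β) := by
    rw [mul_zpow, ← zpow_natCast, ← zpow_mul, ← zpow_mul]
  have h3 : (x ^ α * y ^ β) ^ Q = x ^ ((Q : ℤ) * α) * y ^ ((Q : ℤ) * β) := by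
    rw [mul_pow, ← zpow_natCast, ← zpow_natCast, ← zpow_mul, ← zpow_mul, mul_comm α, mul_comm β]
  have e1 : m ^ (k * -p' * α) * m ^ (k * (α * p')) = 1 := by
    rw [← zpow_add₀ hm]
    have : k * -p' * α + k * (α * p') = 0 := by ring
    rw [this, zpow_zero]
  have e2 : g ^ (-p' * α) * g ^ (α * p') = 1 := by
    rw [← zpow_add₀ hg]
    have : -p' * α + α * p' = 0 := by ring
    rw [this, zpow_zero]
  have e3 : m ^ (-p * β) * m ^ (β * p) = 1 := by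
    rw [← zpow_add₀ hm]
    have : -p * β + β * p = 0 := by ring
    rw [this, zpow_zero]
  rw [h1, h2, h3]
  calc x ^ ((Q : ℤ) * α) * y ^ ((Q : ℤ) * β) =
      x ^ ((Q : ℤ) * α) * y ^ ((Q : ℤ) * β) * (m ^ (k * -p' * α) * m ^ (k * (α * p'))) *
        (g ^ (-p' * α) * g ^ (α * p')) * (m ^ (-p * β) * m ^ (β * p)) := by
        rw [e1, e2, e3, mul_one, mul_one, mul_one]
    _ = _ := by ring

theorem unt_cancel {P : Plc K} {x y : K} (h : P.Unt (x * y)) (hx : P.Unt x) : P.Unt y := by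
  have h1 := hx.inv.mul h
  rwa [← mul_assoc, inv_mul_cancel₀ hx.ne_zero, one_mul] at h1

/-- the sign of the exponent -/
theorem sign_pos {P : Plc K} {z m : K} {Q : ℕ} {p : ℤ} (hQ : Q ≠ 0) (hm : P.R m 0) (hz : P.R z 0)
    (h : P.Unt (z ^ Q * m ^ (-p))) : 0 < p := by
  by_contra hp
  push Not at hp
  obtain ⟨n, hn⟩ := Int.eq_ofNat_of_zero_le (neg_nonneg.2 hp)
  rw [hn] at h
  have h1 := P.mul _ _ _ _ (P.pow hz Q) (P.pow hm n)
  rw [zero_pow hQ, zero_mul] at h1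
  rw [zpow_natCast] at h
  exact Plc.not_unt_of_zero h1 h

theorem sign_neg {P : Plc K} {z m : K} {Q : ℕ} {p : ℤ} (hQ : Q ≠ 0) (hm : P.R m 0)
    (hz : P.R z⁻¹ 0) (h : P.Unt (z ^ Q * m ^ (-p))) : p < 0 := by
  by_contra hp
  push Not at hp
  obtain ⟨n, hn⟩ := Int.eq_ofNat_of_zero_le hp
  have h1 := P.mul _ _ _ _ (P.pow hz Q) (P.pow hm n)
  rw [zero_pow hQ, zero_mul] at h1
  have h2 := h.inv
  rw [mul_inv, ← inv_pow, ← zpow_neg, neg_neg, hn, zpow_natCast] at h2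
  exact Plc.not_unt_of_zero h1 h2

theorem spc_comap {P : Plc K} (φ : K →ₐ[ℂ] K) {z : K} (h : P.Spc (φ z)) : (P.comap φ).Spc z := by
  rcases h with h | h
  · exact Or.inl h
  · refine Or.inr ?_
    change P.R (φ z⁻¹) 0
    rw [map_inv₀]
    exact h

/-- **the analysis at one place** -/
theorem one_place (hN : S_NEW) {F : ℂ[X][X]} {D : ℕ} (hF : F ≠ 0)
    (hD : ∀ i, (F.coeff i).natDegree ≤ D) {u z : K} (hz : z ≠ 0) (hu : Transcendental ℂ u)
    (hr : (px F u).eval z = 0) {κ : ℂ} (hκ : κ ≠ 0) {k : ℕ}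
    (hk : ((D * F.natDegree.factorial : ℕ) : ℤ) * (D * F.natDegree.factorial : ℕ) < k)
    (φ φ' τ : K →ₐ[ℂ] K) (hφ : φ u = u) (hφ' : φ' u = u) (hτ : τ u = algebraMap ℂ K κ * u ^ k)
    (α β : ℤ) (hβ : β ≠ 0) (hβA : |β| ≤ (D * F.natDegree.factorial : ℕ)) (P : Plc K) {c : ℂ}
    (hc : c ≠ 0) (hw : P.R (τ (φ' z) ^ α * φ z ^ β) c) (hs : P.Spc (φ z)) :
    ∃ (p : ℤ) (ρ ρ' : ℂ), p ≠ 0 ∧ ρ ≠ 0 ∧ ρ' ≠ 0 ∧ ρ ∈ vals F D u z ∧ ρ' ∈ vals F D u z ∧
      c ^ F.natDegree.factorial = ρ' ^ α * ρ ^ β * (k : ℂ) ^ (-(β * p)) ∧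
      (P.R (φ z) 0 → 0 < p) ∧ (P.R (φ z)⁻¹ 0 → p < 0) := by
  set Q := F.natDegree.factorial with hQdef
  have hQ : Q ≠ 0 := F.natDegree.factorial_ne_zero
  have hu0 : u ≠ 0 := by
    rintro rfl
    exact hu isAlgebraic_zero
  set z' := φ z with hz'
  set z'' := τ (φ' z) with hz''
  have hz'0 : z' ≠ 0 := (map_ne_zero φ).2 hz
  have hz''0 : z'' ≠ 0 := (map_ne_zero τ).2 ((map_ne_zero φ').2 hz)
  let P' : Plc K := P.comap φ
  let P'' : Plc K := P.comap (τ.comp φ')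
  have hP'' : ∀ x a, P''.R x a ↔ P.R (τ (φ' x)) a := fun x a => Iff.rfl
  have hk0 : k ≠ 0 := by
    rintro rfl
    have h1 : (0 : ℤ) ≤ ((D * Q : ℕ) : ℤ) * (D * Q : ℕ) := by positivity
    push_cast at hk h1
    omega
  have hWu : P.Unt (z'' ^ α * z' ^ β) := ⟨c, hc, hw⟩
  have hWQ := hWu.pow Q
  have hnu : ¬ P.Unt (z' ^ Q) := (hs.pow hQ).not_unt
  rcases Plc.unt_or_spc (P := P) hu0 with ⟨b, hb, hub⟩ | hus
  · -- `u` has a finite nonzero value
    obtain ⟨p, hp, hpu⟩ := new_at hN hF hD P' hz hu hr hb (by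
      change P.R (φ u) b
      rw [hφ]; exact hub)
    have hpu' : P.Unt (z' ^ Q * mu u b ^ (-p)) := by
      obtain ⟨a, ha, h1⟩ := hpu
      refine ⟨a, ha, ?_⟩
      have h2 : P.R (φ (z ^ Q * mu u b ^ (-p))) a := h1
      rw [map_mul, map_pow, map_zpow₀, mu_map, hφ] at h2
      exact h2
    set b' : ℂ := κ * b ^ k with hb'
    have hb'0 : b' ≠ 0 := mul_ne_zero hκ (pow_ne_zero _ hb)
    have hub' : P.R (τ (φ' u)) b' := by
      rw [hφ', hτ]
      exact P.smul (P.pow hub k) κ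
    obtain ⟨p'', hp'', hpu''⟩ := new_at hN hF hD P'' hz hu hr hb'0 hub'
    have hpu2 : P.Unt (z'' ^ Q * mu (algebraMap ℂ K κ * u ^ k) b' ^ (-p'')) := by
      obtain ⟨a, ha, h1⟩ := hpu''
      refine ⟨a, ha, ?_⟩
      have h2 : P.R (τ (φ' (z ^ Q * mu u b' ^ (-p'')))) a := h1
      rw [map_mul, map_mul, map_pow, map_pow, map_zpow₀, map_zpow₀, mu_map, mu_map, hφ', hτ] at h2
      exact h2
    obtain ⟨g, hg, hgmu⟩ := mu_pow (P := P) (κ := κ) (k := k) (b' := b') hb hb' hκ hub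
    have hkC : (k : ℂ) ≠ 0 := Nat.cast_ne_zero.2 hk0
    have hgu : P.Unt g := ⟨k, hkC, hg⟩
    rw [hgmu] at hpu2
    set m := mu u b with hm
    have hm0 : m ≠ 0 := mu_ne hu hb
    have hmR : P.R m 0 := R_mu hb hub
    have hmS : P.Spc m := Or.inl hmR
    obtain ⟨ρ, hρ0, hρ⟩ := hpu'
    obtain ⟨ρ', hρ'0, hρ'⟩ := hpu2
    -- the relation of the exponents
    have hid := expo_id (x := z'') (y := z') (m := m) (g := g) (m' := m * g) hm0 hgu.ne_zero Q 1 α β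
      p p'' (by rw [zpow_one, mul_comm])
    rw [one_mul] at hid
    have hU1 : P.Unt ((z'' ^ Q * (m * g) ^ (-p'')) ^ α * (z' ^ Q * m ^ (-p)) ^ β * g ^ (α * p'')) :=
      ((Plc.Unt.zpow ⟨ρ', hρ'0, hρ'⟩ α).mul (Plc.Unt.zpow ⟨ρ, hρ0, hρ⟩ β)).mul (hgu.zpow _)
    rw [hid] at hWQ
    have hexp : α * p'' + β * p = 0 := Plc.zpow_unt hmS (unt_cancel hWQ hU1)
    have hp0 : p ≠ 0 := by
      rintro rfl
      apply hnu
      rw [neg_zero, zpow_zero, mul_one] at hρ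
      exact ⟨ρ, hρ0, hρ⟩
    have hp''0 : p'' ≠ 0 := by
      rintro rfl
      rw [mul_zero, zero_add] at hexp
      exact mul_ne_zero hβ hp0 hexp
    have hs'' : P.Spc z'' := by
      rcases Plc.unt_or_spc (P := P) hz''0 with h | h
      · exfalso
        apply hp''0
        have h1 : P.Unt ((m * g) ^ (-p'')) := unt_cancel ⟨ρ', hρ'0, hρ'⟩ (h.pow Q)
        rw [mul_zpow, mul_comm] at h1
        have h2 := Plc.zpow_unt hmS (unt_cancel h1 (hgu.zpow _))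
        omega
      · exact h
    refine ⟨p, ρ, ρ', hp0, hρ0, hρ'0, ?_, ?_, ?_, fun h => sign_pos hQ hmR h ⟨ρ, hρ0, hρ⟩,
      fun h => sign_neg hQ hmR h ⟨ρ, hρ0, hρ⟩⟩
    · refine ⟨P', b, p, hb, by change P.R (φ u) b; rw [hφ]; exact hub, spc_comap φ hs, hp, ?_⟩
      change P.R (φ (z ^ Q * mu u b ^ (-p))) ρ
      rw [map_mul, map_pow, map_zpow₀, mu_map, hφ]
      exact hρ
    · refine ⟨P'', b', p'', hb'0, hub', spc_comap (τ.comp φ') hs'', hp'', ?_⟩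
      · change P.R (τ (φ' (z ^ Q * mu u b' ^ (-p'')))) ρ'
        rw [map_mul, map_mul, map_pow, map_pow, map_zpow₀, map_zpow₀, mu_map, mu_map, hφ', hτ, hgmu]
        exact hρ'
    · have h1 := P.pow hw Q
      have h2 : P.R ((z'' ^ Q * (m * g) ^ (-p'')) ^ α * (z' ^ Q * m ^ (-p)) ^ β * g ^ (α * p''))
          (ρ' ^ α * ρ ^ β * (k : ℂ) ^ (α * p'')) :=
        P.mul _ _ _ _ (P.mul _ _ _ _ (P.zpow hρ' hρ'0 α) (P.zpow hρ hρ0 β)) (P.zpow hg hkC _)
      rw [hid, hexp, zpow_zero, mul_one] at h1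
      have h3 := P.uniq _ _ _ h1 h2
      rw [h3]
      congr 2
      linarith
  · -- `u` has a zero or a pole: impossible
    exfalso
    obtain ⟨p, hp, hpu⟩ := hN K F D hF hD P' z u hz hu0 (by
      rcases hus with h | h
      · exact Or.inl (by change P.R (φ u) 0; rw [hφ]; exact h)
      · exact Or.inr (by change P.R (φ u⁻¹) 0; rw [map_inv₀, hφ]; exact h)) hr
    have hpu' : P.Unt (z' ^ Q * u ^ (-p)) := by
      obtain ⟨a, ha, h1⟩ := hpu
      refine ⟨a, ha, ?_⟩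
      have h2 : P.R (φ (z ^ Q * u ^ (-p))) a := h1
      rw [map_mul, map_pow, map_zpow₀, hφ] at h2
      exact h2
    have hκU : P.Unt (algebraMap ℂ K κ) := Plc.Unt.const hκ
    have hS2 : P.Spc (algebraMap ℂ K κ * u ^ k) := by
      rcases Plc.unt_or_spc (P := P) (mul_ne_zero hκU.ne_zero (pow_ne_zero k hu0)) with h | h
      · exact absurd (unt_cancel h hκU) (hus.pow hk0).not_unt
      · exact h
    obtain ⟨p'', hp'', hpu''⟩ := hN K F D hF hD P'' z u hz hu0 (by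
      rcases hS2 with h | h
      · exact Or.inl (by change P.R (τ (φ' u)) 0; rw [hφ', hτ]; exact h)
      · exact Or.inr (by change P.R (τ (φ' u⁻¹)) 0; rw [map_inv₀, map_inv₀, hφ', hτ]; exact h)) hr
    have hpu2 : P.Unt (z'' ^ Q * (algebraMap ℂ K κ * u ^ k) ^ (-p'')) := by
      obtain ⟨a, ha, h1⟩ := hpu''
      refine ⟨a, ha, ?_⟩
      have h2 : P.R (τ (φ' (z ^ Q * u ^ (-p'')))) a := h1
      rw [map_mul, map_mul, map_pow, map_pow, map_zpow₀, map_zpow₀, hφ', hτ] at h2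
      exact h2
    have hid := expo_id (x := z'') (y := z') (m := u) (g := algebraMap ℂ K κ)
      (m' := algebraMap ℂ K κ * u ^ k) hu0 hκU.ne_zero Q k α β p p'' (by rw [zpow_natCast])
    have hU1 : P.Unt ((z'' ^ Q * (algebraMap ℂ K κ * u ^ k) ^ (-p'')) ^ α *
        (z' ^ Q * u ^ (-p)) ^ β * algebraMap ℂ K κ ^ (α * p'')) :=
      ((hpu2.zpow α).mul (hpu'.zpow β)).mul (hκU.zpow _)
    rw [hid] at hWQ
    have hexp : k * (α * p'') + β * p = 0 := Plc.zpow_unt hus (unt_cancel hWQ hU1)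
    have hp0 : p ≠ 0 := by
      rintro rfl
      apply hnu
      rw [neg_zero, zpow_zero, mul_one] at hpu'
      exact hpu'
    have h1 : |β * p| ≤ ((D * Q : ℕ) : ℤ) * (D * Q : ℕ) := by
      rw [abs_mul]
      exact mul_le_mul hβA hp (abs_nonneg _) (by positivity)
    have h2 : α * p'' ≠ 0 := by
      intro h
      rw [h, mul_zero, zero_add] at hexp
      exact mul_ne_zero hβ hp0 hexp
    have h3 : (k : ℤ) ≤ |β * p| := by
      have h4 : β * p = -(k * (α * p'')) := by linarith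
      rw [h4, abs_neg, abs_mul, Nat.abs_cast]
      have h5 : 1 ≤ |α * p''| := Int.one_le_abs h2
      nlinarith [Int.natCast_nonneg k]
    omega

end

end Pool.Agent.Helper60.ZC
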