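import Pool.Agent.Helper60.ZC.P4

/-!
# The power trick: places with the same value have the same sign
-/

set_option autoImplicit false

namespace Pool.Agent.Helper60.ZC

open Polynomial

theorem zpow_le_pow {x M : ℝ} (hx : 0 < x) (hM : 1 ≤ M) (h1 : x ≤ M) (h2 : x⁻¹ ≤ M) {A : ℕ} {α : ℤ}
    (hα : |α| ≤ A) : x ^ α ≤ M ^ A := by
  obtain ⟨n, rfl | rfl⟩ := Int.eq_nat_or_neg α
  · rw [Nat.abs_cast] at hα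
    rw [zpow_natCast]
    exact (pow_le_pow_left₀ hx.le h1 n).trans (pow_le_pow_right₀ hM (by exact_mod_cast hα))
  · rw [abs_neg, Nat.abs_cast] at hα
    rw [zpow_neg, zpow_natCast, ← inv_pow]
    exact (pow_le_pow_left₀ (inv_pos.2 hx).le h2 n).trans
      (pow_le_pow_right₀ hM (by exact_mod_cast hα))

section

variable {K : Type} [Field K] [Algebra ℂ K]

/-- **the key lemma** -/
theorem key (hN : S_NEW) (hR : S_RES) {F : ℂ[X][X]} {D : ℕ} (h0 : F.coeff 0 ≠ 0)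
    (hD : ∀ i, (F.coeff i).natDegree ≤ D) {u z : K} (hz : z ≠ 0) (hu : Transcendental ℂ u)
    (hr : (px F u).eval z = 0) (halg : IsAlgebraic (Algebra.adjoin ℂ {u}) z) :
    ∃ k₀ : ℕ, ∀ k : ℕ, k₀ ≤ k → ∀ κ : ℂ, κ ≠ 0 → ∀ φ φ' τ : K →ₐ[ℂ] K, φ u = u → φ' u = u →
      τ u = algebraMap ℂ K κ * u ^ k → ∀ α β : ℤ, β ≠ 0 →
      |α| ≤ (D * F.natDegree.factorial : ℕ) → |β| ≤ (D * F.natDegree.factorial : ℕ) →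
      ∀ c : ℂ, c ≠ 0 → ∀ P₁ P₂ : Plc K, P₁.R (τ (φ' z) ^ α * φ z ^ β) c →
        P₂.R (τ (φ' z) ^ α * φ z ^ β) c → P₁.R (φ z) 0 → P₂.R (φ z)⁻¹ 0 → False := by
  classical
  have hF : F ≠ 0 := by rintro rfl; exact h0 (coeff_zero 0)
  have hfin := vals_finite hR F D h0 hz hu hr halg
  obtain ⟨M, hM1, hM⟩ : ∃ M : ℝ, 1 ≤ M ∧ ∀ ρ ∈ vals F D u z, ‖ρ‖ ≤ M ∧ ‖ρ‖⁻¹ ≤ M := by
    obtain ⟨M₁, h1⟩ := (hfin.image fun ρ => ‖ρ‖).bddAbove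
    obtain ⟨M₂, h2⟩ := (hfin.image fun ρ => ‖ρ‖⁻¹).bddAbove
    refine ⟨max 1 (max M₁ M₂), le_max_left _ _, fun ρ hρ => ⟨?_, ?_⟩⟩
    · exact (h1 ⟨ρ, hρ, rfl⟩).trans ((le_max_left _ _).trans (le_max_right _ _))
    · exact (h2 ⟨ρ, hρ, rfl⟩).trans ((le_max_right _ _).trans (le_max_right _ _))
  set A : ℕ := D * F.natDegree.factorial with hA
  obtain ⟨N, hNM⟩ := exists_nat_gt (M ^ A * M ^ A * (M ^ A * M ^ A))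
  refine ⟨max N (A * A) + 1, fun k hk κ hκ φ φ' τ hφ hφ' hτ α β hβ hαA hβA c hc P₁ P₂ h1 h2 hz1 hz2 =>
    ?_⟩
  have hkN : (N : ℝ) < k := by
    have h3 : N < k := lt_of_le_of_lt (le_max_left N (A * A)) (Nat.lt_of_succ_le hk)
    exact_mod_cast h3
  have hkA : ((A : ℕ) : ℤ) * (A : ℕ) < k := by
    have h3 : A * A < k := lt_of_le_of_lt (le_max_right N (A * A)) (Nat.lt_of_succ_le hk)
    exact_mod_cast h3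
  obtain ⟨p₁, ρ₁, ρ₁', hp₁, hρ₁, hρ₁', he₁, he₁', hc₁, hs₁, -⟩ := one_place hN hF hD hz hu hr hκ hkA
    φ φ' τ hφ hφ' hτ α β hβ hβA P₁ hc h1 (Or.inl hz1)
  obtain ⟨p₂, ρ₂, ρ₂', hp₂, hρ₂, hρ₂', he₂, he₂', hc₂, -, hs₂⟩ := one_place hN hF hD hz hu hr hκ hkA
    φ φ' τ hφ hφ' hτ α β hβ hβA P₂ hc h2 (Or.inr hz2)
  have hpos := hs₁ hz1
  have hneg := hs₂ hz2
  have hk0 : (k : ℝ) ≠ 0 := by
    intro h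
    rw [h] at hkN
    have : (0 : ℝ) ≤ N := Nat.cast_nonneg N
    linarith
  have hkpos : (0 : ℝ) < k := lt_of_le_of_ne (Nat.cast_nonneg k) (Ne.symm hk0)
  have hk1 : (1 : ℝ) ≤ k := by
    have h3 : k ≠ 0 := by exact_mod_cast hk0
    exact_mod_cast Nat.one_le_iff_ne_zero.2 h3
  -- compare the norms
  have hn : ‖ρ₁'‖ ^ α * ‖ρ₁‖ ^ β * (k : ℝ) ^ (-(β * p₁)) =
      ‖ρ₂'‖ ^ α * ‖ρ₂‖ ^ β * (k : ℝ) ^ (-(β * p₂)) := by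
    have h3 := congrArg norm (hc₁.symm.trans hc₂)
    simpa [norm_mul, norm_zpow, Complex.norm_natCast] using h3
  have hb : ∀ ρ ∈ vals F D u z, ρ ≠ 0 → ∀ γ : ℤ, |γ| ≤ A → ‖ρ‖ ^ γ ≤ M ^ A ∧ ‖ρ‖ ^ (-γ) ≤ M ^ A := by
    intro ρ hρ hρ0 γ hγ
    have h3 : 0 < ‖ρ‖ := norm_pos_iff.2 hρ0
    exact ⟨zpow_le_pow h3 hM1 (hM ρ hρ).1 (hM ρ hρ).2 hγ,
      zpow_le_pow h3 hM1 (hM ρ hρ).1 (hM ρ hρ).2 (by rwa [abs_neg])⟩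
  have hMA : 0 ≤ M ^ A := pow_nonneg (by linarith) _
  have n1 : 0 < ‖ρ₁‖ := norm_pos_iff.2 hρ₁
  have n1' : 0 < ‖ρ₁'‖ := norm_pos_iff.2 hρ₁'
  have n2 : 0 < ‖ρ₂‖ := norm_pos_iff.2 hρ₂
  have n2' : 0 < ‖ρ₂'‖ := norm_pos_iff.2 hρ₂'
  have hbound : ∀ n : ℤ, n ≠ 0 → (k : ℝ) ^ n ≤ M ^ A * M ^ A * (M ^ A * M ^ A) →
      (k : ℝ) ^ (-n) ≤ M ^ A * M ^ A * (M ^ A * M ^ A) → False := by
    intro n hn0 h3 h4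
    have h5 : (k : ℝ) ≤ M ^ A * M ^ A * (M ^ A * M ^ A) := by
      rcases lt_or_gt_of_ne hn0 with h | h
      · refine le_trans ?_ h4
        calc (k : ℝ) = (k : ℝ) ^ (1 : ℤ) := (zpow_one _).symm
          _ ≤ (k : ℝ) ^ (-n) := zpow_le_zpow_right₀ hk1 (by omega)
      · refine le_trans ?_ h3
        calc (k : ℝ) = (k : ℝ) ^ (1 : ℤ) := (zpow_one _).symm
          _ ≤ (k : ℝ) ^ n := zpow_le_zpow_right₀ hk1 (by omega)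
    linarith
  refine hbound (β * (p₁ - p₂)) (mul_ne_zero hβ (by omega)) ?_ ?_
  · have h3 : (k : ℝ) ^ (β * (p₁ - p₂)) =
        ‖ρ₁'‖ ^ α * ‖ρ₁‖ ^ β * (‖ρ₂'‖ ^ (-α) * ‖ρ₂‖ ^ (-β)) := by
      have h4 : (k : ℝ) ^ (β * (p₁ - p₂)) = (k : ℝ) ^ (β * p₁) * (k : ℝ) ^ (-(β * p₂)) := by
        rw [← zpow_add₀ hk0]
        congr 1
        ring
      have h5 : (k : ℝ) ^ (β * p₁) * (k : ℝ) ^ (-(β * p₁)) = 1 := by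
        rw [← zpow_add₀ hk0, add_neg_cancel, zpow_zero]
      have h6 : ‖ρ₂'‖ ^ α * ‖ρ₂'‖ ^ (-α) = 1 := by
        rw [← zpow_add₀ n2'.ne', add_neg_cancel, zpow_zero]
      have h7 : ‖ρ₂‖ ^ β * ‖ρ₂‖ ^ (-β) = 1 := by
        rw [← zpow_add₀ n2.ne', add_neg_cancel, zpow_zero]
      rw [h4]
      calc (k : ℝ) ^ (β * p₁) * (k : ℝ) ^ (-(β * p₂)) =
          (‖ρ₂'‖ ^ α * ‖ρ₂‖ ^ β * (k : ℝ) ^ (-(β * p₂))) * (k : ℝ) ^ (β * p₁) *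
            (‖ρ₂'‖ ^ (-α) * ‖ρ₂‖ ^ (-β)) := by
            linear_combination (-(k : ℝ) ^ (β * p₁) * (k : ℝ) ^ (-(β * p₂)) * (‖ρ₂‖ ^ β * ‖ρ₂‖ ^ (-β))) * h6 -
              ((k : ℝ) ^ (β * p₁) * (k : ℝ) ^ (-(β * p₂))) * h7
        _ = (‖ρ₁'‖ ^ α * ‖ρ₁‖ ^ β * (k : ℝ) ^ (-(β * p₁))) * (k : ℝ) ^ (β * p₁) *
            (‖ρ₂'‖ ^ (-α) * ‖ρ₂‖ ^ (-β)) := by rw [hn]
        _ = _ := by
            linear_combination (‖ρ₁'‖ ^ α * ‖ρ₁‖ ^ β * (‖ρ₂'‖ ^ (-α) * ‖ρ₂‖ ^ (-β))) * h5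
    rw [h3]
    exact mul_le_mul (mul_le_mul (hb _ he₁' hρ₁' α hαA).1 (hb _ he₁ hρ₁ β hβA).1
      (zpow_pos n1 _).le hMA) (mul_le_mul (hb _ he₂' hρ₂' α hαA).2 (hb _ he₂ hρ₂ β hβA).2
      (zpow_pos n2 _).le hMA) (mul_pos (zpow_pos n2' _) (zpow_pos n2 _)).le (mul_nonneg hMA hMA)
  · have h3 : (k : ℝ) ^ (-(β * (p₁ - p₂))) =
        ‖ρ₂'‖ ^ α * ‖ρ₂‖ ^ β * (‖ρ₁'‖ ^ (-α) * ‖ρ₁‖ ^ (-β)) := by
      have h4 : (k : ℝ) ^ (-(β * (p₁ - p₂))) = (k : ℝ) ^ (β * p₂) * (k : ℝ) ^ (-(β * p₁)) := by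
        rw [← zpow_add₀ hk0]
        congr 1
        ring
      have h5 : (k : ℝ) ^ (β * p₂) * (k : ℝ) ^ (-(β * p₂)) = 1 := by
        rw [← zpow_add₀ hk0, add_neg_cancel, zpow_zero]
      have h6 : ‖ρ₁'‖ ^ α * ‖ρ₁'‖ ^ (-α) = 1 := by
        rw [← zpow_add₀ n1'.ne', add_neg_cancel, zpow_zero]
      have h7 : ‖ρ₁‖ ^ β * ‖ρ₁‖ ^ (-β) = 1 := by
        rw [← zpow_add₀ n1.ne', add_neg_cancel, zpow_zero]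
      rw [h4]
      calc (k : ℝ) ^ (β * p₂) * (k : ℝ) ^ (-(β * p₁)) =
          (‖ρ₁'‖ ^ α * ‖ρ₁‖ ^ β * (k : ℝ) ^ (-(β * p₁))) * (k : ℝ) ^ (β * p₂) *
            (‖ρ₁'‖ ^ (-α) * ‖ρ₁‖ ^ (-β)) := by
            linear_combination (-(k : ℝ) ^ (β * p₂) * (k : ℝ) ^ (-(β * p₁)) * (‖ρ₁‖ ^ β * ‖ρ₁‖ ^ (-β))) * h6 -
              ((k : ℝ) ^ (β * p₂) * (k : ℝ) ^ (-(β * p₁))) * h7
        _ = (‖ρ₂'‖ ^ α * ‖ρ₂‖ ^ β * (k : ℝ) ^ (-(β * p₂))) * (k : ℝ) ^ (β * p₂) *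
            (‖ρ₁'‖ ^ (-α) * ‖ρ₁‖ ^ (-β)) := by rw [hn]
        _ = _ := by
            linear_combination (‖ρ₂'‖ ^ α * ‖ρ₂‖ ^ β * (‖ρ₁'‖ ^ (-α) * ‖ρ₁‖ ^ (-β))) * h5
    rw [h3]
    exact mul_le_mul (mul_le_mul (hb _ he₂' hρ₂' α hαA).1 (hb _ he₂ hρ₂ β hβA).1
      (zpow_pos n2 _).le hMA) (mul_le_mul (hb _ he₁' hρ₁' α hαA).2 (hb _ he₁ hρ₁ β hβA).2
      (zpow_pos n1 _).le hMA) (mul_pos (zpow_pos n1' _) (zpow_pos n1 _)).le (mul_nonneg hMA hMA)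

end

end Pool.Agent.Helper60.ZC
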