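import Pool.Agent.Helper60.ZC.P5

/-!
# Embeddings, conjugates, irreducible polynomials
-/

set_option autoImplicit false

namespace Pool.Agent.Helper60.ZC

open Polynomial

section

variable {K : Type} [Field K] [Algebra ℂ K]

/-- every transcendental element is a transcendence basis -/
theorem alg_of_nc {t w : K} (ht : Transcendental ℂ t)
    (h : ∀ y : K, IsAlgebraic (Algebra.adjoin ℂ {t}) y) (hw : Transcendental ℂ w) :
    ∀ y : K, IsAlgebraic (Algebra.adjoin ℂ {w}) y := by
  have h1 : AlgebraicIndependent ℂ (fun _ : Unit => t) := by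
    rw [algebraicIndependent_unique_type_iff]
    exact ht
  have h2 : AlgebraicIndependent ℂ (fun _ : Unit => w) := by
    rw [algebraicIndependent_unique_type_iff]
    exact hw
  have hr : ∀ x : K, Set.range (fun _ : Unit => x) = {x} := fun x => by
    ext y
    simp [eq_comm]
  have h3 : IsTranscendenceBasis ℂ (fun _ : Unit => t) := by
    rw [h1.isTranscendenceBasis_iff_isAlgebraic, hr]
    exact ⟨h⟩
  have h4 : Algebra.trdeg ℂ K ≤ Cardinal.mk Unit := h3.cardinalMk_eq_trdeg.ge
  have h5 : IsTranscendenceBasis ℂ (fun _ : Unit => w) :=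
    h2.isTranscendenceBasis_of_trdeg_le_of_finite h4
  rw [h2.isTranscendenceBasis_iff_isAlgebraic, hr] at h5
  exact h5.isAlgebraic

theorem aeval_inj {w : K} (hw : Transcendental ℂ w) :
    Function.Injective (aeval w : ℂ[X] →ₐ[ℂ] K) := transcendental_iff_injective.1 hw

/-- algebraicity over the ring of polynomials -/
theorem exists_rel {w z : K}
    (halg : IsAlgebraic (Algebra.adjoin ℂ {w}) z) :
    ∃ G : ℂ[X][X], G ≠ 0 ∧ (px G w).eval z = 0 := by
  classical
  have hr := Algebra.adjoin_singleton_eq_range_aeval ℂ w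
  let e : ℂ[X] →+* Algebra.adjoin ℂ {w} :=
    ((aeval w : ℂ[X] →ₐ[ℂ] K).codRestrict _ fun p => by rw [hr]; exact ⟨p, rfl⟩ :
      ℂ[X] →ₐ[ℂ] Algebra.adjoin ℂ {w})
  have he : Function.Surjective e := by
    rintro ⟨x, hx⟩
    have hx' := hx
    rw [hr] at hx'
    obtain ⟨p, hp⟩ := hx'
    exact ⟨p, Subtype.ext hp⟩
  obtain ⟨p, hp0, hp⟩ := halg
  obtain ⟨G, hG⟩ := Polynomial.map_surjective e he p
  refine ⟨G, ?_, ?_⟩
  · rintro rfl
    rw [Polynomial.map_zero] at hG
    exact hp0 hG.symm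
  · have h1 : px G w = p.map (algebraMap (Algebra.adjoin ℂ {w}) K) := by
      rw [← hG, Polynomial.map_map]
      rfl
    rw [h1, eval_map]
    exact hp

/-- an irreducible equation -/
theorem exists_irr {w z : K} (hw : Transcendental ℂ w) (hz : z ≠ 0)
    (halg : IsAlgebraic (Algebra.adjoin ℂ {w}) z) :
    ∃ F : ℂ[X][X], Irreducible F ∧ F.natDegree ≠ 0 ∧ F.coeff 0 ≠ 0 ∧ (px F w).eval z = 0 := by
  classical
  obtain ⟨G, hG0, hG⟩ := exists_rel halg
  let ev : ℂ[X][X] →+* K := eval₂RingHom ((aeval w : ℂ[X] →ₐ[ℂ] K) : ℂ[X] →+* K) z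
  have hev : ∀ F : ℂ[X][X], ev F = (px F w).eval z := by
    intro F
    rw [px, eval_map]
    rfl
  obtain ⟨F, hF, hFz⟩ : ∃ F : ℂ[X][X], Irreducible F ∧ ev F = 0 := by
    have h1 := UniqueFactorizationMonoid.factors_prod hG0
    have h2 : ev (UniqueFactorizationMonoid.factors G).prod = 0 := by
      obtain ⟨v, hv⟩ := h1
      have h3 : ev G = 0 := by rw [hev]; exact hG
      rw [← hv, map_mul] at h3
      rcases mul_eq_zero.1 h3 with h4 | h4
      · exact h4
      · exact absurd h4 ((v.isUnit.map ev).ne_zero)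
    rw [map_multiset_prod, Multiset.prod_eq_zero_iff] at h2
    obtain ⟨F, hF, hF2⟩ := Multiset.mem_map.1 h2
    exact ⟨F, UniqueFactorizationMonoid.irreducible_of_factor F hF, hF2⟩
  rw [hev] at hFz
  refine ⟨F, hF, ?_, ?_, hFz⟩
  · intro h
    rw [eq_C_of_natDegree_eq_zero h, px, map_C, eval_C] at hFz
    have h1 : F.coeff 0 = 0 := aeval_inj hw (by rw [map_zero]; exact hFz)
    apply hF.ne_zero
    rw [eq_C_of_natDegree_eq_zero h, h1, C_0]
  · intro h
    obtain ⟨G', hG'⟩ := X_dvd_iff.2 h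
    rcases hF.isUnit_or_isUnit hG' with h1 | h1
    · exact not_isUnit_X h1
    · have h2 : (px F w).eval z = z * (px G' w).eval z := by
        rw [hG', px, Polynomial.map_mul, map_X, eval_mul, eval_X]
        rfl
      rw [hFz] at h2
      have h3 : IsUnit (ev G') := h1.map ev
      rw [hev] at h3
      exact mul_ne_zero hz h3.ne_zero h2.symm

/-- embeddings -/
theorem exists_emb {L : Type} [Field L] [Algebra ℂ L] [IsAlgClosed L] {w : K} {y : L}
    (hw : Transcendental ℂ w) (halg : ∀ x : K, IsAlgebraic (Algebra.adjoin ℂ {w}) x)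
    (hy : Transcendental ℂ y) : ∃ φ : K →ₐ[ℂ] L, φ w = y := by
  classical
  let _ : Algebra ℂ[X] K := ((aeval w : ℂ[X] →ₐ[ℂ] K) : ℂ[X] →+* K).toAlgebra
  let _ : Algebra ℂ[X] L := ((aeval y : ℂ[X] →ₐ[ℂ] L) : ℂ[X] →+* L).toAlgebra
  have hK : ∀ p : ℂ[X], algebraMap ℂ[X] K p = aeval w p := fun p => rfl
  have hL : ∀ p : ℂ[X], algebraMap ℂ[X] L p = aeval y p := fun p => rfl
  have : FaithfulSMul ℂ[X] K := (faithfulSMul_iff_algebraMap_injective _ _).2 (aeval_inj hw)
  have : FaithfulSMul ℂ[X] L := (faithfulSMul_iff_algebraMap_injective _ _).2 (aeval_inj hy)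
  have : Algebra.IsAlgebraic ℂ[X] K := ⟨fun x => by
    obtain ⟨G, hG0, hG⟩ := exists_rel (halg x)
    refine ⟨G, hG0, ?_⟩
    rw [px, eval_map] at hG
    exact hG⟩
  let φ₀ : K →ₐ[ℂ[X]] L := IsAlgClosed.lift
  refine ⟨⟨φ₀.toRingHom, fun c => ?_⟩, ?_⟩
  · change φ₀ (algebraMap ℂ K c) = algebraMap ℂ L c
    have h1 : algebraMap ℂ K c = algebraMap ℂ[X] K (C c) := by rw [hK, aeval_C]
    rw [h1, φ₀.commutes, hL, aeval_C]
  · change φ₀ w = y
    have h1 : w = algebraMap ℂ[X] K X := by rw [hK, aeval_X]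
    rw [h1, φ₀.commutes, hL, aeval_X]

/-- conjugates -/
theorem exists_conj [IsAlgClosed K] {F : ℂ[X][X]} (hF : Irreducible F) (hd : F.natDegree ≠ 0)
    {w z z' : K} (hw : Transcendental ℂ w) (halg : ∀ x : K, IsAlgebraic (Algebra.adjoin ℂ {w}) x)
    (hz : (px F w).eval z = 0) (hz' : (px F w).eval z' = 0) :
    ∃ σ : K →ₐ[ℂ] K, σ w = w ∧ σ z = z' := by
  classical
  let i : FractionRing ℂ[X] →+* K :=
    IsFractionRing.lift (g := ((aeval w : ℂ[X] →ₐ[ℂ] K) : ℂ[X] →+* K)) (aeval_inj hw)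
  let _ : Algebra (FractionRing ℂ[X]) K := i.toAlgebra
  have hi : ∀ p : ℂ[X], algebraMap (FractionRing ℂ[X]) K (algebraMap ℂ[X] (FractionRing ℂ[X]) p) =
      aeval w p := fun p => IsFractionRing.lift_algebraMap (aeval_inj hw) p
  have hev : ∀ (G : ℂ[X][X]) (x : K),
      aeval x (G.map (algebraMap ℂ[X] (FractionRing ℂ[X]))) = (px G w).eval x := by
    intro G x
    rw [aeval_def, eval₂_map, px, eval_map]
    congr 1
    exact RingHom.ext hi
  have hirr : Irreducible (F.map (algebraMap ℂ[X] (FractionRing ℂ[X]))) :=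
    ((hF.isPrimitive hd).irreducible_iff_irreducible_map_fraction_map).1 hF
  have hint : ∀ x : K, IsAlgebraic (FractionRing ℂ[X]) x := by
    intro x
    obtain ⟨G, hG0, hG⟩ := exists_rel (halg x)
    refine ⟨G.map (algebraMap ℂ[X] (FractionRing ℂ[X])), ?_, ?_⟩
    · rwa [Polynomial.map_ne_zero_iff (IsFractionRing.injective _ _)]
    · rw [hev]
      exact hG
  have hmin := minpoly.eq_of_irreducible hirr (x := z) (by rw [hev]; exact hz)
  have hz'2 : aeval z' (minpoly (FractionRing ℂ[X]) z) = 0 := by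
    rw [← hmin, map_mul, hev, hz', zero_mul]
  have : Normal (FractionRing ℂ[X]) K := by
    rw [normal_iff]
    exact fun x => ⟨(hint x).isIntegral, IsAlgClosed.splits _⟩
  obtain ⟨σ, hσ⟩ := minpoly.exists_algEquiv_of_root' (hint z) hz'2
  refine ⟨⟨σ.toAlgHom.toRingHom, fun c => ?_⟩, ?_, hσ⟩
  · change σ (algebraMap ℂ K c) = algebraMap ℂ K c
    have h1 : algebraMap ℂ K c = algebraMap (FractionRing ℂ[X]) K
        (algebraMap ℂ[X] (FractionRing ℂ[X]) (C c)) := by rw [hi, aeval_C]
    rw [h1, σ.commutes]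
  · change σ w = w
    have h1 : w = algebraMap (FractionRing ℂ[X]) K
        (algebraMap ℂ[X] (FractionRing ℂ[X]) X) := by rw [hi, aeval_X]
    rw [h1, σ.commutes]

/-- products of linear factors with finite roots -/
theorem prod_coeff_R (P : Plc K) (s : Multiset K) (h : ∀ x ∈ s, P.Unt x) :
    ∃ g : ℂ[X], (∀ i, P.R ((s.map fun x => X - C x).prod.coeff i) (g.coeff i)) ∧
      g.coeff 0 ≠ 0 := by
  classical
  induction s using Multiset.induction_on with
  | empty =>
    refine ⟨1, fun i => ?_, by simp⟩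
    rw [Multiset.map_zero, Multiset.prod_zero, coeff_one, coeff_one]
    split_ifs
    · exact P.one
    · exact P.zero
  | cons x s ih =>
    obtain ⟨g, hg, hg0⟩ := ih fun y hy => h y (Multiset.mem_cons_of_mem hy)
    obtain ⟨a, ha, hx⟩ := h x (Multiset.mem_cons_self x s)
    refine ⟨(X - C a) * g, fun i => ?_, ?_⟩
    · rw [Multiset.map_cons, Multiset.prod_cons, sub_mul, sub_mul, coeff_sub, coeff_sub, coeff_C_mul,
        coeff_C_mul]
      refine P.sub ?_ (P.mul _ _ _ _ hx (hg i))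
      rcases i with _ | i
      · rw [coeff_X_mul_zero, coeff_X_mul_zero]
        exact P.zero
      · rw [coeff_X_mul, coeff_X_mul]
        exact hg i
    · rw [sub_mul, coeff_sub, coeff_C_mul, coeff_X_mul_zero, zero_sub]
      exact neg_ne_zero.2 (mul_ne_zero ha hg0)

/-- every place over a special point has a special root -/
theorem exists_spc_root [IsAlgClosed K] {F : ℂ[X][X]} (hF : Irreducible F) (hd : F.natDegree ≠ 0)
    (h0 : F.coeff 0 ≠ 0) {u : K} (hu : Transcendental ℂ u) {P : Plc K} {b : ℂ} (hub : P.R u b)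
    (hb : (F.coeff 0 * F.leadingCoeff).eval b = 0) :
    ∃ z : K, z ≠ 0 ∧ (px F u).eval z = 0 ∧ P.Spc z := by
  classical
  by_contra hcon
  push Not at hcon
  have hl : F.leadingCoeff ≠ 0 := leadingCoeff_ne_zero.2 hF.ne_zero
  have hinj := aeval_inj hu
  have hlu : (aeval u : ℂ[X] →ₐ[ℂ] K) F.leadingCoeff ≠ 0 := fun h => hl (hinj (by rw [map_zero]; exact h))
  have h0u : (aeval u : ℂ[X] →ₐ[ℂ] K) (F.coeff 0) ≠ 0 := fun h => h0 (hinj (by rw [map_zero]; exact h))
  have hne : px F u ≠ 0 := by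
    intro h
    have h1 : (px F u).coeff 0 = 0 := by rw [h, coeff_zero]
    rw [px, coeff_map] at h1
    exact h0u h1
  have hlc : (px F u).leadingCoeff = aeval u F.leadingCoeff := by
    rw [px]
    exact leadingCoeff_map_of_leadingCoeff_ne_zero _ hlu
  have hroots : ∀ x ∈ (px F u).roots, P.Unt x := by
    intro x hx
    have hx1 : (px F u).eval x = 0 := (mem_roots hne).1 hx
    have hx0 : x ≠ 0 := by
      rintro rfl
      rw [← coeff_zero_eq_eval_zero, px, coeff_map] at hx1
      exact h0u hx1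
    rcases Plc.unt_or_spc (P := P) hx0 with h | h
    · exact h
    · exact absurd h (hcon x hx0 hx1)
  obtain ⟨g, hg, hg0⟩ := prod_coeff_R P _ hroots
  have hprod : px F u = C (px F u).leadingCoeff * ((px F u).roots.map fun x => X - C x).prod :=
    (IsAlgClosed.splits (px F u)).eq_prod_roots
  have hcoef : ∀ i, (F.coeff i).eval b = F.leadingCoeff.eval b * g.coeff i := by
    intro i
    have h1 : P.R ((px F u).coeff i) ((F.coeff i).eval b) := by
      rw [px, coeff_map]
      exact P.aeval hub _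
    have h2 : P.R ((px F u).coeff i) (F.leadingCoeff.eval b * g.coeff i) := by
      rw [hprod, coeff_C_mul, hlc]
      exact P.mul _ _ _ _ (P.aeval hub _) (hg i)
    exact P.uniq _ _ _ h1 h2
  have hlb : F.leadingCoeff.eval b = 0 := by
    rw [eval_mul] at hb
    rcases mul_eq_zero.1 hb with h | h
    · rw [hcoef 0] at h
      rcases mul_eq_zero.1 h with h | h
      · exact h
      · exact absurd h hg0
    · exact h
  have hall : ∀ i, (X - C b : ℂ[X]) ∣ F.coeff i := by
    intro i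
    rw [dvd_iff_isRoot, IsRoot.def, hcoef i, hlb, zero_mul]
  obtain ⟨G, hG⟩ := C_dvd_iff_dvd_coeff _ _ |>.2 hall
  rcases hF.isUnit_or_isUnit hG with h | h
  · rw [isUnit_C] at h
    have h1 := natDegree_eq_zero_of_isUnit h
    rw [natDegree_X_sub_C] at h1
    exact one_ne_zero h1
  · apply hd
    rw [hG, natDegree_mul (by
      intro h1
      rw [h1, zero_mul] at hG
      exact hF.ne_zero hG) h.ne_zero, natDegree_C, natDegree_eq_zero_of_isUnit h]

end

end Pool.Agent.Helper60.ZC
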